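import Mathlib

/-!
# The zero-one law for all powers: linear algebra, definitions
-/

namespace Pool.Agent.Helper34.ZP

section Linear

variable {F : Type*} [Field F]

/-- the dimension of the image of `S` in the quotient by `N` -/
noncomputable def rdim {V : Type*} [AddCommGroup V] [Module F V] (N S : Submodule F V) : ℕ :=
  Module.finrank F S - Module.finrank F (S ⊓ N : Submodule F V)

/-- two spaces of linear maps `A ⊆ Hom(V, V)`, `B ⊆ Hom(V, V')`, `C ⊆ Hom(V', V)`,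
`D ⊆ Hom(V', V')`, with the identities and closed under compositions and compatible with two
involutions -/
structure IsCat {V V' : Type*} [AddCommGroup V] [Module F V] [AddCommGroup V'] [Module F V']
    (s : V →ₗ[F] V) (s' : V' →ₗ[F] V') (A : Submodule F (V →ₗ[F] V))
    (B : Submodule F (V →ₗ[F] V')) (C : Submodule F (V' →ₗ[F] V))
    (D : Submodule F (V' →ₗ[F] V')) : Prop where
  ss : s ∘ₗ s = LinearMap.id
  ss' : s' ∘ₗ s' = LinearMap.id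
  idA : LinearMap.id ∈ A
  idD : LinearMap.id ∈ D
  AA : ∀ x ∈ A, ∀ y ∈ A, x ∘ₗ y ∈ A
  BA : ∀ x ∈ B, ∀ y ∈ A, x ∘ₗ y ∈ B
  AC : ∀ x ∈ A, ∀ y ∈ C, x ∘ₗ y ∈ C
  DB : ∀ x ∈ D, ∀ y ∈ B, x ∘ₗ y ∈ B
  CD : ∀ x ∈ C, ∀ y ∈ D, x ∘ₗ y ∈ C
  DD : ∀ x ∈ D, ∀ y ∈ D, x ∘ₗ y ∈ D
  CB : ∀ x ∈ C, ∀ y ∈ B, x ∘ₗ y ∈ A
  BC : ∀ x ∈ B, ∀ y ∈ C, x ∘ₗ y ∈ D
  sA : ∀ x ∈ A, s ∘ₗ x = x ∘ₗ s
  sB : ∀ x ∈ B, s' ∘ₗ x = x ∘ₗ s
  sC : ∀ x ∈ C, s ∘ₗ x = x ∘ₗ s'
  sD : ∀ x ∈ D, s' ∘ₗ x = x ∘ₗ s'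

/-- the elements of `B ⊆ Hom(V, V')` which are orthogonal to `C ⊆ Hom(V', V)` for the form
`trace (y x s)` -/
def nul {V V' : Type*} [AddCommGroup V] [Module F V] [AddCommGroup V'] [Module F V']
    (s : V →ₗ[F] V) (B : Submodule F (V →ₗ[F] V')) (C : Submodule F (V' →ₗ[F] V)) :
    Submodule F (V →ₗ[F] V') where
  carrier := {x | x ∈ B ∧ ∀ y ∈ C, LinearMap.trace F V (y ∘ₗ x ∘ₗ s) = 0}
  add_mem' := by
    rintro x x' ⟨hx, h⟩ ⟨hx', h'⟩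
    refine ⟨add_mem hx hx', fun y hy => ?_⟩
    rw [LinearMap.add_comp, LinearMap.comp_add, map_add, h y hy, h' y hy, add_zero]
  zero_mem' := ⟨zero_mem _, fun y _ => by rw [LinearMap.zero_comp, LinearMap.comp_zero, map_zero]⟩
  smul_mem' := by
    rintro a x ⟨hx, h⟩
    refine ⟨Submodule.smul_mem _ a hx, fun y hy => ?_⟩
    rw [LinearMap.smul_comp, LinearMap.comp_smul, map_smul, h y hy, smul_zero]

/-- the map `x ↦ q x q` -/
def conj {V : Type*} [AddCommGroup V] [Module F V] (q : V →ₗ[F] V) :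
    (V →ₗ[F] V) →ₗ[F] (V →ₗ[F] V) where
  toFun x := q ∘ₗ x ∘ₗ q
  map_add' x y := by rw [LinearMap.add_comp, LinearMap.comp_add]
  map_smul' a x := by rw [LinearMap.smul_comp, LinearMap.comp_smul, RingHom.id_apply]

/-- the map `x ↦ x q` -/
def precomp {V V' : Type*} [AddCommGroup V] [Module F V] [AddCommGroup V'] [Module F V']
    (q : V →ₗ[F] V) : (V →ₗ[F] V') →ₗ[F] (V →ₗ[F] V') where
  toFun x := x ∘ₗ q
  map_add' x y := LinearMap.add_comp _ _ _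
  map_smul' a x := LinearMap.smul_comp _ _ _

end Linear

end Pool.Agent.Helper34.ZP
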