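import Mathlib
import Pool.Agent.Helper34.ZP.Lin0
import Pool.Agent.Helper30.ZP.Semi

/-!
# Semisimplicity modulo the radical of the trace form
-/

set_option autoImplicit false

namespace Pool.Agent.Helper34.ZP

section

universe u v

variable {F : Type u} [Field F] {V : Type v} [AddCommGroup V] [Module F V]

theorem P2_mem_nul {A : Subalgebra F (Module.End F V)} {s x : Module.End F V} :
    x ∈ nul s (Subalgebra.toSubmodule A) (Subalgebra.toSubmodule A) ↔
      x ∈ A ∧ ∀ y ∈ A, LinearMap.trace F V (y * x * s) = 0 := by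
  constructor
  · rintro ⟨h1, h2⟩
    exact ⟨h1, fun y hy => h2 y hy⟩
  · rintro ⟨h1, h2⟩
    exact ⟨h1, fun y hy => h2 y hy⟩

theorem P2_mul_mem_nul {A : Subalgebra F (Module.End F V)} {s a x : Module.End F V} (ha : a ∈ A)
    (hx : x ∈ nul s (Subalgebra.toSubmodule A) (Subalgebra.toSubmodule A)) :
    a * x ∈ nul s (Subalgebra.toSubmodule A) (Subalgebra.toSubmodule A) := by
  rw [P2_mem_nul] at hx ⊢
  refine ⟨A.mul_mem ha hx.1, fun y hy => ?_⟩
  rw [← mul_assoc]
  exact hx.2 _ (A.mul_mem hy ha)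

theorem P2_nul_mul_mem {A : Subalgebra F (Module.End F V)} {s a x : Module.End F V}
    (hsA : ∀ x ∈ A, s * x = x * s) (ha : a ∈ A)
    (hx : x ∈ nul s (Subalgebra.toSubmodule A) (Subalgebra.toSubmodule A)) :
    x * a ∈ nul s (Subalgebra.toSubmodule A) (Subalgebra.toSubmodule A) := by
  rw [P2_mem_nul] at hx ⊢
  refine ⟨A.mul_mem hx.1 ha, fun y hy => ?_⟩
  have h1 : y * (x * a) * s = (y * x * s) * a := by
    rw [mul_assoc, mul_assoc x, ← hsA a ha]
    noncomm_ring
  rw [h1, LinearMap.trace_mul_comm]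
  have h2 : a * (y * x * s) = (a * y) * x * s := by noncomm_ring
  rw [h2]
  exact hx.2 _ (A.mul_mem ha hy)

/-- the null elements as a left ideal -/
def P2_ideal (A : Subalgebra F (Module.End F V)) (s : Module.End F V) : Ideal A where
  carrier := {x | (x : Module.End F V) ∈ nul s (Subalgebra.toSubmodule A)
    (Subalgebra.toSubmodule A)}
  add_mem' := by
    intro x y hx hy
    rw [Set.mem_ofPred_eq] at hx hy ⊢
    exact Submodule.add_mem _ hx hy
  zero_mem' := by
    rw [Set.mem_ofPred_eq]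
    exact Submodule.zero_mem _
  smul_mem' := by
    intro a x hx
    rw [Set.mem_ofPred_eq] at hx ⊢
    exact P2_mul_mem_nul a.2 hx

theorem P2_mem_ideal {A : Subalgebra F (Module.End F V)} {s : Module.End F V} {x : A} :
    x ∈ P2_ideal A s ↔ (x : Module.End F V) ∈ nul s (Subalgebra.toSubmodule A)
      (Subalgebra.toSubmodule A) := by
  change x ∈ {x : A | (x : Module.End F V) ∈ nul s (Subalgebra.toSubmodule A)
    (Subalgebra.toSubmodule A)} ↔ _
  rw [Set.mem_ofPred_eq]

theorem P2_trace_eq_zero {s x : Module.End F V} (hsx : s * x = x * s) (hx : IsNilpotent x) :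
    LinearMap.trace F V (x * s) = 0 := by
  obtain ⟨n, hn⟩ := hx
  have h1 : IsNilpotent (x * s) := by
    refine ⟨n, ?_⟩
    have hc : Commute x s := hsx.symm
    rw [hc.mul_pow, hn, zero_mul]
  exact (LinearMap.isNilpotent_trace_of_isNilpotent h1).eq_zero

variable [Module.Finite F V]

/-- P2a: an algebra of operators commuting with an involution, modulo the radical of the trace
form, is semisimple -/
theorem exists_ideal (A : Subalgebra F (Module.End F V)) (s : Module.End F V) (_hs : s * s = 1)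
    (hsA : ∀ x ∈ A, s * x = x * s) : ∃ (Q : Type v) (_ : Ring Q) (_ : Algebra F Q)
      (π : A →ₐ[F] Q), Function.Surjective π ∧ IsSemisimpleRing Q ∧ Module.Finite F Q ∧
      ∀ x : A, π x = 0 ↔ (x : Module.End F V) ∈ nul s (Subalgebra.toSubmodule A)
        (Subalgebra.toSubmodule A) := by
  have : (P2_ideal A s).IsTwoSided := ⟨fun b ha =>
    P2_mem_ideal.2 (P2_nul_mul_mem hsA b.2 (P2_mem_ideal.1 ha))⟩
  have hsurj : Function.Surjective (Ideal.Quotient.mkₐ F (P2_ideal A s)) :=
    Ideal.Quotient.mkₐ_surjective F _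
  have hker : ∀ x : A, Ideal.Quotient.mkₐ F (P2_ideal A s) x = 0 ↔
      (x : Module.End F V) ∈ nul s (Subalgebra.toSubmodule A) (Subalgebra.toSubmodule A) := by
    intro x
    exact (Ideal.Quotient.eq_zero_iff_mem (I := P2_ideal A s)).trans P2_mem_ideal
  refine ⟨A ⧸ P2_ideal A s, inferInstance, inferInstance, Ideal.Quotient.mkₐ F _, hsurj, ?_, ?_,
    hker⟩
  · refine Pool.Agent.Helper30.ZP.isSemisimpleRing_of_trace (Ω := F)
      ((Ideal.Quotient.mkₐ F (P2_ideal A s) : A →ₐ[F] A ⧸ P2_ideal A s) : A →+* A ⧸ P2_ideal A s)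
      hsurj (fun x => LinearMap.trace F V ((x : Module.End F V) * s)) ?_ ?_
    · intro x hx
      refine P2_trace_eq_zero (hsA _ x.2) ?_
      obtain ⟨n, hn⟩ := hx
      exact ⟨n, by rw [← Subalgebra.coe_pow, hn, Subalgebra.coe_zero]⟩
    · intro x hx
      refine (hker x).2 (P2_mem_nul.2 ⟨x.2, fun y hy => ?_⟩)
      have h1 := hx ⟨y, hy⟩
      have h2 : ((x * ⟨y, hy⟩ : A) : Module.End F V) * s = (x : Module.End F V) * s * y := by
        rw [Subalgebra.coe_mul, mul_assoc, mul_assoc, hsA y hy]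
      rw [h2, LinearMap.trace_mul_comm] at h1
      rw [mul_assoc]
      exact h1
  · exact Module.Finite.of_surjective (Ideal.Quotient.mkₐ F (P2_ideal A s)).toLinearMap hsurj

/-- P2c: a null element which is not nilpotent -/
theorem exists_idem_of_not_nil (A : Subalgebra F (Module.End F V)) (s : Module.End F V)
    (hsA : ∀ x ∈ A, s * x = x * s) {x : Module.End F V}
    (hx : x ∈ nul s (Subalgebra.toSubmodule A) (Subalgebra.toSubmodule A))
    (hx' : ¬ IsNilpotent x) :
    ∃ e ∈ A, e * e = e ∧ Module.finrank F (LinearMap.range e) < Module.finrank F V ∧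
      1 - e ∈ nul s (Subalgebra.toSubmodule A) (Subalgebra.toSubmodule A) := by
  have hxA : x ∈ A := (P2_mem_nul.1 hx).1
  have hμ := minpoly.ne_zero (Algebra.IsIntegral.isIntegral (R := F) x)
  obtain ⟨h, hh, hnd⟩ := Polynomial.exists_eq_pow_rootMultiplicity_mul_and_not_dvd
    (minpoly F x) hμ (0 : F)
  set n := Polynomial.rootMultiplicity (0 : F) (minpoly F x)
  rw [Polynomial.C_0, sub_zero] at hh hnd
  have hcop : IsCoprime (Polynomial.X ^ (n + 1) : Polynomial F) h :=
    ((Polynomial.prime_X.irreducible.coprime_iff_not_dvd).2 hnd).pow_left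
  obtain ⟨u, v, huv⟩ := hcop
  have haev : ∀ p : Polynomial F, Polynomial.aeval x p ∈ A := fun p => by
    rw [Polynomial.aeval_eq_sum_range]
    exact A.sum_mem fun i _ => A.smul_mem (A.pow_mem hxA i) _
  set f := Polynomial.aeval x (u * Polynomial.X ^ (n + 1)) with hf
  have hf1 : f + Polynomial.aeval x (v * h) = 1 := by
    rw [hf, ← map_add, huv, map_one]
  have hf2 : f * Polynomial.aeval x (v * h) = 0 := by
    rw [hf, ← map_mul]
    have e1 : u * Polynomial.X ^ (n + 1) * (v * h) =
        (u * Polynomial.X * v) * (Polynomial.X ^ n * h) := by ring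
    rw [e1, ← hh, map_mul, minpoly.aeval, mul_zero]
  have hff : f * f = f := by
    have h1 : Polynomial.aeval x (v * h) = 1 - f := eq_sub_of_add_eq' hf1
    rw [h1, mul_sub, mul_one, sub_eq_zero] at hf2
    exact hf2.symm
  have hfN : f ∈ nul s (Subalgebra.toSubmodule A) (Subalgebra.toSubmodule A) := by
    have e1 : f = Polynomial.aeval x (u * Polynomial.X ^ n) * x := by
      rw [hf, pow_succ, ← mul_assoc, map_mul, Polynomial.aeval_X]
    rw [e1]
    exact P2_mul_mem_nul (haev _) hx
  have hf0 : f ≠ 0 := by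
    intro h0
    have h1 : minpoly F x ∣ u * Polynomial.X ^ (n + 1) := minpoly.dvd F x h0
    have h2 : h ∣ u * Polynomial.X ^ (n + 1) := (Dvd.intro_left _ hh.symm).trans h1
    have h3 : h ∣ 1 := by
      rw [← huv]
      exact dvd_add h2 (dvd_mul_left _ _)
    have h4 : minpoly F x ∣ Polynomial.X ^ n := by
      rw [hh]
      have h5 := mul_dvd_mul_left (Polynomial.X ^ n : Polynomial F) h3
      rwa [mul_one] at h5
    refine hx' ⟨n, ?_⟩
    obtain ⟨w, hw⟩ := h4
    have h6 : Polynomial.aeval x (Polynomial.X ^ n : Polynomial F) = 0 := by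
      rw [hw, map_mul, minpoly.aeval, zero_mul]
    rwa [map_pow, Polynomial.aeval_X] at h6
  refine ⟨1 - f, A.sub_mem A.one_mem (haev _), ?_, ?_, ?_⟩
  · rw [sub_mul, mul_sub, mul_sub, hff]
    noncomm_ring
  · refine Submodule.finrank_lt (fun htop => hf0 ?_)
    have h1 : f * (1 - f) = 0 := by rw [mul_sub, mul_one, hff, sub_self]
    refine LinearMap.ext fun w => ?_
    have h2 : w ∈ LinearMap.range (1 - f) := by rw [htop]; trivial
    obtain ⟨z, hz⟩ := h2
    have h3 := congrArg (fun g : Module.End F V => g z) h1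
    rw [← hz]
    exact h3
  · rw [sub_sub_cancel]
    exact hfN

end

end Pool.Agent.Helper34.ZP
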