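import Pool.Agent.Helper34.ZP.P1
import Pool.Agent.Helper34.ZP.P2

/-!
# Cauchy-Schwarz for a category with two objects
-/

namespace Pool.Agent.Helper34.ZP

universe v v'

section

variable {F : Type*} [Field F]

theorem P3_trace {W U T : Type*} [AddCommGroup W] [Module F W] [Module.Finite F W]
    [AddCommGroup U] [Module F U] [Module.Finite F U] [AddCommGroup T] [Module F T]
    (ι : T →ₗ[F] W) (ρ : W →ₗ[F] U) {S : W →ₗ[F] W} {σ : U →ₗ[F] U}
    (hρ : ρ ∘ₗ S = σ ∘ₗ ρ) (x : U →ₗ[F] T) (Y : W →ₗ[F] W) :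
    LinearMap.trace F W (Y ∘ₗ (ι ∘ₗ x ∘ₗ ρ) ∘ₗ S) =
      LinearMap.trace F U ((ρ ∘ₗ Y ∘ₗ ι) ∘ₗ x ∘ₗ σ) := by
  have h1 : Y ∘ₗ (ι ∘ₗ x ∘ₗ ρ) ∘ₗ S = (Y ∘ₗ ι ∘ₗ x ∘ₗ σ) ∘ₗ ρ := by
    rw [LinearMap.comp_assoc, LinearMap.comp_assoc, hρ]
    rfl
  rw [h1, LinearMap.trace_comp_comm']
  rfl

/-- the rank of a linear map on `T0` whose kernel is `N` -/
theorem P3_finrank_range {U Q : Type*} [AddCommGroup U] [Module F U] [Module.Finite F U]
    [AddCommGroup Q] [Module F Q] (N T0 : Submodule F U) (f : T0 →ₗ[F] Q)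
    (hf : ∀ x : T0, f x = 0 ↔ (x : U) ∈ N) :
    Module.finrank F (LinearMap.range f) = rdim N T0 := by
  have h1 := LinearMap.finrank_range_add_finrank_ker f
  have h3 : Module.finrank F (LinearMap.ker f) = Module.finrank F (T0 ⊓ N : Submodule F U) := by
    have h4 : LinearMap.ker f = (T0 ⊓ N).comap T0.subtype := by
      ext x
      rw [LinearMap.mem_ker, hf, Submodule.mem_comap, Submodule.mem_inf]
      exact ⟨fun h => ⟨x.2, h⟩, fun h => h.2⟩
    rw [h4]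
    exact LinearEquiv.finrank_eq (Submodule.comapSubtypeEquivOfLe inf_le_left)
  rw [h3] at h1
  unfold rdim
  omega

theorem P3_corner {W U T Q : Type*} [AddCommGroup W] [Module F W] [Module.Finite F W]
    [AddCommGroup U] [Module F U] [Module.Finite F U] [AddCommGroup T] [Module F T]
    [Module.Finite F T] [Ring Q] [Algebra F Q] {R : Subalgebra F (Module.End F W)}
    {S : Module.End F W} {π : R →ₐ[F] Q} (hsurj : Function.Surjective π)
    (hker : ∀ x : R, π x = 0 ↔ (x : Module.End F W) ∈ nul S (Subalgebra.toSubmodule R)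
      (Subalgebra.toSubmodule R)) (ι : T →ₗ[F] W) (ρ : W →ₗ[F] U)
    (N T0 : Submodule F (U →ₗ[F] T)) (p q : R)
    (hR : ∀ x ∈ T0, (ι ∘ₗ x ∘ₗ ρ : Module.End F W) ∈ R)
    (hN : ∀ x ∈ T0, (ι ∘ₗ x ∘ₗ ρ : Module.End F W) ∈ nul S (Subalgebra.toSubmodule R)
      (Subalgebra.toSubmodule R) ↔ x ∈ N)
    (h1 : ∀ X ∈ R, ∃ x ∈ T0, (p : Module.End F W) * X * q = ι ∘ₗ x ∘ₗ ρ)
    (h2 : ∀ x ∈ T0, (p : Module.End F W) * (ι ∘ₗ x ∘ₗ ρ) * q = ι ∘ₗ x ∘ₗ ρ) :
    Module.finrank F (LinearMap.range (corner (F := F) (π p) (π q))) = rdim N T0 := by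
  let f : T0 →ₗ[F] Q :=
    { toFun := fun x => π ⟨ι ∘ₗ (x : U →ₗ[F] T) ∘ₗ ρ, hR x x.2⟩
      map_add' := fun x y => by
        rw [← map_add]
        congr 1
        apply Subtype.ext
        change ι ∘ₗ ((x : U →ₗ[F] T) + (y : U →ₗ[F] T)) ∘ₗ ρ =
          ι ∘ₗ (x : U →ₗ[F] T) ∘ₗ ρ + ι ∘ₗ (y : U →ₗ[F] T) ∘ₗ ρ
        rw [LinearMap.add_comp, LinearMap.comp_add]
      map_smul' := fun a x => by
        rw [RingHom.id_apply, ← map_smul]
        congr 1
        apply Subtype.ext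
        change ι ∘ₗ (a • (x : U →ₗ[F] T)) ∘ₗ ρ = a • (ι ∘ₗ (x : U →ₗ[F] T) ∘ₗ ρ)
        rw [LinearMap.smul_comp, LinearMap.comp_smul] }
  have hf : ∀ x : T0, f x = π ⟨ι ∘ₗ (x : U →ₗ[F] T) ∘ₗ ρ, hR x x.2⟩ := fun _ => rfl
  have hc : ∀ z, corner (F := F) (π p) (π q) z = π p * z * π q := fun _ => rfl
  rw [← P3_finrank_range N T0 f fun x => by rw [hf, hker]; exact hN x x.2]
  have h3 : LinearMap.range (corner (F := F) (π p) (π q)) = LinearMap.range f := by
    apply le_antisymm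
    · rintro _ ⟨z, rfl⟩
      obtain ⟨X, rfl⟩ := hsurj z
      obtain ⟨x, hx, h⟩ := h1 X X.2
      refine ⟨⟨x, hx⟩, ?_⟩
      rw [hc, ← map_mul, ← map_mul, hf]
      congr 1
      exact Subtype.ext h.symm
    · rintro _ ⟨x, rfl⟩
      refine ⟨f x, ?_⟩
      rw [hc, hf, ← map_mul, ← map_mul]
      congr 1
      exact Subtype.ext (h2 x x.2)
  rw [h3]

end

section

variable {F : Type*} [Field F] {V : Type v} {V' : Type v'} [AddCommGroup V] [Module F V]
  [AddCommGroup V'] [Module F V']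
  {s : V →ₗ[F] V} {s' : V' →ₗ[F] V'} {A : Submodule F (V →ₗ[F] V)}
  {B : Submodule F (V →ₗ[F] V')} {C : Submodule F (V' →ₗ[F] V)} {D : Submodule F (V' →ₗ[F] V')}

theorem P3_to {M : Type*} [AddCommGroup M] [Module F M] {S : Submodule F M} {x y : M}
    (h : x ∈ S) (e : y = x) : y ∈ S := e ▸ h

theorem P3_mul {T U : Type*} [AddCommGroup T] [Module F T] [AddCommGroup U] [Module F U]
    (X Y : Module.End F (V × V')) (f : V × V' →ₗ[F] T) (g : U →ₗ[F] V × V') :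
    f ∘ₗ (X * Y) ∘ₗ g =
      (f ∘ₗ X ∘ₗ LinearMap.inl F V V') ∘ₗ (LinearMap.fst F V V' ∘ₗ Y ∘ₗ g) +
        (f ∘ₗ X ∘ₗ LinearMap.inr F V V') ∘ₗ (LinearMap.snd F V V' ∘ₗ Y ∘ₗ g) := by
  apply LinearMap.ext
  intro w
  have h1 : Y (g w) = ((Y (g w)).1, (0 : V')) + ((0 : V), (Y (g w)).2) := by simp
  change f (X (Y (g w))) = f (X ((Y (g w)).1, (0 : V'))) + f (X ((0 : V), (Y (g w)).2))
  rw [← map_add, ← map_add, ← h1]

/-- the algebra of two by two matrices with entries in `A`, `B`, `C`, `D` -/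
def P3_alg (h : IsCat s s' A B C D) : Subalgebra F (Module.End F (V × V')) where
  carrier := {X | LinearMap.fst F V V' ∘ₗ X ∘ₗ LinearMap.inl F V V' ∈ A ∧
    LinearMap.snd F V V' ∘ₗ X ∘ₗ LinearMap.inl F V V' ∈ B ∧
    LinearMap.fst F V V' ∘ₗ X ∘ₗ LinearMap.inr F V V' ∈ C ∧
    LinearMap.snd F V V' ∘ₗ X ∘ₗ LinearMap.inr F V V' ∈ D}
  mul_mem' := by
    rintro X Y ⟨a1, b1, c1, d1⟩ ⟨a2, b2, c2, d2⟩
    refine ⟨?_, ?_, ?_, ?_⟩
    · rw [P3_mul]
      exact add_mem (h.AA _ a1 _ a2) (h.CB _ c1 _ b2)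
    · rw [P3_mul]
      exact add_mem (h.BA _ b1 _ a2) (h.DB _ d1 _ b2)
    · rw [P3_mul]
      exact add_mem (h.AC _ a1 _ c2) (h.CD _ c1 _ d2)
    · rw [P3_mul]
      exact add_mem (h.BC _ b1 _ c2) (h.DD _ d1 _ d2)
  add_mem' := by
    rintro X Y ⟨a1, b1, c1, d1⟩ ⟨a2, b2, c2, d2⟩
    refine ⟨?_, ?_, ?_, ?_⟩
    · rw [LinearMap.add_comp, LinearMap.comp_add]
      exact add_mem a1 a2
    · rw [LinearMap.add_comp, LinearMap.comp_add]
      exact add_mem b1 b2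
    · rw [LinearMap.add_comp, LinearMap.comp_add]
      exact add_mem c1 c2
    · rw [LinearMap.add_comp, LinearMap.comp_add]
      exact add_mem d1 d2
  algebraMap_mem' := by
    intro r
    have e : (algebraMap F (Module.End F (V × V')) r) = r • LinearMap.id := by
      ext <;> simp [Module.algebraMap_end_apply]
    rw [e]
    refine ⟨?_, ?_, ?_, ?_⟩
    · have : LinearMap.fst F V V' ∘ₗ (r • LinearMap.id) ∘ₗ LinearMap.inl F V V' =
          r • LinearMap.id := by ext; simp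
      rw [this]
      exact A.smul_mem r h.idA
    · have : LinearMap.snd F V V' ∘ₗ (r • LinearMap.id) ∘ₗ LinearMap.inl F V V' = 0 := by
        ext; simp
      rw [this]
      exact B.zero_mem
    · have : LinearMap.fst F V V' ∘ₗ (r • LinearMap.id) ∘ₗ LinearMap.inr F V V' = 0 := by
        ext; simp
      rw [this]
      exact C.zero_mem
    · have : LinearMap.snd F V V' ∘ₗ (r • LinearMap.id) ∘ₗ LinearMap.inr F V V' =
          r • LinearMap.id := by ext; simp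
      rw [this]
      exact D.smul_mem r h.idD

theorem P3_mem (h : IsCat s s' A B C D) {X : Module.End F (V × V')} : X ∈ P3_alg h ↔
    LinearMap.fst F V V' ∘ₗ X ∘ₗ LinearMap.inl F V V' ∈ A ∧
    LinearMap.snd F V V' ∘ₗ X ∘ₗ LinearMap.inl F V V' ∈ B ∧
    LinearMap.fst F V V' ∘ₗ X ∘ₗ LinearMap.inr F V V' ∈ C ∧
    LinearMap.snd F V V' ∘ₗ X ∘ₗ LinearMap.inr F V V' ∈ D := Iff.rfl

theorem P3_mem11 (h : IsCat s s' A B C D) {x : V →ₗ[F] V} (hx : x ∈ A) :
    (LinearMap.inl F V V' ∘ₗ x ∘ₗ LinearMap.fst F V V' : Module.End F (V × V')) ∈ P3_alg h := by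
  refine (P3_mem h).2 ⟨?_, ?_, ?_, ?_⟩
  · exact P3_to hx (by ext; simp)
  · exact P3_to B.zero_mem (by ext; simp)
  · exact P3_to C.zero_mem (by ext; simp)
  · exact P3_to D.zero_mem (by ext; simp)

theorem P3_mem21 (h : IsCat s s' A B C D) {x : V →ₗ[F] V'} (hx : x ∈ B) :
    (LinearMap.inr F V V' ∘ₗ x ∘ₗ LinearMap.fst F V V' : Module.End F (V × V')) ∈ P3_alg h := by
  refine (P3_mem h).2 ⟨?_, ?_, ?_, ?_⟩
  · exact P3_to A.zero_mem (by ext; simp)
  · exact P3_to hx (by ext; simp)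
  · exact P3_to C.zero_mem (by ext; simp)
  · exact P3_to D.zero_mem (by ext; simp)

theorem P3_mem12 (h : IsCat s s' A B C D) {x : V' →ₗ[F] V} (hx : x ∈ C) :
    (LinearMap.inl F V V' ∘ₗ x ∘ₗ LinearMap.snd F V V' : Module.End F (V × V')) ∈ P3_alg h := by
  refine (P3_mem h).2 ⟨?_, ?_, ?_, ?_⟩
  · exact P3_to A.zero_mem (by ext; simp)
  · exact P3_to B.zero_mem (by ext; simp)
  · exact P3_to hx (by ext; simp)
  · exact P3_to D.zero_mem (by ext; simp)

theorem P3_mem22 (h : IsCat s s' A B C D) {x : V' →ₗ[F] V'} (hx : x ∈ D) :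
    (LinearMap.inr F V V' ∘ₗ x ∘ₗ LinearMap.snd F V V' : Module.End F (V × V')) ∈ P3_alg h := by
  refine (P3_mem h).2 ⟨?_, ?_, ?_, ?_⟩
  · exact P3_to A.zero_mem (by ext; simp)
  · exact P3_to B.zero_mem (by ext; simp)
  · exact P3_to C.zero_mem (by ext; simp)
  · exact P3_to hx (by ext; simp)

theorem P3_comm (h : IsCat s s' A B C D) {X : Module.End F (V × V')} (hX : X ∈ P3_alg h) :
    (LinearMap.prodMap s s') * X = X * (LinearMap.prodMap s s') := by
  obtain ⟨a, b, c, d⟩ := hX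
  have ha := h.sA _ a
  have hb := h.sB _ b
  have hc := h.sC _ c
  have hd := h.sD _ d
  apply LinearMap.prod_ext
  · apply LinearMap.ext
    intro v
    have h1 := LinearMap.congr_fun ha v
    have h2 := LinearMap.congr_fun hb v
    simp only [LinearMap.comp_apply, LinearMap.inl_apply, LinearMap.fst_apply,
      LinearMap.snd_apply] at h1 h2
    ext
    · simp [h1]
    · simp [h2]
  · apply LinearMap.ext
    intro v
    have h1 := LinearMap.congr_fun hc v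
    have h2 := LinearMap.congr_fun hd v
    simp only [LinearMap.comp_apply, LinearMap.inr_apply, LinearMap.fst_apply,
      LinearMap.snd_apply] at h1 h2
    ext
    · simp [h1]
    · simp [h2]

variable [Module.Finite F V] [Module.Finite F V']

theorem P3_nul11 (h : IsCat s s' A B C D) {x : V →ₗ[F] V} (hx : x ∈ A) :
    (LinearMap.inl F V V' ∘ₗ x ∘ₗ LinearMap.fst F V V' : Module.End F (V × V')) ∈
      nul (LinearMap.prodMap s s') (Subalgebra.toSubmodule (P3_alg h))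
        (Subalgebra.toSubmodule (P3_alg h)) ↔ x ∈ nul s A A := by
  have hρ : LinearMap.fst F V V' ∘ₗ LinearMap.prodMap s s' = s ∘ₗ LinearMap.fst F V V' := by
    ext <;> simp
  constructor
  · rintro ⟨-, h2⟩
    refine ⟨hx, fun y hy => ?_⟩
    have h3 := h2 _ (P3_mem11 h hy)
    rw [P3_trace _ _ hρ] at h3
    have e : LinearMap.fst F V V' ∘ₗ (LinearMap.inl F V V' ∘ₗ y ∘ₗ LinearMap.fst F V V') ∘ₗ
      LinearMap.inl F V V' = y := by ext; simp
    rwa [e] at h3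
  · rintro ⟨-, h2⟩
    refine ⟨P3_mem11 h hx, fun Y hY => ?_⟩
    rw [P3_trace _ _ hρ]
    exact h2 _ hY.1

theorem P3_nul21 (h : IsCat s s' A B C D) {x : V →ₗ[F] V'} (hx : x ∈ B) :
    (LinearMap.inr F V V' ∘ₗ x ∘ₗ LinearMap.fst F V V' : Module.End F (V × V')) ∈
      nul (LinearMap.prodMap s s') (Subalgebra.toSubmodule (P3_alg h))
        (Subalgebra.toSubmodule (P3_alg h)) ↔ x ∈ nul s B C := by
  have hρ : LinearMap.fst F V V' ∘ₗ LinearMap.prodMap s s' = s ∘ₗ LinearMap.fst F V V' := by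
    ext <;> simp
  constructor
  · rintro ⟨-, h2⟩
    refine ⟨hx, fun y hy => ?_⟩
    have h3 := h2 _ (P3_mem12 h hy)
    rw [P3_trace _ _ hρ] at h3
    have e : LinearMap.fst F V V' ∘ₗ (LinearMap.inl F V V' ∘ₗ y ∘ₗ LinearMap.snd F V V') ∘ₗ
      LinearMap.inr F V V' = y := by ext; simp
    rwa [e] at h3
  · rintro ⟨-, h2⟩
    refine ⟨P3_mem21 h hx, fun Y hY => ?_⟩
    rw [P3_trace _ _ hρ]
    exact h2 _ hY.2.2.1

theorem P3_nul22 (h : IsCat s s' A B C D) {x : V' →ₗ[F] V'} (hx : x ∈ D) :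
    (LinearMap.inr F V V' ∘ₗ x ∘ₗ LinearMap.snd F V V' : Module.End F (V × V')) ∈
      nul (LinearMap.prodMap s s') (Subalgebra.toSubmodule (P3_alg h))
        (Subalgebra.toSubmodule (P3_alg h)) ↔ x ∈ nul s' D D := by
  have hρ : LinearMap.snd F V V' ∘ₗ LinearMap.prodMap s s' = s' ∘ₗ LinearMap.snd F V V' := by
    ext <;> simp
  constructor
  · rintro ⟨-, h2⟩
    refine ⟨hx, fun y hy => ?_⟩
    have h3 := h2 _ (P3_mem22 h hy)
    rw [P3_trace _ _ hρ] at h3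
    have e : LinearMap.snd F V V' ∘ₗ (LinearMap.inr F V V' ∘ₗ y ∘ₗ LinearMap.snd F V V') ∘ₗ
      LinearMap.inr F V V' = y := by ext; simp
    rwa [e] at h3
  · rintro ⟨-, h2⟩
    refine ⟨P3_mem22 h hx, fun Y hY => ?_⟩
    rw [P3_trace _ _ hρ]
    exact h2 _ hY.2.2.2

/-- P3: Cauchy-Schwarz for a category with two objects -/
theorem cs_cat (h : IsCat s s' A B C D) {q : V →ₗ[F] V} (hq : q ∈ A) (hqq : q ∘ₗ q = q) :
    (rdim (nul s B C) (B.map (precomp q))) ^ 2 ≤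
      rdim (nul s' D D) D * rdim (nul s A A) (A.map (conj q)) := by
  have hSS : (LinearMap.prodMap s s' : Module.End F (V × V')) * LinearMap.prodMap s s' = 1 := by
    apply LinearMap.prod_ext
    · apply LinearMap.ext
      intro v
      have h1 := LinearMap.congr_fun h.ss v
      simp only [LinearMap.comp_apply, LinearMap.id_apply] at h1
      ext
      · simp [h1]
      · simp
    · apply LinearMap.ext
      intro v
      have h1 := LinearMap.congr_fun h.ss' v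
      simp only [LinearMap.comp_apply, LinearMap.id_apply] at h1
      ext
      · simp
      · simp [h1]
  obtain ⟨Q, _, _, π, hπ, hss, hfin, hker⟩ := exists_ideal (P3_alg h) (LinearMap.prodMap s s') hSS
    (fun X hX => P3_comm h hX)
  let P : P3_alg h := ⟨_, P3_mem22 h h.idD⟩
  let Q' : P3_alg h := ⟨_, P3_mem11 h hq⟩
  have hqv : ∀ v, q (q v) = q v := fun v => LinearMap.congr_fun hqq v
  have hP : P * P = P := by
    apply Subtype.ext
    change (LinearMap.inr F V V' ∘ₗ LinearMap.id ∘ₗ LinearMap.snd F V V' :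
      Module.End F (V × V')) * (LinearMap.inr F V V' ∘ₗ LinearMap.id ∘ₗ LinearMap.snd F V V') =
      LinearMap.inr F V V' ∘ₗ LinearMap.id ∘ₗ LinearMap.snd F V V'
    ext <;> simp
  have hQ : Q' * Q' = Q' := by
    apply Subtype.ext
    change (LinearMap.inl F V V' ∘ₗ q ∘ₗ LinearMap.fst F V V' :
      Module.End F (V × V')) * (LinearMap.inl F V V' ∘ₗ q ∘ₗ LinearMap.fst F V V') =
      LinearMap.inl F V V' ∘ₗ q ∘ₗ LinearMap.fst F V V'
    ext <;> simp [hqv]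
  have h1 := cs_idem (F := F) (p := π P) (q := π Q') (by rw [← map_mul, hP])
    (by rw [← map_mul, hQ])
  have e21 : Module.finrank F (LinearMap.range (corner (F := F) (π P) (π Q'))) =
      rdim (nul s B C) (B.map (precomp q)) := by
    have hB : ∀ x ∈ B.map (precomp q), x ∈ B ∧ x ∘ₗ q = x := by
      rintro _ ⟨y, hy, rfl⟩
      refine ⟨h.BA _ hy _ hq, ?_⟩
      change (y ∘ₗ q) ∘ₗ q = y ∘ₗ q
      rw [LinearMap.comp_assoc, hqq]
    refine P3_corner hπ hker (LinearMap.inr F V V') (LinearMap.fst F V V') _ _ P Q'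
      (fun x hx => P3_mem21 h (hB x hx).1) (fun x hx => P3_nul21 h (hB x hx).1)
      (fun X hX => ?_) (fun x hx => ?_)
    · refine ⟨_, ⟨_, ((P3_mem h).1 hX).2.1, rfl⟩, ?_⟩
      change (LinearMap.inr F V V' ∘ₗ LinearMap.id ∘ₗ LinearMap.snd F V V') ∘ₗ X ∘ₗ
        (LinearMap.inl F V V' ∘ₗ q ∘ₗ LinearMap.fst F V V') = _
      rfl
    · change (LinearMap.inr F V V' ∘ₗ LinearMap.id ∘ₗ LinearMap.snd F V V') ∘ₗ
        (LinearMap.inr F V V' ∘ₗ x ∘ₗ LinearMap.fst F V V') ∘ₗ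
        (LinearMap.inl F V V' ∘ₗ q ∘ₗ LinearMap.fst F V V') = _
      have hx' : ∀ v, x (q v) = x v := fun v => LinearMap.congr_fun (hB x hx).2 v
      ext <;> simp [hx']
  have e22 : Module.finrank F (LinearMap.range (corner (F := F) (π P) (π P))) =
      rdim (nul s' D D) D := by
    refine P3_corner hπ hker (LinearMap.inr F V V') (LinearMap.snd F V V') _ _ P P
      (fun x hx => P3_mem22 h hx) (fun x hx => P3_nul22 h hx) (fun X hX => ?_) (fun x hx => ?_)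
    · exact ⟨_, ((P3_mem h).1 hX).2.2.2, rfl⟩
    · change (LinearMap.inr F V V' ∘ₗ LinearMap.id ∘ₗ LinearMap.snd F V V') ∘ₗ
        (LinearMap.inr F V V' ∘ₗ x ∘ₗ LinearMap.snd F V V') ∘ₗ
        (LinearMap.inr F V V' ∘ₗ LinearMap.id ∘ₗ LinearMap.snd F V V') = _
      ext <;> simp
  have e11 : Module.finrank F (LinearMap.range (corner (F := F) (π Q') (π Q'))) =
      rdim (nul s A A) (A.map (conj q)) := by
    have hA : ∀ x ∈ A.map (conj q), x ∈ A ∧ q ∘ₗ x ∘ₗ q = x := by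
      rintro _ ⟨y, hy, rfl⟩
      refine ⟨h.AA _ hq _ (h.AA _ hy _ hq), ?_⟩
      change q ∘ₗ (q ∘ₗ y ∘ₗ q) ∘ₗ q = q ∘ₗ y ∘ₗ q
      apply LinearMap.ext
      intro v
      simp [hqv]
    refine P3_corner hπ hker (LinearMap.inl F V V') (LinearMap.fst F V V') _ _ Q' Q'
      (fun x hx => P3_mem11 h (hA x hx).1) (fun x hx => P3_nul11 h (hA x hx).1)
      (fun X hX => ?_) (fun x hx => ?_)
    · exact ⟨_, ⟨_, ((P3_mem h).1 hX).1, rfl⟩, rfl⟩
    · change (LinearMap.inl F V V' ∘ₗ q ∘ₗ LinearMap.fst F V V') ∘ₗ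
        (LinearMap.inl F V V' ∘ₗ x ∘ₗ LinearMap.fst F V V') ∘ₗ
        (LinearMap.inl F V V' ∘ₗ q ∘ₗ LinearMap.fst F V V') = _
      have hx' : ∀ v, q (x (q v)) = x v := fun v => LinearMap.congr_fun (hA x hx).2 v
      ext <;> simp [hx']
  rw [e21, e22, e11] at h1
  exact h1

end

end Pool.Agent.Helper34.ZP
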