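import Mathlib
import Pool.Agent.Helper11.Iso.Projector
import Pool.Agent.Helper10.Retract
import Pool.Agent.Helper34.ZP.Lin0

/-!
# The zero-one law for all powers: definitions
-/

universe u v w t

open CategoryTheory TensorProduct

namespace Pool.Agent.Helper34.ZP

open Pool.Agent.Helper10 Pool.Agent.Helper11.Iso SmProjVar SPre


variable {k : Type u} [Field k] {K : Type t} [Field K] {Ω : Type v} [Field Ω] [Algebra K Ω]
  (P : SPre.{u, v, w, t} k K Ω)

/-- the linear maps `H(X) → H(Y)` induced by algebraic correspondences -/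
def Mor (X Y : SmProjVar k) : Submodule Ω (P.H X →ₗ[Ω] P.H Y) where
  carrier := {f | P.IsMap X Y f}
  add_mem' := fun ha hb => ha.add hb
  zero_mem' := ⟨0, zero_mem _, fun x y => by
    rw [mul_zero, zero_mul, map_zero, LinearMap.zero_apply, zero_mul, map_zero]⟩
  smul_mem' := fun a _ h => h.smul a

lemma mem_Mor {X Y : SmProjVar k} {f : P.H X →ₗ[Ω] P.H Y} : f ∈ Mor P X Y ↔ P.IsMap X Y f :=
  Iff.rfl

/-- the numerically trivial algebraic maps -/
noncomputable def Nul (X Y : SmProjVar k) : Submodule Ω (P.H X →ₗ[Ω] P.H Y) :=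
  nul (par P X) (Mor P X Y) (Mor P Y X)

/-- the numerically trivial classes -/
def radS (X : SmProjVar k) : Submodule Ω (P.H X) where
  carrier := {x | P.rad X x}
  add_mem' := by
    rintro x y ⟨hx, h⟩ ⟨hy, h'⟩
    exact ⟨add_mem hx hy, fun a ha => by rw [add_mul, map_add, h a ha, h' a ha, add_zero]⟩
  zero_mem' := ⟨zero_mem _, fun a _ => by rw [zero_mul, map_zero]⟩
  smul_mem' := by
    rintro c x ⟨hx, h⟩
    exact ⟨Submodule.smul_mem _ c hx, fun a ha => by
      rw [smul_mul_assoc, map_smul, h a ha, smul_zero]⟩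

lemma mem_radS {X : SmProjVar k} {x : P.H X} : x ∈ radS P X ↔ P.rad X x := Iff.rfl

/-- the dimension of the space of algebraic classes -/
noncomputable def hr (X : SmProjVar k) : ℕ := Module.finrank Ω (P.alg X)

/-- the dimension of the space of algebraic classes modulo numerical equivalence -/
noncomputable def nr (X : SmProjVar k) : ℕ := rdim (radS P X) (P.alg X)

/-- the rank of `φ` on the algebraic classes on `U` modulo numerical equivalence -/
noncomputable def rho {U : SmProjVar k} (φ : P.H U →ₗ[Ω] P.H U) : ℕ :=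
  rdim (radS P U) ((P.alg U).map φ)

/-- the classes `T y` for algebraic maps `T : H(V) → H(Y)` -/
def cyc {V : SmProjVar k} (y : P.H V) (Y : SmProjVar k) : Submodule Ω (P.H Y) :=
  (Mor P V Y).map (LinearMap.applyₗ y)

lemma ext_bilin (X Y : SmProjVar k) : ∃ m : P.H X →ₗ[Ω] P.H Y →ₗ[Ω] P.H (X.prod Y),
    ∀ x y, m x y = P.ext X Y x y :=
  ⟨LinearMap.mk₂ Ω (P.ext X Y)
    (fun a b c => by unfold SPre.ext; rw [map_add (P.pull _), add_mul])
    (fun a b c => by unfold SPre.ext; rw [map_smul (P.pull _), smul_mul_assoc])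
    (fun a b c => by unfold SPre.ext; rw [map_add (P.pull _), mul_add])
    (fun a b c => by unfold SPre.ext; rw [map_smul (P.pull _), mul_smul_comm]), fun _ _ => rfl⟩

/-- the external product `H(X) ⊗ H(Y) → H(X × Y)` -/
noncomputable def kunL (X Y : SmProjVar k) : P.H X ⊗[Ω] P.H Y →ₗ[Ω] P.H (X.prod Y) :=
  TensorProduct.lift (ext_bilin P X Y).choose

lemma kunL_tmul (X Y : SmProjVar k) (x : P.H X) (y : P.H Y) :
    kunL P X Y (x ⊗ₜ y) = P.ext X Y x y := by
  rw [kunL, TensorProduct.lift.tmul, (ext_bilin P X Y).choose_spec]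

lemma kunL_injective (X Y : SmProjVar k) : Function.Injective (kunL P X Y) := by
  let Φ : P.H X ⊗[Ω] P.H Y →ₗ[Ω] (P.H Y →ₗ[Ω] P.H X) :=
    (dualTensorHom Ω (P.H Y) (P.H X)) ∘ₗ (TensorProduct.map (P.toDual Y) LinearMap.id) ∘ₗ
      (TensorProduct.comm Ω (P.H X) (P.H Y)).toLinearMap
  have hΦ : ∀ t c, Φ t c = P.contr X Y c (kunL P X Y t) := by
    intro t c
    induction t using TensorProduct.induction_on with
    | zero => rw [map_zero, map_zero, map_zero, LinearMap.zero_apply]
    | tmul x y =>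
      rw [kunL_tmul, contr_ext]
      change dualTensorHom Ω (P.H Y) (P.H X) (P.toDual Y y ⊗ₜ[Ω] x) c = _
      rw [dualTensorHom_apply, toDual_apply]
    | add a b ha hb => rw [map_add, map_add, map_add, LinearMap.add_apply, ha, hb]
  have hinj : Function.Injective Φ := by
    have h1 : Function.Injective (dualTensorHom Ω (P.H Y) (P.H X)) :=
      (dualTensorHomEquiv Ω (P.H Y) (P.H X)).injective
    have h2 : Function.Injective (TensorProduct.map (P.toDual Y) (LinearMap.id (R := Ω)
        (M := P.H X))) :=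
      Module.Flat.rTensor_preserves_injective_linearMap _ (P.toDual_bijective Y).1
    exact h1.comp (h2.comp (TensorProduct.comm Ω (P.H X) (P.H Y)).injective)
  intro t t' h
  refine hinj (LinearMap.ext fun c => ?_)
  rw [hΦ, hΦ, h]

lemma kunL_surjective (X Y : SmProjVar k) : Function.Surjective (kunL P X Y) := by
  rw [← LinearMap.range_eq_top, eq_top_iff, ← P.span_ext X Y, Submodule.span_le]
  rintro _ ⟨x, y, rfl⟩
  exact ⟨x ⊗ₜ y, kunL_tmul P X Y x y⟩

/-- the external product as a linear equivalence -/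
noncomputable def kun (X Y : SmProjVar k) : P.H X ⊗[Ω] P.H Y ≃ₗ[Ω] P.H (X.prod Y) :=
  LinearEquiv.ofBijective (kunL P X Y) ⟨kunL_injective P X Y, kunL_surjective P X Y⟩

lemma kun_tmul (X Y : SmProjVar k) (x : P.H X) (y : P.H Y) :
    kun P X Y (x ⊗ₜ y) = P.ext X Y x y := kunL_tmul P X Y x y

lemma kun_symm_ext (X Y : SmProjVar k) (x : P.H X) (y : P.H Y) :
    (kun P X Y).symm (P.ext X Y x y) = x ⊗ₜ y := by
  rw [LinearEquiv.symm_apply_eq, kun_tmul]

variable {P}

/-- the external product `f ⊗ g` of linear maps -/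
noncomputable def tmap {X Y X' Y' : SmProjVar k} (f : P.H X →ₗ[Ω] P.H X')
    (g : P.H Y →ₗ[Ω] P.H Y') : P.H (X.prod Y) →ₗ[Ω] P.H (X'.prod Y') :=
  (kun P X' Y').toLinearMap ∘ₗ TensorProduct.map f g ∘ₗ (kun P X Y).symm.toLinearMap

lemma tmap_ext {X Y X' Y' : SmProjVar k} (f : P.H X →ₗ[Ω] P.H X') (g : P.H Y →ₗ[Ω] P.H Y')
    (x : P.H X) (y : P.H Y) :
    tmap f g (P.ext X Y x y) = P.ext X' Y' (f x) (g y) := by
  rw [tmap, LinearMap.comp_apply, LinearMap.comp_apply, LinearEquiv.coe_coe, LinearEquiv.coe_coe,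
    kun_symm_ext, TensorProduct.map_tmul, kun_tmul]

/-- two linear maps on `H(X × Y)` are equal if they agree on external products -/
lemma hom_ext_ext {X Y : SmProjVar k} {M : Type*} [AddCommGroup M] [Module Ω M]
    {f g : P.H (X.prod Y) →ₗ[Ω] M} (h : ∀ x y, f (P.ext X Y x y) = g (P.ext X Y x y)) :
    f = g := by
  refine LinearMap.ext fun z => ?_
  obtain ⟨t, rfl⟩ := kunL_surjective P X Y z
  induction t using TensorProduct.induction_on with
  | zero => rw [map_zero, map_zero, map_zero]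
  | tmul x y => rw [kunL_tmul, h]
  | add a b ha hb => rw [map_add, map_add, map_add, ha, hb]

/-- the adjoint for the Poincaré duality pairings -/
noncomputable def adj {X Y : SmProjVar k} (f : P.H X →ₗ[Ω] P.H Y) : P.H Y →ₗ[Ω] P.H X where
  toFun y := P.rep X ((P.toDual Y y) ∘ₗ f)
  map_add' a b := by rw [map_add, LinearMap.add_comp, map_add]
  map_smul' c a := by rw [map_smul, LinearMap.smul_comp, map_smul, RingHom.id_apply]

lemma tr_adj {X Y : SmProjVar k} (f : P.H X →ₗ[Ω] P.H Y) (y : P.H Y) (x : P.H X) :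
    P.tr X (adj f y * x) = P.tr Y (y * f x) :=
  P.tr_rep X _ x

variable (P) in
/-- the operator defined by a class, as a linear map -/
noncomputable def opL (X Y : SmProjVar k) : P.H (X.prod Y) →ₗ[Ω] (P.H X →ₗ[Ω] P.H Y) where
  toFun c := op c
  map_add' := op_add
  map_smul' := op_smul

lemma opL_apply {X Y : SmProjVar k} (c : P.H (X.prod Y)) : opL P X Y c = op c := rfl

end Pool.Agent.Helper34.ZP
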