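import Mathlib
import Pool.Agent.Helper34.ZP.Defs

/-!
# Algebraic maps and classes of cycles on products
-/

universe u v w t

open CategoryTheory TensorProduct

namespace Pool.Agent.Helper34.ZP

open Pool.Agent.Helper10 Pool.Agent.Helper11.Iso SmProjVar SPre

variable {k : Type u} [Field k] {K : Type t} [Field K] {Ω : Type v} [Field Ω] [Algebra K Ω]
  {P : SPre.{u, v, w, t} k K Ω}

/-- linear forms are represented by multiplication on the right -/
lemma G1_exists_rep (X : SmProjVar k) (l : P.H X →ₗ[Ω] Ω) :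
    ∃ a, ∀ x, P.tr X (x * a) = l x := by
  refine ⟨par P X (P.rep X l), fun x => ?_⟩
  rw [tr_par, par_par]
  exact P.tr_rep X l x

lemma G1_finrank_prod (X Y : SmProjVar k) : Module.finrank Ω (P.H (X.prod Y)) =
    Module.finrank Ω (P.H X →ₗ[Ω] P.H Y) := by
  rw [← (kun P X Y).finrank_eq, Module.finrank_tensorProduct, Module.finrank_linearMap]

theorem G1_opL_surjective (X Y : SmProjVar k) : Function.Surjective (opL P X Y) := by
  intro f
  let b := Module.finBasis Ω (P.H X)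
  choose a ha using fun i => G1_exists_rep X (b.coord i)
  refine ⟨∑ i, P.ext X Y (a i) (f (b i)), ?_⟩
  rw [map_sum]
  refine b.ext fun j => ?_
  rw [LinearMap.sum_apply]
  have h1 : ∀ i, opL P X Y (P.ext X Y (a i) (f (b i))) (b j) = (b.coord i (b j)) • f (b i) := by
    intro i
    rw [opL_apply, op_ext, ha]
  rw [Finset.sum_congr rfl fun i _ => h1 i, Finset.sum_eq_single j]
  · rw [b.coord_apply, b.repr_self, Finsupp.single_eq_same, one_smul]
  · intro i _ hij
    rw [b.coord_apply, b.repr_self, Finsupp.single_eq_of_ne hij, zero_smul]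
  · intro h
    exact absurd (Finset.mem_univ j) h

theorem opL_bijective (X Y : SmProjVar k) : Function.Bijective (opL P X Y) :=
  ⟨(LinearMap.injective_iff_surjective_of_finrank_eq_finrank (G1_finrank_prod X Y)).mpr
    (G1_opL_surjective X Y), G1_opL_surjective X Y⟩

theorem map_opL_alg (X Y : SmProjVar k) : (P.alg (X.prod Y)).map (opL P X Y) = Mor P X Y := by
  ext f
  constructor
  · rintro ⟨c, hc, rfl⟩
    refine ⟨c, hc, fun x y => ?_⟩
    rw [opL_apply, op_apply, tr_pushF]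
  · rintro ⟨c, hc, h⟩
    refine ⟨c, hc, LinearMap.ext fun x => eq_of_tr fun y => ?_⟩
    rw [← h, opL_apply, op_apply, tr_pushF]

/-- the exchange of the factors -/
noncomputable def G1_swp (X Y : SmProjVar k) : (X.prod Y).toOver ⟶ (Y.prod X).toOver :=
  lift (snd X Y) (fst X Y)

lemma G1_swp_swp (X Y : SmProjVar k) : G1_swp X Y ≫ G1_swp Y X = 𝟙 (X.prod Y).toOver := by
  unfold G1_swp
  apply hom_ext
  · rw [Category.assoc, lift_fst, lift_snd, Category.id_comp]
  · rw [Category.assoc, lift_snd, lift_fst, Category.id_comp]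

lemma G1_tr_swp (X Y : SmProjVar k) (w : P.H (X.prod Y)) :
    P.tr _ (P.pull (G1_swp Y X) w) = P.tr _ w := by
  induction w using ext_induction with
  | hext a b _ _ =>
    rw [SPre.ext, map_mul (P.pull _), pull_pull, pull_pull, G1_swp, lift_fst, lift_snd,
      P.tr_snd_fst, P.tr_prod]
  | hzero => rw [map_zero, map_zero, map_zero]
  | hadd x y hx hy => rw [map_add, map_add, map_add, hx, hy]
  | hsmul a x hx => rw [map_smul, map_smul, map_smul, hx]

/-- the trace formula for correspondences between different varieties -/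
theorem G1_trace (X Y : SmProjVar k) (c : P.H (X.prod Y)) (d : P.H (Y.prod X)) :
    LinearMap.trace Ω (P.H X) (op d ∘ₗ op c ∘ₗ par P X) =
      P.tr _ (c * P.pull (G1_swp X Y) d) := by
  induction c using ext_induction with
  | hext a b _ _ =>
    induction d using ext_induction with
    | hext b' a' _ _ =>
      have h1 : op (P.ext Y X b' a') ∘ₗ op (P.ext X Y a b) ∘ₗ par P X =
          (P.tr Y (b * b') • ((P.tr X) ∘ₗ (LinearMap.mulRight Ω a) ∘ₗ par P X)).smulRight a' := by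
        ext x
        rw [LinearMap.comp_apply, LinearMap.comp_apply, op_ext a b, map_smul, op_ext b' a',
          smul_smul, LinearMap.smulRight_apply, LinearMap.smul_apply, smul_eq_mul, mul_comm]
        rfl
      rw [h1, LinearMap.trace_smulRight, LinearMap.smul_apply, smul_eq_mul]
      have h2 : P.pull (G1_swp X Y) (P.ext Y X b' a') =
          P.pull (snd X Y) b' * P.pull (fst X Y) a' := by
        rw [SPre.ext, map_mul (P.pull _), pull_pull, pull_pull, G1_swp, lift_fst, lift_snd]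
      have h3 : P.ext X Y a b * (P.pull (snd X Y) b' * P.pull (fst X Y) a') =
          P.pull (fst X Y) a * P.pull (snd X Y) (b * b') * P.pull (fst X Y) a' := by
        rw [SPre.ext, map_mul (P.pull (snd X Y))]
        noncomm_ring
      rw [h2, h3, tr_mid, tr_par a a', mul_comm]
      rfl
    | hzero => rw [op_zero, LinearMap.zero_comp, map_zero, map_zero, mul_zero, map_zero]
    | hadd x y hx hy =>
      rw [Pool.Agent.Helper11.Iso.op_add, LinearMap.add_comp, map_add, map_add, mul_add, map_add, hx, hy]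
    | hsmul r x hx =>
      rw [op_smul, LinearMap.smul_comp, map_smul, map_smul, mul_smul_comm, map_smul, hx]
  | hzero =>
    rw [op_zero, LinearMap.zero_comp, LinearMap.comp_zero, map_zero, zero_mul, map_zero]
  | hadd x y hx hy =>
    rw [Pool.Agent.Helper11.Iso.op_add, LinearMap.add_comp, LinearMap.comp_add, map_add, add_mul, map_add, hx, hy]
  | hsmul r x hx =>
    rw [op_smul, LinearMap.smul_comp, LinearMap.comp_smul, map_smul, smul_mul_assoc, map_smul, hx]

/-- by the trace formula -/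
theorem map_opL_radS (X Y : SmProjVar k) :
    (radS P (X.prod Y)).map (opL P X Y) = Nul P X Y := by
  ext f
  constructor
  · rintro ⟨c, ⟨hc, h⟩, rfl⟩
    refine ⟨?_, fun g hg => ?_⟩
    · rw [← map_opL_alg]
      exact ⟨c, hc, rfl⟩
    · rw [← map_opL_alg] at hg
      obtain ⟨d, hd, rfl⟩ := hg
      exact (G1_trace X Y c d).trans (h _ (P.pull_mem _ _ hd))
  · rintro ⟨hf, h⟩
    rw [← map_opL_alg] at hf
    obtain ⟨c, hc, rfl⟩ := hf
    refine ⟨c, ⟨hc, fun a ha => ?_⟩, rfl⟩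
    have h1 := h (op (P.pull (G1_swp Y X) a)) (by
      rw [← map_opL_alg]
      exact ⟨_, P.pull_mem _ _ ha, rfl⟩)
    have h2 := G1_trace X Y c (P.pull (G1_swp Y X) a)
    rw [pull_pull, G1_swp_swp, pull_id_apply] at h2
    rw [← h2]
    exact h1

theorem rdim_map_opL (X Y : SmProjVar k) (M : Submodule Ω (P.H (X.prod Y))) :
    rdim (Nul P X Y) (M.map (opL P X Y)) = rdim (radS P (X.prod Y)) M := by
  have hinj := (opL_bijective (P := P) X Y).1
  unfold rdim
  rw [← map_opL_radS, ← Submodule.map_inf _ hinj,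
    ← (Submodule.equivMapOfInjective _ hinj M).finrank_eq,
    ← (Submodule.equivMapOfInjective _ hinj (M ⊓ radS P (X.prod Y))).finrank_eq]

theorem finrank_Mor (X Y : SmProjVar k) : Module.finrank Ω (Mor P X Y) = hr P (X.prod Y) := by
  rw [← map_opL_alg,
    ← (Submodule.equivMapOfInjective _ (opL_bijective (P := P) X Y).1 _).finrank_eq]
  rfl

theorem rdim_Mor (X Y : SmProjVar k) : rdim (Nul P X Y) (Mor P X Y) = nr P (X.prod Y) := by
  rw [← map_opL_alg, rdim_map_opL]
  rfl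

lemma G1_par_comm {X Y : SmProjVar k} {f : P.H X →ₗ[Ω] P.H Y} (hf : f ∈ Mor P X Y) :
    par P Y ∘ₗ f = f ∘ₗ par P X := by
  rw [← map_opL_alg] at hf
  obtain ⟨c, hc, rfl⟩ := hf
  refine LinearMap.ext fun x => ?_
  exact (op_par (P.alg_le_ev _ hc) x).symm

lemma G1_par_par (X : SmProjVar k) : par P X ∘ₗ par P X = LinearMap.id :=
  LinearMap.ext fun x => par_par x

lemma G1_id_mem (X : SmProjVar k) : (LinearMap.id : P.H X →ₗ[Ω] P.H X) ∈ Mor P X X :=
  (P.corrAlg X).one_mem

lemma G1_comp_mem {X Y Z : SmProjVar k} {f : P.H X →ₗ[Ω] P.H Y} {g : P.H Y →ₗ[Ω] P.H Z}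
    (hf : f ∈ Mor P X Y) (hg : g ∈ Mor P Y Z) : g ∘ₗ f ∈ Mor P X Z :=
  IsMap.comp hf hg

theorem isCat (X Y : SmProjVar k) : IsCat (par P X) (par P Y) (Mor P X X) (Mor P X Y) (Mor P Y X)
    (Mor P Y Y) where
  ss := G1_par_par X
  ss' := G1_par_par Y
  idA := G1_id_mem X
  idD := G1_id_mem Y
  AA _ hx _ hy := G1_comp_mem hy hx
  BA _ hx _ hy := G1_comp_mem hy hx
  AC _ hx _ hy := G1_comp_mem hy hx
  DB _ hx _ hy := G1_comp_mem hy hx
  CD _ hx _ hy := G1_comp_mem hy hx
  DD _ hx _ hy := G1_comp_mem hy hx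
  CB _ hx _ hy := G1_comp_mem hy hx
  BC _ hx _ hy := G1_comp_mem hy hx
  sA _ hx := G1_par_comm hx
  sB _ hx := G1_par_comm hx
  sC _ hx := G1_par_comm hx
  sD _ hx := G1_par_comm hx

/-- numerically trivial maps are an ideal -/
theorem comp_Nul {X Y Z : SmProjVar k} {f : P.H X →ₗ[Ω] P.H Y} {g : P.H Y →ₗ[Ω] P.H Z}
    (hf : f ∈ Nul P X Y) (hg : g ∈ Mor P Y Z) : g ∘ₗ f ∈ Nul P X Z := by
  refine ⟨G1_comp_mem hf.1 hg, fun y hy => ?_⟩
  have h := hf.2 (y ∘ₗ g) (G1_comp_mem hg hy)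
  rw [← h, LinearMap.comp_assoc, LinearMap.comp_assoc]

theorem Nul_comp {X Y Z : SmProjVar k} {f : P.H X →ₗ[Ω] P.H Y} {g : P.H Y →ₗ[Ω] P.H Z}
    (hf : f ∈ Mor P X Y) (hg : g ∈ Nul P Y Z) : g ∘ₗ f ∈ Nul P X Z := by
  refine ⟨G1_comp_mem hf hg.1, fun y hy => ?_⟩
  have h := hg.2 (f ∘ₗ y) (G1_comp_mem hy hf)
  have h1 : y ∘ₗ (g ∘ₗ f) ∘ₗ par P X = (y ∘ₗ g) ∘ₗ (par P Y ∘ₗ f) := by
    rw [G1_par_comm hf, LinearMap.comp_assoc, LinearMap.comp_assoc]
  have h2 : (f ∘ₗ y) ∘ₗ g ∘ₗ par P Y = f ∘ₗ ((y ∘ₗ g) ∘ₗ par P Y) := by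
    rw [LinearMap.comp_assoc, LinearMap.comp_assoc]
  rw [h1, ← LinearMap.comp_assoc, LinearMap.trace_comp_comm', ← h2]
  exact h

/-- the algebra of algebraic operators, as in the abstract pieces (P2) -/
theorem nul_corrAlg (X : SmProjVar k) : nul (par P X) (Subalgebra.toSubmodule (P.corrAlg X))
    (Subalgebra.toSubmodule (P.corrAlg X)) = Nul P X X := rfl

theorem adj_mem_Mor {X Y : SmProjVar k} {f : P.H X →ₗ[Ω] P.H Y} (hf : f ∈ Mor P X Y) :
    adj f ∈ Mor P Y X := by
  rw [← map_opL_alg] at hf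
  obtain ⟨c, hc, rfl⟩ := hf
  refine ⟨P.pull (G1_swp Y X) c, P.pull_mem _ _ hc, fun y x => ?_⟩
  have h1 : P.tr Y (y * opL P X Y c x) =
      P.tr _ (P.pull (snd X Y) y * (P.pull (fst X Y) x * c)) := by
    rw [opL_apply, op_apply, Pool.Agent.Helper11.tr_mul_pushF]
  have e1 : G1_swp Y X ≫ snd X Y = fst Y X := lift_snd _ _
  have e2 : G1_swp Y X ≫ fst X Y = snd Y X := lift_fst _ _
  have h2 : P.pull (G1_swp Y X) (P.pull (snd X Y) y * (P.pull (fst X Y) x * c)) =
      P.pull (fst Y X) y * (P.pull (snd Y X) x * P.pull (G1_swp Y X) c) := by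
    rw [map_mul (P.pull _), map_mul (P.pull _), pull_pull, pull_pull, e1, e2]
  rw [tr_adj, h1, ← G1_tr_swp X Y, h2, mul_assoc, P.ev_comm _ (P.pull (G1_swp Y X) c) _
    (P.pull_ev _ _ (P.alg_le_ev _ hc))]

end Pool.Agent.Helper34.ZP
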