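import Mathlib
import Pool.Agent.Helper34.ZP.Defs

/-!
# The zero-one law for all powers: external products of maps, adjoints
-/

universe u v w t

open CategoryTheory TensorProduct

namespace Pool.Agent.Helper34.ZP

open Pool.Agent.Helper10 Pool.Agent.Helper11.Iso SmProjVar SPre

variable {k : Type u} [Field k] {K : Type t} [Field K] {Ω : Type v} [Field Ω] [Algebra K Ω]
  {P : SPre.{u, v, w, t} k K Ω}

theorem finrank_prod (X Y : SmProjVar k) : Module.finrank Ω (P.H (X.prod Y)) =
    Module.finrank Ω (P.H X) * Module.finrank Ω (P.H Y) := by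
  rw [← (kun P X Y).finrank_eq, Module.finrank_tensorProduct]

theorem finrank_selfProd (X : SmProjVar k) (l : ℕ) : Module.finrank Ω (P.H (X.selfProd l)) =
    Module.finrank Ω (P.H X) ^ (l + 1) := by
  induction l with
  | zero => rw [zero_add, pow_one]; rfl
  | succ l ih => rw [pow_succ, ← ih]; exact finrank_prod (X.selfProd l) X

theorem tmap_comp {X Y X' Y' X'' Y'' : SmProjVar k} (f : P.H X →ₗ[Ω] P.H X')
    (g : P.H Y →ₗ[Ω] P.H Y') (f' : P.H X' →ₗ[Ω] P.H X'') (g' : P.H Y' →ₗ[Ω] P.H Y'') :
    tmap f' g' ∘ₗ tmap f g = tmap (f' ∘ₗ f) (g' ∘ₗ g) :=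
  hom_ext_ext fun x y => by
    rw [LinearMap.comp_apply, tmap_ext, tmap_ext, tmap_ext]; rfl

theorem tmap_id (X Y : SmProjVar k) :
    tmap (LinearMap.id : P.H X →ₗ[Ω] P.H X) (LinearMap.id : P.H Y →ₗ[Ω] P.H Y) =
      LinearMap.id :=
  hom_ext_ext fun x y => by rw [tmap_ext]; rfl

/-- the rank of the tensor product of two linear maps -/
lemma g2_finrank_range_map {F A B A' B' : Type*} [Field F] [AddCommGroup A] [Module F A]
    [AddCommGroup B] [Module F B] [AddCommGroup A'] [Module F A'] [AddCommGroup B'] [Module F B']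
    (f : A →ₗ[F] A') (g : B →ₗ[F] B') :
    Module.finrank F (LinearMap.range (TensorProduct.map f g)) =
      Module.finrank F (LinearMap.range f) * Module.finrank F (LinearMap.range g) := by
  have h1 : TensorProduct.map f g =
      TensorProduct.map (LinearMap.range f).subtype (LinearMap.range g).subtype ∘ₗ
        TensorProduct.map f.rangeRestrict g.rangeRestrict := by
    rw [← TensorProduct.map_comp]
    rfl
  have h2 : Function.Surjective (TensorProduct.map f.rangeRestrict g.rangeRestrict) :=
    TensorProduct.map_surjective f.surjective_rangeRestrict g.surjective_rangeRestrict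
  have h3 : Function.Injective
      (TensorProduct.map (LinearMap.range f).subtype (LinearMap.range g).subtype) := by
    have e : TensorProduct.map (LinearMap.range f).subtype (LinearMap.range g).subtype =
        (LinearMap.rTensor B' (LinearMap.range f).subtype) ∘ₗ
          (LinearMap.lTensor (LinearMap.range f) (LinearMap.range g).subtype) := by
      rw [LinearMap.rTensor, LinearMap.lTensor, ← TensorProduct.map_comp]
      rfl
    rw [e, LinearMap.coe_comp]
    exact (Module.Flat.rTensor_preserves_injective_linearMap _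
      (LinearMap.range f).injective_subtype).comp
      (Module.Flat.lTensor_preserves_injective_linearMap _
      (LinearMap.range g).injective_subtype)
  rw [h1, LinearMap.range_comp_of_range_eq_top _ (LinearMap.range_eq_top.mpr h2),
    LinearMap.finrank_range_of_inj h3, Module.finrank_tensorProduct]

theorem finrank_range_tmap {X Y X' Y' : SmProjVar k} (f : P.H X →ₗ[Ω] P.H X')
    (g : P.H Y →ₗ[Ω] P.H Y') : Module.finrank Ω (LinearMap.range (tmap f g)) =
      Module.finrank Ω (LinearMap.range f) * Module.finrank Ω (LinearMap.range g) := by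
  rw [← g2_finrank_range_map, tmap, LinearMap.range_comp, LinearMap.range_comp_of_range_eq_top _
    (LinearMap.range_eq_top.mpr (kun P X Y).symm.surjective)]
  exact (LinearEquiv.submoduleMap (kun P X' Y') _).symm.finrank_eq

theorem finrank_range_adj {X Y : SmProjVar k} (f : P.H X →ₗ[Ω] P.H Y) :
    Module.finrank Ω (LinearMap.range (adj f)) = Module.finrank Ω (LinearMap.range f) := by
  have h1 : adj f = (P.rep X).toLinearMap ∘ₗ f.dualMap ∘ₗ P.toDual Y := rfl
  rw [h1, LinearMap.range_comp, LinearMap.range_comp_of_range_eq_top _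
    (LinearMap.range_eq_top.mpr (P.toDual_bijective Y).2),
    ← LinearMap.finrank_range_dualMap_eq_finrank_range f]
  exact (LinearEquiv.submoduleMap (P.rep X) _).symm.finrank_eq

theorem adj_comp {X Y Z : SmProjVar k} (f : P.H X →ₗ[Ω] P.H Y) (g : P.H Y →ₗ[Ω] P.H Z) :
    adj (g ∘ₗ f) = adj f ∘ₗ adj g :=
  LinearMap.ext fun z => eq_of_tr fun x => by
    rw [tr_adj, LinearMap.comp_apply, LinearMap.comp_apply, tr_adj, tr_adj]

theorem adj_id (X : SmProjVar k) : adj (LinearMap.id : P.H X →ₗ[Ω] P.H X) = LinearMap.id :=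
  LinearMap.ext fun z => eq_of_tr fun x => by
    rw [tr_adj, LinearMap.id_apply, LinearMap.id_apply]

/-- the operator of `(f ⊗ g)(c)` -/
theorem op_tmap {X Y X' Y' : SmProjVar k} (f : P.H X →ₗ[Ω] P.H X') (g : P.H Y →ₗ[Ω] P.H Y')
    (c : P.H (X.prod Y)) : op (tmap f g c) = g ∘ₗ op c ∘ₗ adj f := by
  have h : (opL P X' Y') ∘ₗ tmap f g =
      (LinearMap.llcomp Ω _ _ _ g) ∘ₗ (LinearMap.lcomp Ω (P.H Y) (adj f)) ∘ₗ opL P X Y := by
    refine hom_ext_ext fun a b => LinearMap.ext fun x => ?_
    rw [LinearMap.comp_apply, tmap_ext, opL_apply, op_ext]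
    change _ = g (op (P.ext X Y a b) (adj f x))
    rw [op_ext, map_smul, tr_adj]
  exact congrArg (fun l => l c) h

end Pool.Agent.Helper34.ZP
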