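import Mathlib
import Pool.Agent.Helper34.ZP.Defs

/-!
# The zero-one law for all powers: adjoints and external products of algebraic maps
-/

universe u v w t

open CategoryTheory

namespace Pool.Agent.Helper34.ZP

open Pool.Agent.Helper10 Pool.Agent.Helper11 Pool.Agent.Helper11.Iso SmProjVar SPre

variable {k : Type u} [Field k] {K : Type t} [Field K] {Ω : Type v} [Field Ω] [Algebra K Ω]
  {P : SPre.{u, v, w, t} k K Ω}

/-- an algebraic map is the operator of an algebraic class -/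
lemma G2b_exists_op {X Y : SmProjVar k} {f : P.H X →ₗ[Ω] P.H Y} (hf : f ∈ Mor P X Y) :
    ∃ c ∈ P.alg (X.prod Y), f = op c := by
  obtain ⟨c, hc, h⟩ := hf
  refine ⟨c, hc, LinearMap.ext fun x => eq_of_tr fun y => ?_⟩
  rw [op_apply, tr_pushF, h x y]

lemma G2b_op_mem {X Y : SmProjVar k} {c : P.H (X.prod Y)} (hc : c ∈ P.alg (X.prod Y)) :
    op c ∈ Mor P X Y :=
  ⟨c, hc, fun x y => by rw [op_apply, tr_pushF]⟩

/-- the adjoint of the operator of an even class -/
lemma G2b_adj_op {X Y : SmProjVar k} {c : P.H (X.prod Y)} (hc : c ∈ P.ev _) (y : P.H Y) :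
    adj (op c) y = P.pushF (fst X Y) (P.pull (snd X Y) y * c) := by
  refine eq_of_tr fun x => ?_
  rw [tr_adj, op_apply, tr_mul_pushF, tr_pushF, mul_assoc, P.ev_comm _ _ _ hc]

lemma G2b_op_ev {X Y : SmProjVar k} {c : P.H (X.prod Y)} (hc : c ∈ P.ev _) {x : P.H X}
    (hx : x ∈ P.ev X) : op c x ∈ P.ev Y := by
  rw [op_apply]
  exact pushF_ev _ (P.ev_mul_ev _ _ _ (P.pull_ev _ _ hx) hc)

lemma G2b_op_od {X Y : SmProjVar k} {c : P.H (X.prod Y)} (hc : c ∈ P.ev _) {x : P.H X}
    (hx : x ∈ P.od X) : op c x ∈ P.od Y := by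
  rw [op_apply]
  exact pushF_od _ (P.od_mul_ev _ _ _ (P.pull_od _ _ hx) hc)

lemma G2b_adj_ev {X Y : SmProjVar k} {c : P.H (X.prod Y)} (hc : c ∈ P.ev _) {y : P.H Y}
    (hy : y ∈ P.ev Y) : adj (op c) y ∈ P.ev X := by
  rw [G2b_adj_op hc]
  exact pushF_ev _ (P.ev_mul_ev _ _ _ (P.pull_ev _ _ hy) hc)

lemma G2b_adj_od {X Y : SmProjVar k} {c : P.H (X.prod Y)} (hc : c ∈ P.ev _) {y : P.H Y}
    (hy : y ∈ P.od Y) : adj (op c) y ∈ P.od X := by
  rw [G2b_adj_op hc]
  exact pushF_od _ (P.od_mul_ev _ _ _ (P.pull_od _ _ hy) hc)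

/-- (the adjoint is taken on the other side; algebraic maps preserve the parity) -/
theorem adj_adj {X Y : SmProjVar k} {f : P.H X →ₗ[Ω] P.H Y} (hf : f ∈ Mor P X Y) :
    adj (adj f) = f := by
  obtain ⟨c, hc, rfl⟩ := G2b_exists_op hf
  have hce := P.alg_le_ev _ hc
  have hpar : ∀ y, adj (op c) (par P Y y) = par P X (adj (op c) y) := by
    intro y
    obtain ⟨a, ha, b, hb, rfl⟩ := P.exists_decomp Y y
    rw [map_add, map_add, map_add, map_add, par_ev ha, par_od hb, map_neg,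
      par_ev (G2b_adj_ev hce ha), par_od (G2b_adj_od hce hb)]
  refine LinearMap.ext fun x => eq_of_tr fun y => ?_
  rw [tr_adj, tr_par, ← hpar, tr_adj, ← tr_par]

lemma G2b_tr_neg {A B : SmProjVar k} (a a' : P.H A) (b b' : P.H B) (hb : b ∈ P.od B)
    (ha' : a' ∈ P.od A) :
    P.tr _ (P.ext A B a b * P.ext A B a' b') = -(P.tr A (a * a') * P.tr B (b * b')) := by
  have h1 : P.pull (snd A B) b * P.pull (fst A B) a' =
      -(P.pull (fst A B) a' * P.pull (snd A B) b) :=
    P.od_anti _ _ _ (P.pull_od _ _ hb) (P.pull_od _ _ ha')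
  have h2 : P.ext A B a b * P.ext A B a' b' =
      P.pull (fst A B) a * (P.pull (snd A B) b * P.pull (fst A B) a') * P.pull (snd A B) b' := by
    unfold SPre.ext; noncomm_ring
  rw [h2, h1, ← P.tr_prod, map_mul (P.pull _), map_mul (P.pull _), ← map_neg]
  congr 1
  noncomm_ring

lemma G2b_tr_pos {A B : SmProjVar k} (a a' : P.H A) (b b' : P.H B) (ha' : a' ∈ P.ev A) :
    P.tr _ (P.ext A B a b * P.ext A B a' b') = P.tr A (a * a') * P.tr B (b * b') := by
  have h1 : P.pull (snd A B) b * P.pull (fst A B) a' = P.pull (fst A B) a' * P.pull (snd A B) b :=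
    (P.ev_comm _ _ _ (P.pull_ev _ _ ha')).symm
  have h2 : P.ext A B a b * P.ext A B a' b' =
      P.pull (fst A B) a * (P.pull (snd A B) b * P.pull (fst A B) a') * P.pull (snd A B) b' := by
    unfold SPre.ext; noncomm_ring
  rw [h2, h1, ← P.tr_prod, map_mul (P.pull _), map_mul (P.pull _)]
  congr 1
  noncomm_ring

lemma G2b_ext_add {A B : SmProjVar k} (a : P.H A) (b b' : P.H B) :
    P.ext A B a (b + b') = P.ext A B a b + P.ext A B a b' := by
  unfold SPre.ext
  rw [map_add (P.pull _), mul_add]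

theorem adj_tmap {X Y X' Y' : SmProjVar k} {f : P.H X →ₗ[Ω] P.H X'} {g : P.H Y →ₗ[Ω] P.H Y'}
    (hf : f ∈ Mor P X X') (hg : g ∈ Mor P Y Y') : adj (tmap f g) = tmap (adj f) (adj g) := by
  obtain ⟨c, hc, rfl⟩ := G2b_exists_op hf
  obtain ⟨d, hd, rfl⟩ := G2b_exists_op hg
  have hce := P.alg_le_ev _ hc
  have hde := P.alg_le_ev _ hd
  have key : ∀ x' y', P.Hom Y' y' → adj (tmap (op c) (op d)) (P.ext X' Y' x' y') =
      tmap (adj (op c)) (adj (op d)) (P.ext X' Y' x' y') := by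
    intro x' y' hy'
    refine eq_of_tr_ext fun a b ha _ => ?_
    rw [tr_adj, tmap_ext, tmap_ext]
    rcases hy' with hy' | hy'
    · rw [tr_ext_mul_ext_ev _ _ _ _ hy', tr_ext_mul_ext_ev _ _ _ _ (G2b_adj_ev hde hy'),
        tr_adj, tr_adj]
    · rcases ha with ha | ha
      · rw [G2b_tr_pos _ _ _ _ (G2b_op_ev hce ha), G2b_tr_pos _ _ _ _ ha, tr_adj, tr_adj]
      · rw [G2b_tr_neg _ _ _ _ hy' (G2b_op_od hce ha),
          G2b_tr_neg _ _ _ _ (G2b_adj_od hde hy') ha, tr_adj, tr_adj]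
  refine hom_ext_ext fun x' y' => ?_
  obtain ⟨y₀, hy₀, y₁, hy₁, rfl⟩ := P.exists_decomp Y' y'
  rw [G2b_ext_add, map_add, map_add, key _ _ (.inl hy₀), key _ _ (.inr hy₁)]

/-- the projection `(X × Y) × (X' × Y') → X × X'` -/
noncomputable def G2b_p (X Y X' Y' : SmProjVar k) :
    ((X.prod Y).prod (X'.prod Y')).toOver ⟶ (X.prod X').toOver :=
  lift (fst (X.prod Y) (X'.prod Y') ≫ fst X Y) (snd (X.prod Y) (X'.prod Y') ≫ fst X' Y')

/-- the projection `(X × Y) × (X' × Y') → Y × Y'` -/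
noncomputable def G2b_q (X Y X' Y' : SmProjVar k) :
    ((X.prod Y).prod (X'.prod Y')).toOver ⟶ (Y.prod Y').toOver :=
  lift (fst (X.prod Y) (X'.prod Y') ≫ snd X Y) (snd (X.prod Y) (X'.prod Y') ≫ snd X' Y')

lemma G2b_pull_p_ext (X Y X' Y' : SmProjVar k) (a : P.H X) (a' : P.H X') :
    P.pull (G2b_p X Y X' Y') (P.ext X X' a a') =
      P.pull (fst (X.prod Y) (X'.prod Y')) (P.pull (fst X Y) a) *
        P.pull (snd (X.prod Y) (X'.prod Y')) (P.pull (fst X' Y') a') := by
  rw [SPre.ext, map_mul (P.pull _), pull_pull, pull_pull, pull_pull, pull_pull, G2b_p, lift_fst,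
    lift_snd]

lemma G2b_pull_q_ext (X Y X' Y' : SmProjVar k) (b : P.H Y) (b' : P.H Y') :
    P.pull (G2b_q X Y X' Y') (P.ext Y Y' b b') =
      P.pull (fst (X.prod Y) (X'.prod Y')) (P.pull (snd X Y) b) *
        P.pull (snd (X.prod Y) (X'.prod Y')) (P.pull (snd X' Y') b') := by
  rw [SPre.ext, map_mul (P.pull _), pull_pull, pull_pull, pull_pull, pull_pull, G2b_q, lift_fst,
    lift_snd]

lemma G2b_ext_smul {A B : SmProjVar k} (s t : Ω) (a : P.H A) (b : P.H B) :
    P.ext A B (s • a) (t • b) = (s * t) • P.ext A B a b := by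
  unfold SPre.ext
  rw [map_smul, map_smul, smul_mul_assoc, mul_smul_comm, smul_smul]

/-- the push-forward of an external product -/
lemma G2b_push (X Y X' Y' : SmProjVar k) (u : P.H (X.prod X')) (v : P.H (Y.prod Y')) :
    P.pushF (snd (X.prod Y) (X'.prod Y')) (P.pull (G2b_p X Y X' Y') u *
      P.pull (G2b_q X Y X' Y') v) =
      P.ext X' Y' (P.pushF (snd X X') u) (P.pushF (snd Y Y') v) := by
  obtain ⟨m, hm⟩ := ext_bilin P X' Y'
  induction u using ext_induction with
  | hext a a' ha ha' =>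
    induction v using ext_induction with
    | hext b b' hb hb' =>
      rw [G2b_pull_p_ext, G2b_pull_q_ext, pushF_snd_ext, pushF_snd_ext, G2b_ext_smul]
      have h0 : P.pull (fst (X.prod Y) (X'.prod Y')) (P.ext X Y a b) *
          P.pull (snd (X.prod Y) (X'.prod Y')) (P.ext X' Y' a' b') =
          P.pull (fst (X.prod Y) (X'.prod Y')) (P.pull (fst X Y) a) *
            (P.pull (fst (X.prod Y) (X'.prod Y')) (P.pull (snd X Y) b) *
            P.pull (snd (X.prod Y) (X'.prod Y')) (P.pull (fst X' Y') a')) *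
            P.pull (snd (X.prod Y) (X'.prod Y')) (P.pull (snd X' Y') b') := by
        unfold SPre.ext
        rw [map_mul (P.pull _), map_mul (P.pull _)]
        noncomm_ring
      have h1 : P.pushF (snd (X.prod Y) (X'.prod Y'))
          (P.pull (fst (X.prod Y) (X'.prod Y')) (P.ext X Y a b) *
            P.pull (snd (X.prod Y) (X'.prod Y')) (P.ext X' Y' a' b')) =
          (P.tr X a * P.tr Y b) • P.ext X' Y' a' b' := by
        have h2 := pushF_snd_ext (P := P) (A := X.prod Y) (B := X'.prod Y') (P.ext X Y a b)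
          (P.ext X' Y' a' b')
        rw [SPre.ext] at h2
        rw [h2, SPre.ext, P.tr_prod]
      rcases P.comm_or _ _ _ (Hom.pull P (fst (X.prod Y) (X'.prod Y')) (Hom.pull P (snd X Y) hb))
        (Hom.pull P (snd (X.prod Y) (X'.prod Y')) (Hom.pull P (fst X' Y') ha')) with h | h
      · rw [h] at h0
        rw [← h1, h0]
        congr 1
        noncomm_ring
      · rw [h] at h0
        have h3 : P.pull (fst (X.prod Y) (X'.prod Y')) (P.pull (fst X Y) a) *
            P.pull (snd (X.prod Y) (X'.prod Y')) (P.pull (fst X' Y') a') *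
            (P.pull (fst (X.prod Y) (X'.prod Y')) (P.pull (snd X Y) b) *
            P.pull (snd (X.prod Y) (X'.prod Y')) (P.pull (snd X' Y') b')) =
            -(P.pull (fst (X.prod Y) (X'.prod Y')) (P.ext X Y a b) *
            P.pull (snd (X.prod Y) (X'.prod Y')) (P.ext X' Y' a' b')) := by
          rw [h0]
          noncomm_ring
        rcases hb with hb | hb
        · have h4 : P.pull (fst (X.prod Y) (X'.prod Y')) (P.pull (snd X Y) b) *
              P.pull (snd (X.prod Y) (X'.prod Y')) (P.pull (fst X' Y') a') =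
              P.pull (snd (X.prod Y) (X'.prod Y')) (P.pull (fst X' Y') a') *
              P.pull (fst (X.prod Y) (X'.prod Y')) (P.pull (snd X Y) b) :=
            P.ev_comm _ _ _ (P.pull_ev _ _ (P.pull_ev _ _ hb))
          rw [h4] at h
          rw [← h1]
          have h5 : P.pull (fst (X.prod Y) (X'.prod Y')) (P.ext X Y a b) *
              P.pull (snd (X.prod Y) (X'.prod Y')) (P.ext X' Y' a' b') =
              P.pull (fst (X.prod Y) (X'.prod Y')) (P.pull (fst X Y) a) *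
              (P.pull (snd (X.prod Y) (X'.prod Y')) (P.pull (fst X' Y') a') *
              P.pull (fst (X.prod Y) (X'.prod Y')) (P.pull (snd X Y) b)) *
              P.pull (snd (X.prod Y) (X'.prod Y')) (P.pull (snd X' Y') b') := by
            rw [h0, ← h]
          rw [h5]
          congr 1
          noncomm_ring
        · rw [h3, map_neg, h1, P.tr_od Y b hb, mul_zero, zero_smul, neg_zero]
    | hzero => rw [map_zero (P.pull _), mul_zero, map_zero, map_zero, ← hm, map_zero]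
    | hadd x y hx hy =>
      rw [map_add (P.pull _), mul_add, map_add, hx, hy, map_add, ← hm, ← hm, ← hm, map_add]
    | hsmul s x hx =>
      rw [map_smul, mul_smul_comm, map_smul, hx, map_smul, ← hm, ← hm, map_smul]
  | hzero =>
    rw [map_zero (P.pull _), zero_mul, map_zero, map_zero, ← hm, map_zero, LinearMap.zero_apply]
  | hadd x y hx hy =>
    rw [map_add (P.pull _), add_mul, map_add, hx, hy, map_add, ← hm, ← hm, ← hm, map_add,
      LinearMap.add_apply]
  | hsmul s x hx =>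
    rw [map_smul, smul_mul_assoc, map_smul, hx, map_smul, ← hm, ← hm, map_smul,
      LinearMap.smul_apply]

lemma G2b_op_prod (X Y X' Y' : SmProjVar k) {c : P.H (X.prod X')} (hc : c ∈ P.ev _)
    (d : P.H (Y.prod Y')) (x : P.H X) (y : P.H Y) :
    op (P.pull (G2b_p X Y X' Y') c * P.pull (G2b_q X Y X' Y') d) (P.ext X Y x y) =
      P.ext X' Y' (op c x) (op d y) := by
  have e1 : G2b_p X Y X' Y' ≫ fst X X' = fst (X.prod Y) (X'.prod Y') ≫ fst X Y := by
    rw [G2b_p, lift_fst]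
  have e2 : G2b_q X Y X' Y' ≫ fst Y Y' = fst (X.prod Y) (X'.prod Y') ≫ snd X Y := by
    rw [G2b_q, lift_fst]
  rw [op_apply, op_apply, op_apply, ← G2b_push, map_mul (P.pull _), map_mul (P.pull _),
    pull_pull, pull_pull, e1, e2, SPre.ext, map_mul (P.pull _), pull_pull, pull_pull]
  congr 1
  have h1 : P.pull (fst (X.prod Y) (X'.prod Y') ≫ snd X Y) y * P.pull (G2b_p X Y X' Y') c =
      P.pull (G2b_p X Y X' Y') c * P.pull (fst (X.prod Y) (X'.prod Y') ≫ snd X Y) y :=
    (P.ev_comm _ _ _ (P.pull_ev _ _ hc)).symm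
  calc _ = P.pull (fst (X.prod Y) (X'.prod Y') ≫ fst X Y) x *
        (P.pull (fst (X.prod Y) (X'.prod Y') ≫ snd X Y) y * P.pull (G2b_p X Y X' Y') c) *
        P.pull (G2b_q X Y X' Y') d := by noncomm_ring
    _ = _ := by rw [h1]; noncomm_ring

theorem tmap_mem_Mor {X Y X' Y' : SmProjVar k} {f : P.H X →ₗ[Ω] P.H X'}
    {g : P.H Y →ₗ[Ω] P.H Y'} (hf : f ∈ Mor P X X') (hg : g ∈ Mor P Y Y') :
    tmap f g ∈ Mor P (X.prod Y) (X'.prod Y') := by
  obtain ⟨c, hc, rfl⟩ := G2b_exists_op hf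
  obtain ⟨d, hd, rfl⟩ := G2b_exists_op hg
  have h : tmap (op c) (op d) = op (P.pull (G2b_p X Y X' Y') c * P.pull (G2b_q X Y X' Y') d) :=
    hom_ext_ext fun x y => by rw [tmap_ext, G2b_op_prod _ _ _ _ (P.alg_le_ev _ hc)]
  rw [h]
  exact G2b_op_mem (P.mul_mem _ _ _ (P.pull_mem _ _ hc) (P.pull_mem _ _ hd))

end Pool.Agent.Helper34.ZP
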