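import Mathlib
import Pool.Agent.Helper34.ZP.Lin0

/-!
# The dimension of the image in a quotient
-/

namespace Pool.Agent.Helper34.ZP

variable {F : Type*} [Field F] {V V' : Type*} [AddCommGroup V] [Module F V]
  [AddCommGroup V'] [Module F V']

/-- `rdim N S` is the dimension of the image of `S` in `V / N` -/
theorem rdim_eq [Module.Finite F V] (N S : Submodule F V) :
    rdim N S = Module.finrank F (S.map N.mkQ) := by
  have h1 := LinearMap.finrank_range_add_finrank_ker (N.mkQ ∘ₗ S.subtype)
  have h2 : LinearMap.range (N.mkQ ∘ₗ S.subtype) = S.map N.mkQ := by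
    rw [LinearMap.range_comp, Submodule.range_subtype]
  have h3 : Module.finrank F (LinearMap.ker (N.mkQ ∘ₗ S.subtype)) =
      Module.finrank F (S ⊓ N : Submodule F V) := by
    have h4 : LinearMap.ker (N.mkQ ∘ₗ S.subtype) = (S ⊓ N).comap S.subtype := by
      ext x
      simp
    rw [h4]
    exact LinearEquiv.finrank_eq (Submodule.comapSubtypeEquivOfLe inf_le_left)
  rw [h2, h3] at h1
  unfold rdim
  omega

theorem rdim_add [Module.Finite F V] (N S : Submodule F V) :
    rdim N S + Module.finrank F (S ⊓ N : Submodule F V) = Module.finrank F S := by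
  have := Submodule.finrank_mono (inf_le_left : S ⊓ N ≤ S)
  unfold rdim
  omega

theorem rdim_le (N S : Submodule F V) : rdim N S ≤ Module.finrank F S := Nat.sub_le _ _

/-- if all elements of `S` are congruent to elements of `S'` modulo `N` -/
theorem rdim_le_of_forall [Module.Finite F V] {N S S' : Submodule F V}
    (h : ∀ x ∈ S, ∃ y ∈ S', x - y ∈ N) : rdim N S ≤ rdim N S' := by
  rw [rdim_eq, rdim_eq]
  refine Submodule.finrank_mono ?_
  rintro _ ⟨x, hx, rfl⟩
  obtain ⟨y, hy, hxy⟩ := h x hx
  refine ⟨y, hy, ?_⟩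
  rw [Submodule.mkQ_apply, Submodule.mkQ_apply, eq_comm, Submodule.Quotient.eq]
  exact hxy

theorem rdim_mono [Module.Finite F V] {N S S' : Submodule F V} (h : S ≤ S') :
    rdim N S ≤ rdim N S' :=
  rdim_le_of_forall fun x hx => ⟨x, h hx, by rw [sub_self]; exact zero_mem _⟩

/-- invariance under injective maps -/
theorem rdim_map_of_injective {f : V →ₗ[F] V'} (hf : Function.Injective f)
    (N S : Submodule F V) : rdim (N.map f) (S.map f) = rdim N S := by
  have h1 : ∀ T : Submodule F V, Module.finrank F (T.map f) = Module.finrank F T := fun T =>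
    (LinearEquiv.finrank_eq (Submodule.equivMapOfInjective f hf T)).symm
  unfold rdim
  rw [← Submodule.map_inf f hf, h1, h1]

/-- a linear map which preserves the null spaces and is onto up to null elements -/
theorem rdim_le_of_map [Module.Finite F V] [Module.Finite F V'] (f : V →ₗ[F] V')
    {N S : Submodule F V} {N' S' : Submodule F V'} (hN : ∀ x ∈ N, x ∈ S → f x ∈ N')
    (hS : ∀ y ∈ S', ∃ x ∈ S, y - f x ∈ N') : rdim N' S' ≤ rdim N S := by
  have h1 : rdim N' S' ≤ rdim N' (S.map f) := rdim_le_of_forall fun y hy => by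
    obtain ⟨x, hx, h⟩ := hS y hy
    exact ⟨f x, ⟨x, hx, rfl⟩, h⟩
  refine h1.trans ?_
  rw [rdim_eq, rdim_eq]
  let g : S →ₗ[F] V' ⧸ N' := N'.mkQ ∘ₗ f ∘ₗ S.subtype
  let h : S →ₗ[F] V ⧸ N := N.mkQ ∘ₗ S.subtype
  have hg : LinearMap.range g = (S.map f).map N'.mkQ := by
    rw [LinearMap.range_comp, LinearMap.range_comp, Submodule.range_subtype]
  have hh : LinearMap.range h = S.map N.mkQ := by
    rw [LinearMap.range_comp, Submodule.range_subtype]
  have hk : LinearMap.ker h ≤ LinearMap.ker g := by
    intro x hx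
    rw [LinearMap.mem_ker] at hx ⊢
    change N.mkQ (x : V) = 0 at hx
    change N'.mkQ (f (x : V)) = 0
    rw [Submodule.mkQ_apply, Submodule.Quotient.mk_eq_zero] at hx ⊢
    exact hN _ hx x.2
  have e1 := LinearMap.finrank_range_add_finrank_ker g
  have e2 := LinearMap.finrank_range_add_finrank_ker h
  have e3 := Submodule.finrank_mono hk
  rw [← hg, ← hh]
  omega

end Pool.Agent.Helper34.ZP
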