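import Mathlib
import Pool.Agent.Helper34.ZP.Rdim
import Pool.Agent.Helper34.ZP.P3
import Pool.Agent.Helper34.ZP.G1
import Pool.Agent.Helper34.ZP.G2
import Pool.Agent.Helper34.ZP.G2b

/-!
# Cauchy-Schwarz for the numerical ranks of products
-/

universe u v w t

open CategoryTheory TensorProduct

namespace Pool.Agent.Helper34.ZP

open Pool.Agent.Helper10 Pool.Agent.Helper11.Iso SmProjVar SPre

variable {k : Type u} [Field k] {K : Type t} [Field K] {Ω : Type v} [Field Ω] [Algebra K Ω]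
  {P : SPre.{u, v, w, t} k K Ω}

lemma rdim_radS_opL (X Y : SmProjVar k) (φ : P.H (X.prod Y) →ₗ[Ω] P.H (X.prod Y)) :
    rdim (Nul P X Y) (((P.alg (X.prod Y)).map φ).map (opL P X Y)) = rho P φ :=
  rdim_map_opL X Y _

theorem rho_sq_le [CharZero Ω] (X Y : SmProjVar k) {e : P.H X →ₗ[Ω] P.H X} (he : e ∈ Mor P X X)
    (hee : e ∘ₗ e = e) :
    rho P (tmap e (LinearMap.id : P.H Y →ₗ[Ω] P.H Y)) ^ 2 ≤
      nr P (Y.prod Y) * rho P (tmap e (adj e)) := by
  have hq : adj e ∘ₗ adj e = adj e := by rw [← adj_comp, hee]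
  have h := cs_cat (isCat (P := P) X Y) (adj_mem_Mor he) hq
  have h1 : (Mor P X Y).map (precomp (adj e)) =
      ((P.alg (X.prod Y)).map (tmap e LinearMap.id)).map (opL P X Y) := by
    rw [← map_opL_alg, ← Submodule.map_comp, ← Submodule.map_comp]
    congr 1
    refine LinearMap.ext fun c => ?_
    change op c ∘ₗ adj e = op (tmap e LinearMap.id c)
    rw [op_tmap, LinearMap.id_comp]
  have h2 : (Mor P X X).map (conj (adj e)) =
      ((P.alg (X.prod X)).map (tmap e (adj e))).map (opL P X X) := by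
    rw [← map_opL_alg, ← Submodule.map_comp, ← Submodule.map_comp]
    congr 1
    refine LinearMap.ext fun c => ?_
    change adj e ∘ₗ op c ∘ₗ adj e = op (tmap e (adj e) c)
    rw [op_tmap]
  rw [h1, h2] at h
  change rdim (Nul P X Y) _ ^ 2 ≤ rdim (Nul P Y Y) _ * rdim (Nul P X X) _ at h
  rwa [rdim_radS_opL, rdim_radS_opL, rdim_Mor] at h

lemma rho_id (X : SmProjVar k) : rho P (LinearMap.id : P.H X →ₗ[Ω] P.H X) = nr P X := by
  unfold rho nr
  rw [Submodule.map_id]

theorem nr_sq_le [CharZero Ω] (X Y : SmProjVar k) :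
    nr P (X.prod Y) ^ 2 ≤ nr P (Y.prod Y) * nr P (X.prod X) := by
  have h := rho_sq_le (P := P) X Y (isMap_id X) (LinearMap.comp_id _)
  rwa [adj_id, tmap_id, tmap_id, rho_id, rho_id] at h

end Pool.Agent.Helper34.ZP
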