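import Mathlib

/-!
# The zero-one law for all powers: numbers
-/

namespace Pool.Agent.Helper34.ZP

open Filter Topology

private lemma P5_pow {x : ℕ → ℕ} {n : ℕ} (h : ∀ j, x j ^ 2 ≤ n * x (j + 1)) (j : ℕ) :
    n * x 0 ^ (2 ^ j) ≤ n ^ (2 ^ j) * x j := by
  induction j with
  | zero => simp
  | succ j ih =>
    rcases Nat.eq_zero_or_pos n with rfl | hn
    · simp
    · have h1 : (n * x 0 ^ (2 ^ j)) ^ 2 ≤ (n ^ (2 ^ j) * x j) ^ 2 := Nat.pow_le_pow_left ih 2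
      have h2 : (n ^ (2 ^ j) * x j) ^ 2 ≤ n ^ (2 ^ (j + 1)) * (n * x (j + 1)) := by
        rw [mul_pow, ← pow_mul, ← pow_succ]
        exact Nat.mul_le_mul_left _ (h j)
      have h3 : (n * x 0 ^ (2 ^ j)) ^ 2 = n * (n * x 0 ^ (2 ^ (j + 1))) := by
        rw [mul_pow, ← pow_mul, ← pow_succ]
        ring
      have h4 : n * (n * x 0 ^ (2 ^ (j + 1))) ≤ n * (n ^ (2 ^ (j + 1)) * x (j + 1)) := by
        rw [← h3]
        refine (h1.trans h2).trans (le_of_eq ?_)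
        ring
      exact Nat.le_of_mul_le_mul_left h4 hn

/-- for the tensor power trick -/
theorem le_of_doubling {x : ℕ → ℕ} {n r D : ℕ} (hn : 1 ≤ n) (h : ∀ j, x j ^ 2 ≤ n * x (j + 1))
    (h' : ∀ j, x j ≤ r ^ (2 ^ j) * D) : x 0 ≤ r * n := by
  by_contra hlt
  rw [not_le] at hlt
  have h1 : ∀ j, x 0 ^ (2 ^ j) ≤ (r * n) ^ (2 ^ j) * D := by
    intro j
    have h2 := (P5_pow h j).trans (Nat.mul_le_mul_left _ (h' j))
    calc x 0 ^ (2 ^ j) ≤ n * x 0 ^ (2 ^ j) := Nat.le_mul_of_pos_left _ hn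
      _ ≤ n ^ (2 ^ j) * (r ^ (2 ^ j) * D) := h2
      _ = (r * n) ^ (2 ^ j) * D := by rw [mul_pow]; ring
  set m := r * n with hm
  rcases Nat.eq_zero_or_pos m with h0 | hm0
  · have h2 := h1 0
    rw [h0] at h2 hlt
    simp only [pow_zero, pow_one, zero_mul] at h2
    omega
  · have hm0' : (0 : ℝ) < m := by exact_mod_cast hm0
    have h3 : 1 < ((m : ℝ) + 1) / m := by
      rw [lt_div_iff₀ hm0']
      linarith
    have h4 : Tendsto (fun j : ℕ => (((m : ℝ) + 1) / m) ^ (2 ^ j)) atTop atTop :=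
      (tendsto_pow_atTop_atTop_of_one_lt h3).comp (tendsto_pow_atTop_atTop_of_one_lt one_lt_two)
    obtain ⟨j, hj⟩ := (h4.eventually_gt_atTop (D : ℝ)).exists
    have h5 : ((m : ℝ) + 1) ^ (2 ^ j) ≤ (m : ℝ) ^ (2 ^ j) * D := by
      have h6 : (m + 1) ^ (2 ^ j) ≤ m ^ (2 ^ j) * D := (Nat.pow_le_pow_left hlt _).trans (h1 j)
      exact_mod_cast h6
    rw [div_pow, lt_div_iff₀ (pow_pos hm0' _)] at hj
    nlinarith

set_option linter.unusedVariables false in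
/-- `c l` numerical, `a l` homological ranks of `X ^ (2 l)`, `b = dim H(X)`; the case of a
non-nilpotent null element -/
theorem ana_A {a c : ℕ → ℕ} {b d s : ℕ} (hb : 1 ≤ b) (hs : 1 ≤ s) (hc : ∀ l, 1 ≤ c l)
    (hconv : ∀ l, c (l + 1) ^ 2 ≤ c l * c (l + 2)) (hgr : ∀ l, b ^ (2 * l) ≤ a l * (l + 2) ^ d)
    (h : ∀ l, c (l + s) ≤ (b ^ (2 * s) - 1) * c l) (m : ℕ) :
    ∃ L, ∀ l ≥ L, m * c l ≤ a l := by
  set q : ℕ := b ^ (2 * s) - 1 with hq
  have hB1 : 1 ≤ b ^ (2 * s) := Nat.one_le_pow _ _ hb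
  have hq1 : q + 1 = b ^ (2 * s) := Nat.sub_add_cancel hB1
  -- iterate
  have hit : ∀ j i, c (i + s * j) ≤ q ^ j * c i := by
    intro j i
    induction j with
    | zero => simp
    | succ j ih =>
      have h1 := h (i + s * j)
      rw [show i + s * (j + 1) = i + s * j + s by ring, pow_succ]
      calc c (i + s * j + s) ≤ q * c (i + s * j) := h1
        _ ≤ q * (q ^ j * c i) := Nat.mul_le_mul_left _ ih
        _ = q ^ j * q * c i := by ring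
  set C : ℕ := ∑ i ∈ Finset.range s, c i with hC
  have hCi : ∀ i < s, c i ≤ C := fun i hi =>
    Finset.single_le_sum (f := c) (fun _ _ => Nat.zero_le _) (Finset.mem_range.2 hi)
  -- the analytic fact
  have hBpos : (0 : ℝ) < (q : ℝ) + 1 := by positivity
  have hlim : Tendsto (fun j : ℕ => (j : ℝ) ^ d * ((q : ℝ) / (q + 1)) ^ j) atTop (𝓝 0) :=
    tendsto_pow_const_mul_const_pow_of_abs_lt_one d (by
      rw [abs_of_nonneg (by positivity), div_lt_one hBpos]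
      linarith)
  have hlim2 : Tendsto (fun j : ℕ => ((m : ℝ) * C * (2 * (s + 2)) ^ d) *
      ((j : ℝ) ^ d * ((q : ℝ) / (q + 1)) ^ j)) atTop (𝓝 0) := by
    simpa using hlim.const_mul ((m : ℝ) * C * (2 * (s + 2)) ^ d)
  obtain ⟨J, hJ⟩ := eventually_atTop.1 ((hlim2.eventually_lt_const one_pos).and
    (eventually_ge_atTop 1))
  refine ⟨s * J, fun l hl => ?_⟩
  set j := l / s with hj
  set i := l % s with hi
  have hli : i + s * j = l := Nat.mod_add_div l s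
  have his : i < s := Nat.mod_lt _ hs
  have hjJ : J ≤ j := by
    rw [hj, Nat.le_div_iff_mul_le hs, mul_comm]
    exact hl
  obtain ⟨h1, hj1⟩ := hJ j hjJ
  have hcl : c l ≤ q ^ j * C := by
    rw [← hli]
    exact (hit j i).trans (Nat.mul_le_mul_left _ (hCi i his))
  have hl2 : l + 2 ≤ 2 * (s + 2) * j := by
    rw [← hli]
    nlinarith
  have hal : (q + 1) ^ j ≤ a l * (2 * (s + 2) * j) ^ d := by
    have h2 := hgr l
    calc (q + 1) ^ j = b ^ (2 * (s * j)) := by rw [hq1, ← pow_mul, mul_assoc]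
      _ ≤ b ^ (2 * l) := Nat.pow_le_pow_right hb (by omega)
      _ ≤ a l * (l + 2) ^ d := h2
      _ ≤ a l * (2 * (s + 2) * j) ^ d := Nat.mul_le_mul_left _ (Nat.pow_le_pow_left hl2 d)
  -- conclude in the reals
  have hj0 : (0 : ℝ) < (j : ℝ) ^ d := pow_pos (by exact_mod_cast hj1) d
  have hs0 : (0 : ℝ) < (2 * ((s : ℝ) + 2)) ^ d := by positivity
  have hal' : ((q : ℝ) + 1) ^ j ≤ a l * ((2 * ((s : ℝ) + 2)) ^ d * (j : ℝ) ^ d) := by
    have h3 : (((q + 1) ^ j : ℕ) : ℝ) ≤ ((a l * (2 * (s + 2) * j) ^ d : ℕ) : ℝ) := by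
      exact_mod_cast hal
    push_cast at h3
    rw [mul_pow (2 * ((s : ℝ) + 2)) (j : ℝ) d] at h3
    exact h3
  have h4 : (m : ℝ) * C * (2 * (s + 2)) ^ d * ((j : ℝ) ^ d * (q : ℝ) ^ j) ≤ ((q : ℝ) + 1) ^ j := by
    have h5 : ((q : ℝ) / (q + 1)) ^ j = (q : ℝ) ^ j / ((q : ℝ) + 1) ^ j := div_pow _ _ _
    rw [h5] at h1
    have h6 : (0 : ℝ) < ((q : ℝ) + 1) ^ j := pow_pos hBpos j
    rw [← mul_div_assoc, ← mul_div_assoc, div_lt_one h6] at h1
    exact h1.le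
  have h7 : (m : ℝ) * (c l : ℝ) * ((2 * ((s : ℝ) + 2)) ^ d * (j : ℝ) ^ d) ≤
      a l * ((2 * ((s : ℝ) + 2)) ^ d * (j : ℝ) ^ d) := by
    refine le_trans ?_ hal'
    refine le_trans ?_ h4
    have h8 : (c l : ℝ) ≤ (q : ℝ) ^ j * C := by exact_mod_cast hcl
    calc (m : ℝ) * (c l : ℝ) * ((2 * ((s : ℝ) + 2)) ^ d * (j : ℝ) ^ d)
        ≤ (m : ℝ) * ((q : ℝ) ^ j * C) * ((2 * ((s : ℝ) + 2)) ^ d * (j : ℝ) ^ d) := by gcongr
      _ = (m : ℝ) * C * (2 * (s + 2)) ^ d * ((j : ℝ) ^ d * (q : ℝ) ^ j) := by ring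
  have h9 := le_of_mul_le_mul_right h7 (by positivity)
  exact_mod_cast h9

end Pool.Agent.Helper34.ZP
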