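import Mathlib
import Pool.Agent.Helper34.ZP.G3
import Pool.Agent.Helper34.ZP.P2
import Pool.Agent.Helper34.ZP.P5

/-!
# The tensor power trick
-/

universe u v w t

open CategoryTheory TensorProduct

namespace Pool.Agent.Helper34.ZP

open Pool.Agent.Helper10 Pool.Agent.Helper11.Iso SmProjVar SPre

variable {k : Type u} [Field k] {K : Type t} [Field K] {Ω : Type v} [Field Ω] [Algebra K Ω]
  {P : SPre.{u, v, w, t} k K Ω}

/-- transport along an isomorphism -/
lemma rho_eq_of_iso {U U' : SmProjVar k} {i : U.toOver ⟶ U'.toOver} {p : U'.toOver ⟶ U.toOver}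
    (hip : i ≫ p = 𝟙 _) (hpi : p ≫ i = 𝟙 _) {φ : P.H U' →ₗ[Ω] P.H U'} {ψ : P.H U →ₗ[Ω] P.H U}
    (h : ∀ x, P.pull i (φ x) = ψ (P.pull i x)) : rho P ψ = rho P φ := by
  have h1 : ∀ x, P.pull i (P.pull p x) = x := fun x => by
    rw [pull_pull, hip, pull_id_apply]
  have h2 : ∀ x, P.pull p (P.pull i x) = x := fun x => by
    rw [pull_pull, hpi, pull_id_apply]
  have hinj : Function.Injective (P.pull i).toLinearMap := fun x y hxy => by
    have := congrArg (P.pull p) hxy
    change P.pull p (P.pull i x) = P.pull p (P.pull i y) at this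
    rwa [h2, h2] at this
  have e1 : (radS P U').map (P.pull i).toLinearMap = radS P U := by
    ext x
    constructor
    · rintro ⟨y, hy, rfl⟩
      exact rad_pull i hy
    · intro hx
      exact ⟨P.pull p x, rad_pull p hx, h1 x⟩
  have e2 : (P.alg U').map (P.pull i).toLinearMap = P.alg U := by
    ext x
    constructor
    · rintro ⟨y, hy, rfl⟩
      exact P.pull_mem i _ hy
    · intro hx
      exact ⟨P.pull p x, P.pull_mem p _ hx, h1 x⟩
  have e3 : ((P.alg U').map φ).map (P.pull i).toLinearMap = (P.alg U).map ψ := by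
    rw [← e2, ← Submodule.map_comp, ← Submodule.map_comp]
    congr 1
    exact LinearMap.ext h
  unfold rho
  rw [← e1, ← e3]
  exact rdim_map_of_injective hinj _ _

/-- `(Z × Y) × Y ≅ Z × (Y × Y)` -/
lemma rho_assoc (Z Y T : SmProjVar k) (e : P.H Z →ₗ[Ω] P.H Z) :
    rho P (tmap (tmap e (LinearMap.id : P.H Y →ₗ[Ω] P.H Y))
      (LinearMap.id : P.H T →ₗ[Ω] P.H T)) =
      rho P (tmap e (LinearMap.id : P.H (Y.prod T) →ₗ[Ω] P.H (Y.prod T))) := by
  let i : ((Z.prod Y).prod T).toOver ⟶ (Z.prod (Y.prod T)).toOver :=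
    lift (fst _ _ ≫ fst _ _) (lift (fst _ _ ≫ snd _ _) (snd _ _))
  let p : (Z.prod (Y.prod T)).toOver ⟶ ((Z.prod Y).prod T).toOver :=
    lift (lift (fst _ _) (snd _ _ ≫ fst _ _)) (snd _ _ ≫ snd _ _)
  have hip : i ≫ p = 𝟙 _ := by
    apply hom_ext
    · apply hom_ext
      · simp only [i, p, Category.assoc, lift_fst, Category.id_comp, lift_fst_assoc]
      · simp only [i, p, Category.assoc, lift_fst, lift_snd, lift_snd_assoc, Category.id_comp]
    · simp only [i, p, Category.assoc, lift_snd, lift_snd_assoc, Category.id_comp]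
  have hpi : p ≫ i = 𝟙 _ := by
    apply hom_ext
    · simp only [i, p, Category.assoc, lift_fst, lift_fst_assoc, Category.id_comp]
    · apply hom_ext
      · simp only [i, p, Category.assoc, lift_fst, lift_snd, lift_fst_assoc, Category.id_comp]
      · simp only [i, p, Category.assoc, lift_snd, Category.id_comp]
  have hi : ∀ (z : P.H Z) (y : P.H Y) (t : P.H T),
      P.pull i (P.ext Z (Y.prod T) z (P.ext Y T y t)) =
        P.ext (Z.prod Y) T (P.ext Z Y z y) t := by
    intro z y t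
    unfold SPre.ext
    simp only [map_mul, pull_pull]
    rw [← Category.assoc, ← Category.assoc, lift_fst, lift_snd, lift_fst, lift_snd, mul_assoc]
  refine rho_eq_of_iso hip hpi fun x => ?_
  have h1 : (P.pull i).toLinearMap ∘ₗ tmap e LinearMap.id =
      tmap (tmap e LinearMap.id) LinearMap.id ∘ₗ (P.pull i).toLinearMap := by
    refine hom_ext_ext fun z y => ?_
    obtain ⟨y, rfl⟩ := kunL_surjective P Y T y
    induction y using TensorProduct.induction_on with
    | zero =>
      simp only [map_zero]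
      have : P.ext Z (Y.prod T) z 0 = 0 := by rw [SPre.ext, map_zero (P.pull _), mul_zero]
      rw [this, map_zero, map_zero]
    | tmul y t =>
      rw [kunL_tmul, LinearMap.comp_apply, LinearMap.comp_apply, tmap_ext, LinearMap.id_apply]
      change P.pull i _ = tmap _ _ (P.pull i _)
      rw [hi, hi, tmap_ext, tmap_ext, LinearMap.id_apply, LinearMap.id_apply]
    | add a b ha hb =>
      have : ∀ c d, P.ext Z (Y.prod T) z (c + d) = P.ext _ _ z c + P.ext _ _ z d := fun c d => by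
        unfold SPre.ext; rw [map_add (P.pull _), mul_add]
      rw [map_add (kunL P Y T), this, map_add, map_add, ha, hb]
  exact LinearMap.congr_fun h1 x

lemma ext_add_right {X Y : SmProjVar k} (x : P.H X) (a b : P.H Y) :
    P.ext X Y x (a + b) = P.ext X Y x a + P.ext X Y x b := by
  unfold SPre.ext; rw [map_add (P.pull _), mul_add]

lemma ext_add_left {X Y : SmProjVar k} (a b : P.H X) (y : P.H Y) :
    P.ext X Y (a + b) y = P.ext X Y a y + P.ext X Y b y := by
  unfold SPre.ext; rw [map_add (P.pull _), add_mul]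

lemma ext_smul_right {X Y : SmProjVar k} (c : Ω) (x : P.H X) (y : P.H Y) :
    P.ext X Y x (c • y) = c • P.ext X Y x y := by
  unfold SPre.ext; rw [map_smul (P.pull _), mul_smul_comm]

lemma ext_smul_left {X Y : SmProjVar k} (c : Ω) (x : P.H X) (y : P.H Y) :
    P.ext X Y (c • x) y = c • P.ext X Y x y := by
  unfold SPre.ext; rw [map_smul (P.pull _), smul_mul_assoc]

lemma ext_zero_right {X Y : SmProjVar k} (x : P.H X) : P.ext X Y x 0 = 0 := by
  unfold SPre.ext; rw [map_zero (P.pull _), mul_zero]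

lemma ext_zero_left {X Y : SmProjVar k} (y : P.H Y) : P.ext X Y 0 y = 0 := by
  unfold SPre.ext; rw [map_zero (P.pull _), zero_mul]

/-- linear maps on `H((A × B) × (C × D))` which agree on products of homogeneous classes -/
lemma hom_ext_four {A B C D : SmProjVar k} {M : Type*} [AddCommGroup M] [Module Ω M]
    {f g : P.H ((A.prod B).prod (C.prod D)) →ₗ[Ω] M}
    (h : ∀ a b c d, P.Hom A a → P.Hom B b → P.Hom C c → P.Hom D d →
      f (P.ext _ _ (P.ext A B a b) (P.ext C D c d)) =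
        g (P.ext _ _ (P.ext A B a b) (P.ext C D c d))) : f = g := by
  refine hom_ext_ext fun x y => ?_
  induction x using ext_induction with
  | hext a b ha hb =>
    induction y using ext_induction with
    | hext c d hc hd => exact h a b c d ha hb hc hd
    | hzero => rw [ext_zero_right, map_zero, map_zero]
    | hadd x y hx hy => rw [ext_add_right, map_add, map_add, hx, hy]
    | hsmul a x hx => rw [ext_smul_right, map_smul, map_smul, hx]
  | hzero => rw [ext_zero_left, map_zero, map_zero]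
  | hadd x y hx hy => rw [ext_add_left, map_add, map_add, hx, hy]
  | hsmul a x hx => rw [ext_smul_left, map_smul, map_smul, hx]

/-- `(Z × Y) × (Z' × Y') ≅ (Z × Z') × (Y × Y')` -/
lemma rho_four (Z Y Z' Y' : SmProjVar k) {e : P.H Z →ₗ[Ω] P.H Z} {e' : P.H Z' →ₗ[Ω] P.H Z'}
    (he' : e' ∈ Mor P Z' Z') :
    rho P (tmap (tmap e (LinearMap.id : P.H Y →ₗ[Ω] P.H Y))
      (tmap e' (LinearMap.id : P.H Y' →ₗ[Ω] P.H Y'))) =
      rho P (tmap (tmap e e') (LinearMap.id : P.H (Y.prod Y') →ₗ[Ω] P.H (Y.prod Y'))) := by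
  let i : ((Z.prod Y).prod (Z'.prod Y')).toOver ⟶ ((Z.prod Z').prod (Y.prod Y')).toOver :=
    lift (lift (fst _ _ ≫ fst _ _) (snd _ _ ≫ fst _ _))
      (lift (fst _ _ ≫ snd _ _) (snd _ _ ≫ snd _ _))
  let p : ((Z.prod Z').prod (Y.prod Y')).toOver ⟶ ((Z.prod Y).prod (Z'.prod Y')).toOver :=
    lift (lift (fst _ _ ≫ fst _ _) (snd _ _ ≫ fst _ _))
      (lift (fst _ _ ≫ snd _ _) (snd _ _ ≫ snd _ _))
  have hip : i ≫ p = 𝟙 _ := by
    apply hom_ext
    · apply hom_ext <;> simp only [i, p, Category.assoc, lift_fst, lift_snd, lift_fst_assoc,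
        lift_snd_assoc, Category.id_comp]
    · apply hom_ext <;> simp only [i, p, Category.assoc, lift_fst, lift_snd, lift_fst_assoc,
        lift_snd_assoc, Category.id_comp]
  have hpi : p ≫ i = 𝟙 _ := by
    apply hom_ext
    · apply hom_ext <;> simp only [i, p, Category.assoc, lift_fst, lift_snd, lift_fst_assoc,
        lift_snd_assoc, Category.id_comp]
    · apply hom_ext <;> simp only [i, p, Category.assoc, lift_fst, lift_snd, lift_fst_assoc,
        lift_snd_assoc, Category.id_comp]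
  have hi : ∀ (z : P.H Z) (z' : P.H Z') (y : P.H Y) (y' : P.H Y'),
      P.pull i (P.ext _ _ (P.ext Z Z' z z') (P.ext Y Y' y y')) =
        P.pull (fst _ _) (P.pull (fst Z Y) z) *
          (P.pull (snd _ _) (P.pull (fst Z' Y') z') * P.pull (fst _ _) (P.pull (snd Z Y) y)) *
            P.pull (snd _ _) (P.pull (snd Z' Y') y') := by
    intro z z' y y'
    unfold SPre.ext
    simp only [map_mul, pull_pull]
    rw [← Category.assoc, ← Category.assoc, ← Category.assoc, ← Category.assoc, lift_fst,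
      lift_fst, lift_snd, lift_snd, lift_fst, lift_snd]
    noncomm_ring
  have hi' : ∀ (z : P.H Z) (z' : P.H Z') (y : P.H Y) (y' : P.H Y'),
      P.ext _ _ (P.ext Z Y z y) (P.ext Z' Y' z' y') =
        P.pull (fst _ _) (P.pull (fst Z Y) z) *
          (P.pull (fst _ _) (P.pull (snd Z Y) y) * P.pull (snd _ _) (P.pull (fst Z' Y') z')) *
            P.pull (snd _ _) (P.pull (snd Z' Y') y') := by
    intro z z' y y'
    unfold SPre.ext
    simp only [map_mul, pull_pull]
    noncomm_ring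
  refine rho_eq_of_iso hip hpi fun x => ?_
  have h1 : (P.pull i).toLinearMap ∘ₗ tmap (tmap e e') LinearMap.id =
      tmap (tmap e LinearMap.id) (tmap e' LinearMap.id) ∘ₗ (P.pull i).toLinearMap := by
    refine hom_ext_four fun z z' y y' _ hz' hy _ => ?_
    rw [LinearMap.comp_apply, LinearMap.comp_apply, tmap_ext, tmap_ext, LinearMap.id_apply]
    change P.pull i _ = tmap _ _ (P.pull i _)
    rw [hi, hi]
    have key : ∀ w : P.H Z', P.Hom Z' w → (w ∈ P.ev Z' ∨ y ∈ P.ev Y) →
        P.pull (snd (Z.prod Y) (Z'.prod Y')) (P.pull (fst Z' Y') w) *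
          P.pull (fst (Z.prod Y) (Z'.prod Y')) (P.pull (snd Z Y) y) =
        P.pull (fst (Z.prod Y) (Z'.prod Y')) (P.pull (snd Z Y) y) *
          P.pull (snd (Z.prod Y) (Z'.prod Y')) (P.pull (fst Z' Y') w) := by
      rintro w - (hw | hw)
      · exact P.ev_comm _ _ _ (P.pull_ev _ _ (P.pull_ev _ _ hw))
      · exact (P.ev_comm _ _ _ (P.pull_ev _ _ (P.pull_ev _ _ hw))).symm
    have key' : ∀ w : P.H Z', (w ∈ P.od Z' ∧ y ∈ P.od Y) →
        P.pull (snd (Z.prod Y) (Z'.prod Y')) (P.pull (fst Z' Y') w) *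
          P.pull (fst (Z.prod Y) (Z'.prod Y')) (P.pull (snd Z Y) y) =
        -(P.pull (fst (Z.prod Y) (Z'.prod Y')) (P.pull (snd Z Y) y) *
          P.pull (snd (Z.prod Y) (Z'.prod Y')) (P.pull (fst Z' Y') w)) := by
      rintro w ⟨hw, hw'⟩
      exact P.od_anti _ _ _ (P.pull_od _ _ (P.pull_od _ _ hw)) (P.pull_od _ _ (P.pull_od _ _ hw'))
    rcases hz' with hz' | hz'
    · have hz'' := IsMap.map_ev he' hz'
      rw [key z' (.inl hz') (.inl hz'), key (e' z') (.inl hz'') (.inl hz''), ← hi', ← hi',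
        tmap_ext, tmap_ext, tmap_ext, LinearMap.id_apply, LinearMap.id_apply]
    · have hz'' := IsMap.map_od he' hz'
      rcases hy with hy | hy
      · rw [key z' (.inr hz') (.inr hy), key (e' z') (.inr hz'') (.inr hy), ← hi', ← hi',
          tmap_ext, tmap_ext, tmap_ext, LinearMap.id_apply, LinearMap.id_apply]
      · rw [key' z' ⟨hz', hy⟩, key' (e' z') ⟨hz'', hy⟩, mul_neg, neg_mul, mul_neg, neg_mul,
          ← hi', ← hi', map_neg, tmap_ext, tmap_ext, tmap_ext, LinearMap.id_apply,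
          LinearMap.id_apply]
  exact LinearMap.congr_fun h1 x

lemma tmap_idem {X Y : SmProjVar k} {f : P.H X →ₗ[Ω] P.H X} {g : P.H Y →ₗ[Ω] P.H Y}
    (hf : f ∘ₗ f = f) (hg : g ∘ₗ g = g) : tmap f g ∘ₗ tmap f g = tmap f g := by
  rw [tmap_comp, hf, hg]

lemma rho_le_finrank {U : SmProjVar k} (φ : P.H U →ₗ[Ω] P.H U) :
    rho P φ ≤ Module.finrank Ω (LinearMap.range φ) := by
  refine (rdim_le _ _).trans (Submodule.finrank_mono ?_)
  rw [← Submodule.map_top]
  exact Submodule.map_mono le_top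

/-- one step -/
lemma rho_step [CharZero Ω] (Z Y : SmProjVar k) {e : P.H Z →ₗ[Ω] P.H Z} (he : e ∈ Mor P Z Z)
    (hee : e ∘ₗ e = e) :
    rho P (tmap e (LinearMap.id : P.H (Y.prod Y) →ₗ[Ω] P.H (Y.prod Y))) ^ 2 ≤
      nr P (Y.prod Y) *
        rho P (tmap (tmap e (adj e)) (LinearMap.id : P.H (Y.prod Y) →ₗ[Ω] P.H (Y.prod Y))) := by
  have h1 : tmap e (LinearMap.id : P.H Y →ₗ[Ω] P.H Y) ∈ Mor P (Z.prod Y) (Z.prod Y) :=
    tmap_mem_Mor he (isMap_id Y)
  have h := rho_sq_le (Z.prod Y) Y h1 (tmap_idem hee (LinearMap.comp_id _))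
  rwa [rho_assoc, adj_tmap he (isMap_id Y), adj_id, rho_four Z Y Z Y (adj_mem_Mor he)] at h

/-- an idempotent algebraic operator -/
structure IdemOp (P : SPre.{u, v, w, t} k K Ω) where
  Z : SmProjVar k
  e : P.H Z →ₗ[Ω] P.H Z
  mem : e ∈ Mor P Z Z
  idem : e ∘ₗ e = e

/-- the idempotent `e ⊗ eᵗ` -/
noncomputable def IdemOp.next (o : IdemOp P) : IdemOp P where
  Z := o.Z.prod o.Z
  e := tmap o.e (adj o.e)
  mem := tmap_mem_Mor o.mem (adj_mem_Mor o.mem)
  idem := tmap_idem o.idem (by rw [← adj_comp, o.idem])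

lemma IdemOp.finrank_next (o : IdemOp P) : Module.finrank Ω (LinearMap.range o.next.e) =
    Module.finrank Ω (LinearMap.range o.e) * Module.finrank Ω (LinearMap.range o.e) := by
  have h := finrank_range_tmap o.e (adj o.e)
  rw [finrank_range_adj] at h
  exact h

lemma IdemOp.finrank_iterate (o : IdemOp P) (j : ℕ) :
    Module.finrank Ω (LinearMap.range (IdemOp.next^[j] o).e) =
      Module.finrank Ω (LinearMap.range o.e) ^ (2 ^ j) := by
  induction j with
  | zero => rw [Function.iterate_zero, id, pow_zero, pow_one]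
  | succ j ih =>
    rw [Function.iterate_succ_apply', IdemOp.finrank_next, ih, ← pow_two, ← pow_mul, ← pow_succ]

theorem rho_le [CharZero Ω] (Z Y : SmProjVar k) {e : P.H Z →ₗ[Ω] P.H Z} (he : e ∈ Mor P Z Z)
    (hee : e ∘ₗ e = e) :
    rho P (tmap e (LinearMap.id : P.H (Y.prod Y) →ₗ[Ω] P.H (Y.prod Y))) ≤
      Module.finrank Ω (LinearMap.range e) * nr P (Y.prod Y) := by
  have key : ∀ o : IdemOp P, rho P (tmap o.e
      (LinearMap.id : P.H (Y.prod Y) →ₗ[Ω] P.H (Y.prod Y))) ^ 2 ≤ nr P (Y.prod Y) *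
        rho P (tmap o.next.e (LinearMap.id : P.H (Y.prod Y) →ₗ[Ω] P.H (Y.prod Y))) :=
    fun o => rho_step o.Z Y o.mem o.idem
  let o : IdemOp P := ⟨Z, e, he, hee⟩
  rcases Nat.eq_zero_or_pos (nr P (Y.prod Y)) with h0 | h0
  · have h := key o
    rw [h0, zero_mul, Nat.le_zero, pow_eq_zero_iff two_ne_zero] at h
    rw [h0, mul_zero]
    exact h.le
  · refine le_of_doubling (x := fun j => rho P (tmap (IdemOp.next^[j] o).e
      (LinearMap.id : P.H (Y.prod Y) →ₗ[Ω] P.H (Y.prod Y))))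
      (D := Module.finrank Ω (P.H (Y.prod Y))) h0 (fun j => ?_) (fun j => ?_)
    · have h := key (IdemOp.next^[j] o)
      rwa [← Function.iterate_succ_apply' IdemOp.next j o] at h
    · refine (rho_le_finrank _).trans ?_
      rw [finrank_range_tmap, IdemOp.finrank_iterate, LinearMap.range_id, finrank_top]

theorem nr_prod_le [CharZero Ω] (Z Y : SmProjVar k) :
    nr P (Z.prod (Y.prod Y)) ≤ Module.finrank Ω (P.H Z) * nr P (Y.prod Y) := by
  have h := rho_le (P := P) Z Y (isMap_id Z) (LinearMap.comp_id _)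
  rwa [tmap_id, rho_id, LinearMap.range_id, finrank_top] at h

/-- an idempotent which is congruent to the identity modulo numerically trivial maps -/
theorem nr_le_rho {Z T : SmProjVar k} {e : P.H Z →ₗ[Ω] P.H Z} (he : e ∈ Mor P Z Z)
    (h1 : LinearMap.id - e ∈ Nul P Z Z) :
    nr P (Z.prod T) ≤ rho P (tmap (adj e) (LinearMap.id : P.H T →ₗ[Ω] P.H T)) := by
  refine rdim_le_of_forall fun c hc => ?_
  refine ⟨tmap (adj e) LinearMap.id c, ⟨c, hc, rfl⟩, ?_⟩
  have h2 : opL P Z T (c - tmap (adj e) LinearMap.id c) = op c ∘ₗ (LinearMap.id - e) := by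
    rw [map_sub, opL_apply, opL_apply, op_tmap, adj_adj he, LinearMap.id_comp,
      LinearMap.comp_sub, LinearMap.comp_id]
  have h3 : op c ∘ₗ (LinearMap.id - e) ∈ Nul P Z T := by
    refine comp_Nul h1 ?_
    rw [← map_opL_alg]
    exact ⟨c, hc, rfl⟩
  rw [← h2, ← map_opL_radS] at h3
  obtain ⟨d, hd, hd'⟩ := h3
  rwa [← (opL_bijective Z T).1 hd']

theorem nr_prod_le_of_not_nil [CharZero Ω] (Z Y : SmProjVar k) {x : P.H Z →ₗ[Ω] P.H Z}
    (hx : x ∈ Nul P Z Z) (hx' : ¬ IsNilpotent (x : Module.End Ω (P.H Z))) :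
    nr P (Z.prod (Y.prod Y)) ≤ (Module.finrank Ω (P.H Z) - 1) * nr P (Y.prod Y) := by
  obtain ⟨e, he, hee, hr, h1⟩ := exists_idem_of_not_nil (P.corrAlg Z) (par P Z)
    (fun y hy => ((isCat (P := P) Z Z).sA y hy))
    (by rw [nul_corrAlg]; exact hx) hx'
  rw [nul_corrAlg] at h1
  have he' : e ∈ Mor P Z Z := he
  have h2 := nr_le_rho (T := Y.prod Y) he' h1
  have h3 := rho_le Z Y (adj_mem_Mor he') (by rw [← adj_comp]; exact congrArg adj hee)
  rw [finrank_range_adj] at h3
  refine h2.trans (h3.trans (Nat.mul_le_mul_right _ ?_))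
  omega

end Pool.Agent.Helper34.ZP
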