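import Mathlib
import Pool.Agent.Helper34.ZP.Defs
import Pool.Agent.Helper34.ZP.Rdim

/-!
# Numerically trivial classes and layers
-/

universe u v w t

open CategoryTheory TensorProduct

namespace Pool.Agent.Helper34.ZP

open Pool.Agent.Helper10 Pool.Agent.Helper11.Iso SmProjVar SPre

variable {k : Type u} [Field k] {K : Type t} [Field K] {Ω : Type v} [Field Ω] [Algebra K Ω]
  {P : SPre.{u, v, w, t} k K Ω}

lemma G5_par_pull {X Y : SmProjVar k} (f : X.toOver ⟶ Y.toOver) (y : P.H Y) :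
    par P X (P.pull f y) = P.pull f (par P Y y) := by
  obtain ⟨a, ha, b, hb, rfl⟩ := P.exists_decomp Y y
  rw [map_add (P.pull f), map_add (par P X), map_add (par P Y), par_ev (P.pull_ev f a ha),
    par_od (P.pull_od f b hb), par_ev ha, par_od hb, map_add (P.pull f), map_neg (P.pull f)]

/-- an algebraic map is the operator of an algebraic class -/
lemma G5_isMap_eq_op {X Y : SmProjVar k} {f : P.H X →ₗ[Ω] P.H Y} (hf : P.IsMap X Y f) :
    ∃ c ∈ P.alg (X.prod Y), f = op c := by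
  obtain ⟨c, hc, h⟩ := hf
  refine ⟨c, hc, LinearMap.ext fun x => eq_of_tr fun y => ?_⟩
  rw [← h, op_apply, tr_pushF]

/-- multiplication with an algebraic class -/
lemma G5_isMap_mulRight {X : SmProjVar k} {a : P.H X} (ha : a ∈ P.alg X) :
    P.IsMap X X (LinearMap.mulRight Ω a) := by
  obtain ⟨c, hc, h⟩ := P.push (lift (𝟙 X.toOver) (𝟙 X.toOver)) a ha
  refine ⟨c, hc, fun x y => ?_⟩
  rw [← P.ev_comm _ _ _ (P.alg_le_ev _ hc), mul_assoc, h, map_mul (P.pull _),
    pull_pull, pull_pull, lift_fst, lift_snd, pull_id_apply, pull_id_apply,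
    LinearMap.mulRight_apply, ← mul_assoc, P.ev_comm _ _ _ (P.alg_le_ev _ ha)]

/-- the map `v ↦ v × z` -/
noncomputable def G5_insR (V : SmProjVar k) {Z : SmProjVar k} (z : P.H Z) :
    P.H V →ₗ[Ω] P.H (V.prod Z) :=
  (LinearMap.mulRight Ω (P.pull (snd V Z) z)) ∘ₗ (P.pull (fst V Z)).toLinearMap

lemma G5_insR_apply {V Z : SmProjVar k} (z : P.H Z) (v : P.H V) :
    G5_insR V z v = P.ext V Z v z := rfl

lemma G5_isMap_insR (V : SmProjVar k) {Z : SmProjVar k} {z : P.H Z} (hz : z ∈ P.alg Z) :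
    P.IsMap V (V.prod Z) (G5_insR V z) :=
  (isMap_pull (fst V Z)).comp (G5_isMap_mulRight (P.pull_mem (snd V Z) z hz))

/-- the trace formula for the composition of `v ↦ v × z` with an operator -/
lemma G5_trace_op_insR {V Z : SmProjVar k} {z : P.H Z} (hz : z ∈ P.ev Z)
    (c : P.H ((V.prod Z).prod V)) :
    LinearMap.trace Ω (P.H V) ((op c ∘ₗ G5_insR V z) ∘ₗ par P V) =
      P.tr (V.prod Z) (P.pull (snd V Z) z *
        P.pull (lift (𝟙 (V.prod Z).toOver) (fst V Z)) c) := by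
  have hzz : P.pull (snd V Z) z ∈ P.ev (V.prod Z) := P.pull_ev _ _ hz
  induction c using ext_induction with
  | hext a b _ _ =>
    have h1 : (op (P.ext (V.prod Z) V a b) ∘ₗ G5_insR V z) ∘ₗ par P V =
        ((P.tr (V.prod Z)) ∘ₗ (LinearMap.mulRight Ω a) ∘ₗ G5_insR V z ∘ₗ par P V).smulRight b := by
      ext x
      rw [LinearMap.comp_apply, LinearMap.comp_apply, op_ext]
      rfl
    rw [h1, LinearMap.trace_smulRight, SPre.ext, map_mul (P.pull _), pull_pull, pull_pull,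
      lift_fst, lift_snd, P.pull_id]
    change P.tr (V.prod Z) (P.pull (fst V Z) (par P V b) * P.pull (snd V Z) z * a) =
      P.tr (V.prod Z) (P.pull (snd V Z) z * (a * P.pull (fst V Z) b))
    rw [← mul_assoc (P.pull (snd V Z) z), tr_par (P.pull (snd V Z) z * a), G5_par_pull, mul_assoc]
  | hzero => rw [Pool.Agent.Helper11.Iso.op_zero, LinearMap.zero_comp, LinearMap.zero_comp, map_zero, map_zero, mul_zero,
      map_zero]
  | hadd x y hx hy => rw [Pool.Agent.Helper11.Iso.op_add, LinearMap.add_comp, LinearMap.add_comp, map_add, hx, hy,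
      map_add (P.pull _), mul_add, map_add]
  | hsmul a x hx => rw [Pool.Agent.Helper11.Iso.op_smul, LinearMap.smul_comp, LinearMap.smul_comp, map_smul, hx,
      map_smul (P.pull _), mul_smul_comm, map_smul]

/-- G5a -/
theorem ins_mem_Nul {V Z Y : SmProjVar k} {z : P.H Z} (hz : P.rad Z z)
    {T : P.H (V.prod Z) →ₗ[Ω] P.H Y} (hT : T ∈ Mor P (V.prod Z) Y) :
    ∃ T' ∈ Nul P V Y, ∀ v, T' v = T (P.ext V Z v z) := by
  refine ⟨T ∘ₗ G5_insR V z, ⟨(G5_isMap_insR V hz.1).comp hT, fun U hU => ?_⟩, fun v => rfl⟩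
  obtain ⟨c, hc, h⟩ := G5_isMap_eq_op (hT.comp hU)
  have h1 : U ∘ₗ (T ∘ₗ G5_insR V z) ∘ₗ par P V = (op c ∘ₗ G5_insR V z) ∘ₗ par P V := by
    rw [← h]
    rfl
  rw [h1, G5_trace_op_insR (P.alg_le_ev Z hz.1)]
  exact (rad_pull (snd V Z) hz).2 _ (P.pull_mem _ _ hc)

/-- G5b -/
theorem layer_zero {Z : SmProjVar k} {z : P.H Z} (hz : P.rad Z z) (Y : SmProjVar k) :
    Module.finrank Ω (cyc P z Y) + nr P Y ≤ hr P Y := by
  have h1 : cyc P z Y ≤ P.alg Y ⊓ radS P Y := by
    rintro _ ⟨T, hT, rfl⟩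
    have h2 : P.rad Y (T z) := IsMap.map_rad hT hz
    exact ⟨h2.1, h2⟩
  have h3 := Submodule.finrank_mono h1
  have h4 := rdim_add (radS P Y) (P.alg Y)
  have h5 : nr P Y = rdim (radS P Y) (P.alg Y) := rfl
  have h6 : hr P Y = Module.finrank Ω (P.alg Y) := rfl
  omega

end Pool.Agent.Helper34.ZP
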