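import Mathlib
import Pool.Agent.Helper34.ZP.P2

/-!
# The zero-one law for all powers: idempotents generating left ideals modulo a nil ideal
-/

namespace Pool.Agent.Helper34.ZP

/-- left ideals of a ring with a nil ideal and semisimple quotient -/
theorem p2b_lift {R Q : Type*} [Ring R] [Ring Q] [IsSemisimpleRing Q] (π : R →+* Q)
    (hπ : Function.Surjective π) (hnil : ∀ x ∈ RingHom.ker π, IsNilpotent x) (L : Ideal R) :
    ∃ e ∈ L, e * e = e ∧ ∀ x ∈ L, π (x - x * e) = 0 := by
  obtain ⟨c, hc, hI⟩ := IsSemisimpleRing.ideal_eq_span_idempotent (L.map π)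
  have hcI : c ∈ L.map π := by
    rw [hI]
    exact Ideal.subset_span rfl
  obtain ⟨x0, hx0, hx0c⟩ := (Ideal.mem_map_iff_of_surjective π hπ).1 hcI
  obtain ⟨e', he', he'c⟩ := exists_isIdempotentElem_eq_of_ker_isNilpotent π hnil c
    ⟨x0, hx0c⟩ hc
  have hπu : π (1 - e' + e' * x0) = 1 := by
    rw [map_add, map_sub, map_one, map_mul, he'c, hx0c, hc.eq]
    abel
  have hu : IsUnit (1 - e' + e' * x0) := by
    have h1 : IsNilpotent (1 - e' + e' * x0 - 1) := by
      refine hnil _ ?_
      rw [RingHom.mem_ker, map_sub, hπu, map_one, sub_self]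
    have h2 := h1.isUnit_one_add
    rwa [add_sub_cancel] at h2
  obtain ⟨u, hu⟩ := hu
  have heu : e' * (u : R) = e' * x0 := by
    rw [hu, mul_add, mul_sub, mul_one, he'.eq, sub_self, zero_add, ← mul_assoc, he'.eq]
  have hv : π ((u⁻¹ : Rˣ) : R) = 1 := by
    have h3 : π ((u⁻¹ : Rˣ) : R) * π (u : R) = 1 := by
      rw [← map_mul, Units.inv_mul, map_one]
    rwa [hu, hπu, mul_one] at h3
  refine ⟨(u⁻¹ : Rˣ) * (e' * x0), ?_, ?_, ?_⟩
  · rw [← mul_assoc]
    exact L.mul_mem_left _ hx0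
  · rw [← heu]
    calc ((u⁻¹ : Rˣ) : R) * (e' * u) * ((u⁻¹ : Rˣ) * (e' * u))
        = ((u⁻¹ : Rˣ) : R) * (e' * ((u : R) * ((u⁻¹ : Rˣ) : R)) * (e' * u)) := by
          simp only [mul_assoc]
      _ = ((u⁻¹ : Rˣ) : R) * (e' * u) := by
          rw [Units.mul_inv, mul_one, ← mul_assoc e' e', he'.eq]
  · intro x hx
    have hxI : π x ∈ L.map π := Ideal.mem_map_of_mem π hx
    rw [hI] at hxI
    obtain ⟨a, ha⟩ := Ideal.mem_span_singleton'.1 hxI
    rw [map_sub, map_mul, map_mul, map_mul, hv, one_mul, he'c, hx0c, ← ha, hc.eq, mul_assoc,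
      hc.eq, sub_self]

section

variable {F : Type*} [Field F] {V : Type*} [AddCommGroup V] [Module F V]
  [Module.Finite F V]

/-- P2b with the result of P2a as a hypothesis -/
theorem p2b_of_ideal (A : Subalgebra F (Module.End F V)) (s : Module.End F V)
    (hQ : ∃ (Q : Type _) (_ : Ring Q) (_ : Algebra F Q)
      (π : A →ₐ[F] Q), Function.Surjective π ∧ IsSemisimpleRing Q ∧ Module.Finite F Q ∧
      ∀ x : A, π x = 0 ↔ (x : Module.End F V) ∈ nul s (Subalgebra.toSubmodule A)
        (Subalgebra.toSubmodule A))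
    (hnil : ∀ x ∈ nul s (Subalgebra.toSubmodule A) (Subalgebra.toSubmodule A), IsNilpotent x)
    (L : Submodule F (Module.End F V)) (hLA : ∀ x ∈ L, x ∈ A)
    (hL : ∀ a ∈ A, ∀ x ∈ L, a * x ∈ L)
    (h1 : ¬ ∃ x ∈ L, ∃ y ∈ nul s (Subalgebra.toSubmodule A) (Subalgebra.toSubmodule A),
      x + y = 1) :
    ∃ e ∈ L, e * e = e ∧ Module.finrank F (LinearMap.range e) < Module.finrank F V ∧
      ∀ x ∈ L, x - x * e ∈ nul s (Subalgebra.toSubmodule A) (Subalgebra.toSubmodule A) := by
  obtain ⟨Q, _, _, π, hπ, hss, -, hker⟩ := hQ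
  have hnil' : ∀ x ∈ RingHom.ker (π : A →+* Q), IsNilpotent x := by
    intro x hx
    have h2 := hnil _ ((hker x).1 hx)
    obtain ⟨n, hn⟩ := h2
    refine ⟨n, ?_⟩
    apply Subtype.ext
    rw [SubmonoidClass.coe_pow, hn]
    rfl
  let L' : Ideal A :=
    { carrier := {x | (x : Module.End F V) ∈ L}
      add_mem' := fun {a b} ha hb => by
        change ((a : Module.End F V) + (b : Module.End F V)) ∈ L
        exact add_mem ha hb
      zero_mem' := by
        change (0 : Module.End F V) ∈ L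
        exact zero_mem _
      smul_mem' := fun c x hx => by
        change (c : Module.End F V) * (x : Module.End F V) ∈ L
        exact hL _ c.2 _ hx }
  obtain ⟨e, he, hee, hx⟩ := p2b_lift (π : A →+* Q) hπ hnil' L'
  have hee' : (e : Module.End F V) * (e : Module.End F V) = (e : Module.End F V) :=
    congrArg Subtype.val hee
  refine ⟨(e : Module.End F V), he, hee', ?_, ?_⟩
  · by_contra hlt
    have htop : LinearMap.range (e : Module.End F V) = ⊤ :=
      Submodule.eq_top_of_finrank_eq (le_antisymm (Submodule.finrank_le _) (not_lt.1 hlt))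
    have he1 : (e : Module.End F V) = 1 := by
      refine LinearMap.ext fun v => ?_
      have hv : v ∈ LinearMap.range (e : Module.End F V) := by
        rw [htop]
        trivial
      obtain ⟨w, rfl⟩ := hv
      exact congrArg (fun f : Module.End F V => f w) hee'
    refine h1 ⟨(e : Module.End F V), he, 0, zero_mem _, ?_⟩
    rw [add_zero, he1]
  · intro x hxL
    have h3 := hx ⟨x, hLA x hxL⟩ hxL
    exact (hker _).1 h3

/-- P2b: left ideals, if all null elements are nilpotent -/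
theorem exists_idem_of_nil (A : Subalgebra F (Module.End F V)) (s : Module.End F V)
    (hs : s * s = 1) (hsA : ∀ x ∈ A, s * x = x * s)
    (hnil : ∀ x ∈ nul s (Subalgebra.toSubmodule A) (Subalgebra.toSubmodule A), IsNilpotent x)
    (L : Submodule F (Module.End F V)) (hLA : ∀ x ∈ L, x ∈ A)
    (hL : ∀ a ∈ A, ∀ x ∈ L, a * x ∈ L)
    (h1 : ¬ ∃ x ∈ L, ∃ y ∈ nul s (Subalgebra.toSubmodule A) (Subalgebra.toSubmodule A),
      x + y = 1) :
    ∃ e ∈ L, e * e = e ∧ Module.finrank F (LinearMap.range e) < Module.finrank F V ∧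
      ∀ x ∈ L, x - x * e ∈ nul s (Subalgebra.toSubmodule A) (Subalgebra.toSubmodule A) :=
  p2b_of_ideal A s (exists_ideal A s hs hsA) hnil L hLA hL h1

end

end Pool.Agent.Helper34.ZP
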