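import Mathlib
import Pool.Agent.Helper34.ZP.G4
import Pool.Agent.Helper34.ZP.G5
import Pool.Agent.Helper34.ZP.P2b

/-!
# The zero-one law for all powers: one layer
-/

universe u v w t

open CategoryTheory TensorProduct

namespace Pool.Agent.Helper34.ZP

open Pool.Agent.Helper10 Pool.Agent.Helper11.Iso SmProjVar SPre

/-! ### linear algebra -/

section Lin

variable {F : Type*} [Field F] {V : Type*} [AddCommGroup V] [Module F V] [Module.Finite F V]

lemma G5c_finrank_map {W : Type*} [AddCommGroup W] [Module F W] (f : V →ₗ[F] W)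
    (S : Submodule F V) : Module.finrank F (S.map f) +
      Module.finrank F (S ⊓ LinearMap.ker f : Submodule F V) = Module.finrank F S := by
  have h := LinearMap.finrank_range_add_finrank_ker (f.domRestrict S)
  rw [LinearMap.range_domRestrict, LinearMap.ker_domRestrict] at h
  rw [← h]
  congr 1
  have h1 : (S ⊓ LinearMap.ker f : Submodule F V) =
      (Submodule.comap S.subtype (LinearMap.ker f)).map S.subtype := by
    rw [Submodule.map_comap_subtype]
  rw [h1]
  exact (Submodule.equivMapOfInjective S.subtype S.subtype_injective _).finrank_eq.symm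

lemma G5c_rdim_eq (N S : Submodule F V) : rdim N S = Module.finrank F (S.map N.mkQ) := by
  have h := G5c_finrank_map N.mkQ S
  rw [Submodule.ker_mkQ] at h
  unfold rdim
  omega

lemma G5c_rdim_mono {N S S' : Submodule F V} (h : S ≤ S' ⊔ N) : rdim N S ≤ rdim N S' := by
  rw [G5c_rdim_eq, G5c_rdim_eq]
  refine Submodule.finrank_mono ?_
  refine (Submodule.map_mono h).trans ?_
  rw [Submodule.map_sup, Submodule.mkQ_map_self, sup_bot_eq]

/-- counting dimensions -/
lemma G5c_count {W : Type*} [AddCommGroup W] [Module F W] (f : V →ₗ[F] W)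
    {N M : Submodule F V} (hNM : N ≤ M) {R : ℕ} (hR : rdim N (M ⊓ LinearMap.ker f) ≤ R) :
    Module.finrank F (N.map f) + rdim N M ≤ Module.finrank F (M.map f) + R := by
  have h1 := G5c_finrank_map f N
  have h2 := G5c_finrank_map f M
  have h3 : (M ⊓ N : Submodule F V) = N := inf_eq_right.2 hNM
  have h4 : ((M ⊓ LinearMap.ker f) ⊓ N : Submodule F V) = N ⊓ LinearMap.ker f := by
    rw [inf_right_comm, h3]
  have h5 : Module.finrank F N ≤ Module.finrank F M := Submodule.finrank_mono hNM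
  unfold rdim at hR ⊢
  rw [h4] at hR
  rw [h3]
  omega

end Lin

/-! ### the layer -/

variable {k : Type u} [Field k] {K : Type t} [Field K] {Ω : Type v} [Field Ω] [Algebra K Ω]
  {P : SPre.{u, v, w, t} k K Ω}

lemma G5c_Nul_le (X Y : SmProjVar k) : Nul P X Y ≤ Mor P X Y := fun _ h => h.1

/-- the classes `T (y ⊗ z)` -/
lemma G5c_cyc_le {V Z : SmProjVar k} {y : P.H V} {z : P.H Z} (hz : P.rad Z z)
    (Y : SmProjVar k) : cyc P (P.ext V Z y z) Y ≤ (Nul P V Y).map (LinearMap.applyₗ y) := by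
  rintro _ ⟨T, hT, rfl⟩
  obtain ⟨T', hT', h⟩ := ins_mem_Nul hz hT
  exact ⟨T', hT', h y⟩

/-- the algebraic maps which kill `y` -/
lemma G5c_ann [CharZero Ω] {V : SmProjVar k} {y : P.H V} (hy0 : y ≠ 0)
    (hnil : ∀ x ∈ Nul P V V, IsNilpotent (x : Module.End Ω (P.H V))) :
    ∃ e ∈ Mor P V V, e ∘ₗ e = e ∧
      Module.finrank Ω (LinearMap.range e) < Module.finrank Ω (P.H V) ∧
      ∀ Y : SmProjVar k, ∀ T ∈ Mor P V Y, T y = 0 → T - T ∘ₗ e ∈ Nul P V Y := by
  have hnc := nul_corrAlg (P := P) V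
  let L : Submodule Ω (Module.End Ω (P.H V)) :=
    Subalgebra.toSubmodule (P.corrAlg V) ⊓ LinearMap.ker (LinearMap.applyₗ y)
  have hL : ∀ x, x ∈ L ↔ x ∈ Mor P V V ∧ x y = 0 := fun x => Iff.rfl
  obtain ⟨e, heL, hee, hrk, hLe⟩ := exists_idem_of_nil (P.corrAlg V) (par P V)
    (LinearMap.ext fun x => par_par x) (isCat V V).sA
    (by rw [hnc]; exact hnil) L (fun x hx => ((hL x).1 hx).1)
    (fun a ha x hx => (hL _).2 ⟨(isCat V V).AA a ha x ((hL x).1 hx).1, by
      rw [Module.End.mul_apply, ((hL x).1 hx).2, map_zero]⟩)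
    (by
      rintro ⟨x, hx, n, hn, hxn⟩
      rw [hnc] at hn
      have h1 : n y = y := by
        have := LinearMap.congr_fun hxn y
        rw [LinearMap.add_apply, ((hL x).1 hx).2, zero_add, Module.End.one_apply] at this
        exact this
      obtain ⟨j, hj⟩ := hnil n hn
      have h2 : ∀ i : ℕ, ((n : Module.End Ω (P.H V)) ^ i) y = y := by
        intro i
        induction i with
        | zero => rw [pow_zero, Module.End.one_apply]
        | succ i ih => rw [pow_succ, Module.End.mul_apply, h1, ih]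
      have h3 := h2 j
      rw [hj, LinearMap.zero_apply] at h3
      exact hy0 h3.symm)
  refine ⟨e, ((hL e).1 heL).1, hee, hrk, fun Y T hT hTy => ?_⟩
  have heM : e ∈ Mor P V V := ((hL e).1 heL).1
  refine ⟨sub_mem hT ((isCat V Y).BA T hT e heM), fun S hS => ?_⟩
  have h1 : S ∘ₗ T ∈ L := (hL _).2 ⟨(isCat V Y).CB S hS T hT, by
    rw [LinearMap.comp_apply, hTy, map_zero]⟩
  have h2 := hLe _ h1
  rw [hnc] at h2
  have h3 := h2.2 LinearMap.id (isCat V V).idA
  rw [LinearMap.id_comp] at h3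
  have h4 : S ∘ₗ (T - T ∘ₗ e) ∘ₗ par P V =
      ((S ∘ₗ T : Module.End Ω (P.H V)) - (S ∘ₗ T : Module.End Ω (P.H V)) * e) ∘ₗ par P V := by
    refine LinearMap.ext fun x => ?_
    simp only [LinearMap.comp_apply, LinearMap.sub_apply, map_sub, Module.End.mul_apply]
  rw [h4]
  exact h3

/-- G5c -/
theorem layer [CharZero Ω] {V Z : SmProjVar k} {y : P.H V} {z : P.H Z} (hy : y ∈ P.alg V)
    (hy0 : y ≠ 0) (hz : P.rad Z z)
    (hnil : ∀ x ∈ Nul P V V, IsNilpotent (x : Module.End Ω (P.H V))) (Y : SmProjVar k) :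
    Module.finrank Ω (cyc P (P.ext V Z y z) (Y.prod Y)) + nr P (V.prod (Y.prod Y)) ≤
      Module.finrank Ω (cyc P y (Y.prod Y)) +
        (Module.finrank Ω (P.H V) - 1) * nr P (Y.prod Y) := by
  obtain ⟨e, heM, hee, hrk, hann⟩ := G5c_ann (P := P) hy0 hnil
  have h1 := Submodule.finrank_mono (G5c_cyc_le (P := P) (y := y) hz (Y.prod Y))
  have hadj : adj e ∈ Mor P V V := adj_mem_Mor heM
  have hadj2 : adj e ∘ₗ adj e = adj e := by rw [← adj_comp, hee]
  have h2 := rho_le (P := P) V Y hadj hadj2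
  rw [finrank_range_adj] at h2
  have h3 : rho P (tmap (adj e) (LinearMap.id : P.H (Y.prod Y) →ₗ[Ω] P.H (Y.prod Y))) =
      rdim (Nul P V (Y.prod Y)) ((Mor P V (Y.prod Y)).map (precomp e)) := by
    unfold rho
    rw [← rdim_map_opL, ← map_opL_alg, ← Submodule.map_comp, ← Submodule.map_comp]
    congr 2
    refine LinearMap.ext fun c => ?_
    rw [LinearMap.comp_apply, LinearMap.comp_apply, opL_apply, opL_apply, op_tmap, adj_adj heM,
      LinearMap.id_comp]
    rfl
  have h4 : rdim (Nul P V (Y.prod Y))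
      (Mor P V (Y.prod Y) ⊓ LinearMap.ker (LinearMap.applyₗ y)) ≤
      (Module.finrank Ω (P.H V) - 1) * nr P (Y.prod Y) := by
    refine (G5c_rdim_mono (S' := (Mor P V (Y.prod Y)).map (precomp e)) ?_).trans ?_
    · rintro T ⟨hT, hTy⟩
      have h5 := hann _ T hT (LinearMap.mem_ker.1 hTy)
      have h6 : T = precomp e T + (T - T ∘ₗ e) := by
        rw [show precomp e T = T ∘ₗ e from rfl, add_sub_cancel]
      rw [h6]
      exact Submodule.add_mem_sup ⟨T, hT, rfl⟩ h5
    · rw [← h3]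
      exact h2.trans (Nat.mul_le_mul_right _ (by omega))
  have h5 := G5c_count (LinearMap.applyₗ y) (G5c_Nul_le (P := P) V (Y.prod Y)) h4
  rw [rdim_Mor] at h5
  unfold cyc at h1 ⊢
  omega

end Pool.Agent.Helper34.ZP
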