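import Mathlib
import Pool.Agent.Helper34.ZP.Defs
import Pool.Agent.Helper10.ZP.Gro

/-!
# The classes of the permutations of the factors
-/

universe u v w t

open CategoryTheory TensorProduct

namespace Pool.Agent.Helper34.ZP

open Pool.Agent.Helper10 Pool.Agent.Helper11.Iso SmProjVar SPre

variable {k : Type u} [Field k] {K : Type t} [Field K] {Ω : Type v} [Field Ω] [Algebra K Ω]
  {P : SPre.{u, v, w, t} k K Ω}

lemma g6_extPow_congr (X : SmProjVar k) (n : ℕ) {y y' : ℕ → P.H X} (h : ∀ j ≤ n, y j = y' j) :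
    P.extPow X n y = P.extPow X n y' := by
  induction n with
  | zero => exact h 0 le_rfl
  | succ n ih =>
    change P.ext (X.selfProd n) X (P.extPow X n y) (y (n + 1)) =
      P.ext (X.selfProd n) X (P.extPow X n y') (y' (n + 1))
    rw [ih fun j hj => h j (by omega), h (n + 1) le_rfl]

/-- a basis of homogeneous elements -/
lemma g6_exists_basis (P : SPre.{u, v, w, t} k K Ω) (X : SmProjVar k) :
    ∃ (J : Type w) (_ : Fintype J) (b : Module.Basis J Ω (P.H X)), ∀ j, P.Hom X (b j) := by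
  have := P.fin X
  obtain ⟨s, hs, hspan, hli⟩ := exists_linearIndependent Ω {x : P.H X | P.Hom X x}
  have : Finite s := hli.setFinite
  have h1 : ⊤ ≤ Submodule.span Ω (Set.range ((↑) : s → P.H X)) := by
    rw [Subtype.range_coe, hspan, hom_span]
  refine ⟨s, Fintype.ofFinite s, Module.Basis.mk hli h1, fun j => ?_⟩
  rw [Module.Basis.mk_apply]
  exact hs j.2

/-- words -/
def g6_snoc (n : ℕ) (J : Type*) : (Fin (n + 1) → J) × J ≃ (Fin (n + 2) → J) where
  toFun p := Fin.snoc (α := fun _ => J) p.1 p.2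
  invFun w := (Fin.init w, w (Fin.last _))
  left_inv p := by
    refine Prod.ext ?_ ?_
    · exact Fin.init_snoc (α := fun _ => J) _ _
    · exact Fin.snoc_last (α := fun _ => J) _ _
  right_inv w := Fin.snoc_init_self (α := fun _ => J) w

/-- the word in the letters `b j` -/
noncomputable def g6_word {X : SmProjVar k} {J : Type*} (b : J → P.homSub X) (n : ℕ)
    (w : Fin (n + 1) → J) : ℕ → P.homSub X :=
  fun j => if h : j < n + 1 then b (w ⟨j, h⟩) else 1

lemma g6_word_basis {X : SmProjVar k} {J : Type w} (b : Module.Basis J Ω (P.H X))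
    (hb : ∀ j, P.Hom X (b j)) (n : ℕ) :
    ∃ B : Module.Basis (Fin (n + 1) → J) Ω (P.H (X.selfProd n)), ∀ w,
      B w = P.extPow X n (fun j => g6_word (fun j => ⟨b j, hb j⟩) n w j) := by
  induction n with
  | zero =>
    have h1 : ∀ w : Fin 1 → J, (b.reindex (Equiv.funUnique (Fin 1) J).symm) w = b (w 0) :=
      fun w => by rw [Module.Basis.reindex_apply]; rfl
    refine ⟨b.reindex (Equiv.funUnique (Fin 1) J).symm, fun w => (h1 w).trans ?_⟩
    change b (w 0) = ((g6_word (fun j => (⟨b j, hb j⟩ : P.homSub X)) 0 w 0 : P.homSub X) : P.H X)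
    rw [g6_word, dif_pos (by omega)]
    rfl
  | succ n ih =>
    obtain ⟨B, hB⟩ := ih
    have h1 : ∀ w : Fin (n + 2) → J,
        (((B.tensorProduct b).map (kun P (X.selfProd n) X)).reindex (g6_snoc n J)) w =
          P.ext (X.selfProd n) X (B (Fin.init w)) (b (w (Fin.last _))) := fun w => by
      rw [Module.Basis.reindex_apply, Module.Basis.map_apply, ← kun_tmul,
        ← Module.Basis.tensorProduct_apply]
      rfl
    refine ⟨((B.tensorProduct b).map (kun P (X.selfProd n) X)).reindex (g6_snoc n J),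
      fun w => (h1 w).trans ?_⟩
    change _ = P.ext (X.selfProd n) X (P.extPow X n (fun j =>
        (g6_word (fun j => (⟨b j, hb j⟩ : P.homSub X)) (n + 1) w j : P.H X)))
        (g6_word (fun j => (⟨b j, hb j⟩ : P.homSub X)) (n + 1) w (n + 1) : P.H X)
    rw [hB]
    congr 1
    · refine g6_extPow_congr X n fun j hj => ?_
      rw [g6_word, g6_word, dif_pos (by omega), dif_pos (by omega)]
      rfl
    · rw [g6_word, dif_pos (by omega)]
      rfl

/-- the morphism which permutes the factors -/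
noncomputable def g6_perm (X : SmProjVar k) (n : ℕ) (σ : Equiv.Perm (Fin (n + 1))) :
    (X.selfProd n).toOver ⟶ (X.selfProd n).toOver :=
  liftPow (fun j => X.projPow n
    (if h : j < n + 1 then ((σ⁻¹ ⟨j, h⟩ : Fin (n + 1)) : ℕ) else 0)) n

lemma g6_pull_word {X : SmProjVar k} {J : Type*} (b : J → P.homSub X) (n : ℕ)
    (σ : Equiv.Perm (Fin (n + 1))) (w : Fin (n + 1) → J) :
    P.cls _ (P.pullHom (g6_perm X n σ) (P.extPowHom X n (g6_word b n w))) =
      P.cls _ (P.extPowHom X n (g6_word b n (w ∘ σ))) := by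
  rw [g6_perm, pull_liftPow, cls_extPowHom, Finset.prod_range, Finset.prod_range]
  rw [← Equiv.prod_comp σ]
  refine Finset.prod_congr rfl fun i _ => ?_
  have h1 : ((σ i : Fin (n + 1)) : ℕ) < n + 1 := (σ i).2
  rw [g6_word, g6_word, dif_pos h1, dif_pos h1, dif_pos i.2]
  simp

theorem g6_isMap_op {X Y : SmProjVar k} {f : P.H X →ₗ[Ω] P.H Y} (hf : P.IsMap X Y f) :
    ∃ c ∈ P.alg (X.prod Y), opL P X Y c = f := by
  obtain ⟨c, hc, h⟩ := hf
  refine ⟨c, hc, LinearMap.ext fun x => eq_of_tr fun y => ?_⟩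
  rw [opL_apply, op_apply, tr_pushF, h]

theorem growth_pow [CharZero Ω] (X : SmProjVar k) (l : ℕ) :
    Module.finrank Ω (P.H X) ^ (2 * (l + 1)) ≤ hr P ((X.selfProd l).prod (X.selfProd l)) *
      (l + 2) ^ (Module.finrank Ω (P.H X) ^ 2) := by
  obtain ⟨J, _, b, hb⟩ := g6_exists_basis P X
  obtain ⟨B, hB⟩ := g6_word_basis b hb l
  have := P.fin ((X.selfProd l).prod (X.selfProd l))
  have h1 := Pool.Agent.Helper10.ZP.gro (l + 1) B (fun σ => (P.pull (g6_perm X l σ)).toLinearMap) (fun σ w => by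
    have h2 := (P.cls_eq _ _ _).mp (g6_pull_word (P := P) (fun j => ⟨b j, hb j⟩) l σ w)
    rw [coe_pullHom, coe_extPowHom, coe_extPowHom, ← hB, ← hB] at h2
    exact h2)
  rw [← Module.finrank_eq_card_basis b] at h1
  refine h1.trans (Nat.mul_le_mul_right _ ?_)
  have h3 : Submodule.span Ω (Set.range fun σ => (P.pull (g6_perm X l σ)).toLinearMap) ≤
      (P.alg ((X.selfProd l).prod (X.selfProd l))).map (opL P (X.selfProd l) (X.selfProd l)) := by
    rw [Submodule.span_le]
    rintro _ ⟨σ, rfl⟩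
    obtain ⟨c, hc, h⟩ := g6_isMap_op (isMap_pull (P := P) (g6_perm X l σ))
    exact ⟨c, hc, h⟩
  have := P.fin (X.selfProd l)
  exact (Submodule.finrank_mono h3).trans (Submodule.finrank_map_le _ _)

end Pool.Agent.Helper34.ZP
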