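import Pool.Agent.Helper34.ZP.Defs
import Pool.Agent.Helper34.ZP.Rdim

/-!
# The zero-one law for all powers: retracts and powers
-/

universe u v w t

open CategoryTheory TensorProduct

namespace Pool.Agent.Helper34.ZP

open Pool.Agent.Helper10 Pool.Agent.Helper11.Iso SmProjVar SPre

variable {k : Type u} [Field k] {K : Type t} [Field K] {Ω : Type v} [Field Ω] [Algebra K Ω]
  {P : SPre.{u, v, w, t} k K Ω}

lemma G7_retract_pull {A B : SmProjVar k} {i : A.toOver ⟶ B.toOver} {p : B.toOver ⟶ A.toOver}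
    (h : i ≫ p = 𝟙 A.toOver) (x : P.H A) : P.pull i (P.pull p x) = x := by
  rw [pull_pull, h, P.pull_id, AlgHom.id_apply]

theorem hr_le_of_retract {A B : SmProjVar k} (h : Retract A B) : hr P A ≤ hr P B := by
  obtain ⟨i, p, h⟩ := h
  unfold hr
  have h1 : P.alg A ≤ (P.alg B).map (P.pull i).toLinearMap := fun x hx =>
    ⟨P.pull p x, P.pull_mem p _ hx, G7_retract_pull h x⟩
  exact (Submodule.finrank_mono h1).trans (Submodule.finrank_map_le _ _)

theorem nr_le_of_retract {A B : SmProjVar k} (h : Retract A B) : nr P A ≤ nr P B := by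
  obtain ⟨i, p, h⟩ := h
  refine rdim_le_of_map (P.pull i).toLinearMap (fun x hx _ => rad_pull i hx) fun y hy => ?_
  refine ⟨P.pull p y, P.pull_mem p _ hy, ?_⟩
  rw [AlgHom.toLinearMap_apply, G7_retract_pull h y, sub_self]
  exact zero_mem _

lemma G7_assoc (A B C : SmProjVar k) : Retract ((A.prod B).prod C) (A.prod (B.prod C)) := by
  refine ⟨lift (fst _ _ ≫ fst _ _) (lift (fst _ _ ≫ snd _ _) (snd _ _)),
    lift (lift (fst _ _) (snd _ _ ≫ fst _ _)) (snd _ _ ≫ snd _ _), ?_⟩
  apply hom_ext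
  · apply hom_ext
    · simp only [Category.assoc, lift_fst, Category.id_comp]
    · simp only [Category.assoc, lift_fst, lift_snd, lift_snd_assoc, Category.id_comp]
  · simp only [Category.assoc, lift_snd, lift_snd_assoc, Category.id_comp]

lemma G7_pow_prod_pow (X : SmProjVar k) (a b : ℕ) :
    Retract (X.selfProd (a + b + 1)) ((X.selfProd a).prod (X.selfProd b)) := by
  induction b with
  | zero => exact Retract.refl _
  | succ b ih =>
    exact (ih.prod (Retract.refl X)).trans (G7_assoc (X.selfProd a) (X.selfProd b) X)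

theorem hr_pow_prod_pow (X : SmProjVar k) (a b : ℕ) :
    hr P ((X.selfProd a).prod (X.selfProd b)) = hr P (X.selfProd (a + b + 1)) :=
  le_antisymm (hr_le_of_retract (Retract.pow_prod_pow X a b))
    (hr_le_of_retract (G7_pow_prod_pow X a b))

theorem nr_pow_prod_pow (X : SmProjVar k) (a b : ℕ) :
    nr P ((X.selfProd a).prod (X.selfProd b)) = nr P (X.selfProd (a + b + 1)) :=
  le_antisymm (nr_le_of_retract (Retract.pow_prod_pow X a b))
    (nr_le_of_retract (G7_pow_prod_pow X a b))

lemma G7_pow_pow (X : SmProjVar k) (a b c : ℕ) (hc : c + 1 = (a + 1) * (b + 1)) :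
    Retract ((X.selfProd a).selfProd b) (X.selfProd c) ∧
      Retract (X.selfProd c) ((X.selfProd a).selfProd b) := by
  induction b generalizing c with
  | zero =>
    have : c = a := by omega
    subst this
    exact ⟨Retract.refl _, Retract.refl _⟩
  | succ b ih =>
    have h0 : 0 < (a + 1) * (b + 1) := Nat.mul_pos (Nat.succ_pos a) (Nat.succ_pos b)
    obtain ⟨d, hd⟩ : ∃ d, d + 1 = (a + 1) * (b + 1) := ⟨(a + 1) * (b + 1) - 1, by omega⟩
    have h1 : (a + 1) * (b + 1 + 1) = (a + 1) * (b + 1) + (a + 1) := Nat.mul_succ _ _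
    have h2 : c = d + a + 1 := by omega
    subst h2
    obtain ⟨h3, h4⟩ := ih d hd
    exact ⟨(h3.prod (Retract.refl _)).trans (Retract.pow_prod_pow X d a),
      (G7_pow_prod_pow X d a).trans (h4.prod (Retract.refl _))⟩

/-- powers of powers, and two more factors -/
theorem nr_pow_pow (X : SmProjVar k) (a b c : ℕ) :
    nr P (((X.selfProd a).selfProd b).prod ((X.selfProd c).prod (X.selfProd c))) =
      nr P (X.selfProd ((a + 1) * (b + 1) + 2 * c + 1)) := by
  have h0 : 0 < (a + 1) * (b + 1) := Nat.mul_pos (Nat.succ_pos a) (Nat.succ_pos b)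
  obtain ⟨d, hd⟩ : ∃ d, d + 1 = (a + 1) * (b + 1) := ⟨(a + 1) * (b + 1) - 1, by omega⟩
  have h1 : (a + 1) * (b + 1) + 2 * c + 1 = d + (c + c + 1) + 1 := by omega
  rw [h1]
  obtain ⟨h3, h4⟩ := G7_pow_pow X a b d hd
  exact le_antisymm
    (nr_le_of_retract ((h3.prod (Retract.pow_prod_pow X c c)).trans
      (Retract.pow_prod_pow X d (c + c + 1))))
    (nr_le_of_retract ((G7_pow_prod_pow X d (c + c + 1)).trans
      (h4.prod (G7_pow_prod_pow X c c))))

lemma G7_proj (X : SmProjVar k) (a : ℕ) : Nonempty ((X.selfProd a).toOver ⟶ X.toOver) := by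
  cases a with
  | zero => exact ⟨𝟙 _⟩
  | succ a => exact ⟨snd (X.selfProd a) X⟩

lemma G7_retract_succ (X : SmProjVar k) (a : ℕ) :
    Retract (X.selfProd a) (X.selfProd (a + 1)) := by
  obtain ⟨g⟩ := G7_proj X a
  exact ⟨lift (𝟙 _) g, fst (X.selfProd a) X, lift_fst _ _⟩

theorem hr_le_succ (X : SmProjVar k) (a : ℕ) : hr P (X.selfProd a) ≤ hr P (X.selfProd (a + 1)) :=
  hr_le_of_retract (G7_retract_succ X a)

theorem nr_le_succ (X : SmProjVar k) (a : ℕ) : nr P (X.selfProd a) ≤ nr P (X.selfProd (a + 1)) :=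
  nr_le_of_retract (G7_retract_succ X a)

end Pool.Agent.Helper34.ZP
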