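import Mathlib

/-!
# The zero-one law for all powers: numbers, the case in which all null elements are nilpotent
-/

namespace Pool.Agent.Helper34.ZP

open Filter Topology

/-- log-convexity: the quotients `c (l + 1) / c l` do not decrease -/
lemma P5c_ratio_mono {c : ℕ → ℕ} (hc : ∀ l, 1 ≤ c l)
    (hconv : ∀ l, c (l + 1) ^ 2 ≤ c l * c (l + 2)) :
    Monotone fun l => (c (l + 1) : ℝ) / c l := by
  refine monotone_nat_of_le_succ fun l => ?_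
  have h0 : (0 : ℝ) < c l := by exact_mod_cast hc l
  have h1 : (0 : ℝ) < c (l + 1) := by exact_mod_cast hc (l + 1)
  rw [div_le_div_iff₀ h0 h1]
  have h2 : (c (l + 1) : ℝ) ^ 2 ≤ c l * c (l + 2) := by exact_mod_cast hconv l
  calc (c (l + 1) : ℝ) * c (l + 1) = (c (l + 1) : ℝ) ^ 2 := by ring
    _ ≤ c l * c (l + 2) := h2
    _ = c (l + 1 + 1) * c l := by ring

/-- lower bound from the quotient -/
lemma P5c_le_of_ratio {c : ℕ → ℕ} (hc : ∀ l, 1 ≤ c l)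
    (hconv : ∀ l, c (l + 1) ^ 2 ≤ c l * c (l + 2)) {ρ : ℝ} (hρ : 0 ≤ ρ) {l : ℕ}
    (hl : ρ ≤ (c (l + 1) : ℝ) / c l) (j : ℕ) : ρ ^ j * c l ≤ c (l + j) := by
  induction j with
  | zero => simp
  | succ j ih =>
    have h0 : (0 : ℝ) < c (l + j) := by exact_mod_cast hc (l + j)
    have h1 : ρ ≤ (c (l + j + 1) : ℝ) / c (l + j) :=
      hl.trans (P5c_ratio_mono hc hconv (Nat.le_add_right l j))
    rw [le_div_iff₀ h0] at h1
    calc ρ ^ (j + 1) * c l = ρ * (ρ ^ j * c l) := by ring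
      _ ≤ ρ * c (l + j) := mul_le_mul_of_nonneg_left ih hρ
      _ ≤ c (l + j + 1) := h1

/-- upper bound from the quotients -/
lemma P5c_le_of_le {c : ℕ → ℕ} (hc : ∀ l, 1 ≤ c l) {ρ : ℝ} (hρ : 0 ≤ ρ)
    (hl : ∀ l, (c (l + 1) : ℝ) / c l ≤ ρ) (j : ℕ) : (c j : ℝ) ≤ ρ ^ j * c 0 := by
  induction j with
  | zero => simp
  | succ j ih =>
    have h0 : (0 : ℝ) < c j := by exact_mod_cast hc j
    have h1 := hl j
    rw [div_le_iff₀ h0] at h1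
    calc (c (j + 1) : ℝ) ≤ ρ * c j := h1
      _ ≤ ρ * (ρ ^ j * c 0) := mul_le_mul_of_nonneg_left ih hρ
      _ = ρ ^ (j + 1) * c 0 := by ring

/-- an exponentially smaller sequence -/
lemma P5c_small {a c : ℕ → ℕ} {b d : ℕ} (hb : 1 ≤ b) (hc : ∀ l, 1 ≤ c l)
    (hgr : ∀ l, b ^ (2 * l) ≤ a l * (l + 2) ^ d) {ρ : ℝ} (hρ0 : 0 ≤ ρ) (hρ : ρ < (b : ℝ) ^ 2)
    (hl : ∀ l, (c (l + 1) : ℝ) / c l ≤ ρ) (m : ℕ) : ∃ L, ∀ l ≥ L, m * c l ≤ a l := by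
  have hbr : (0 : ℝ) < (b : ℝ) ^ 2 := by
    have : (0 : ℝ) < b := by exact_mod_cast hb
    positivity
  set q : ℝ := ρ / (b : ℝ) ^ 2 with hq
  have hq0 : 0 ≤ q := by positivity
  have hq1 : q < 1 := by rw [hq, div_lt_one hbr]; exact hρ
  -- `(m c 0) q ^ l (l + 2) ^ d → 0`
  have hlim : Tendsto (fun l : ℕ => (m * c 0 : ℝ) * (3 ^ d * ((l : ℝ) ^ d * q ^ l))) atTop
      (𝓝 0) := by
    have h1 := tendsto_pow_const_mul_const_pow_of_lt_one d hq0 hq1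
    have h2 := (h1.const_mul ((3 : ℝ) ^ d)).const_mul (m * c 0 : ℝ)
    simpa using h2
  obtain ⟨L, hL⟩ := eventually_atTop.1 ((hlim.eventually (gt_mem_nhds zero_lt_one)).and
    (eventually_ge_atTop 1))
  refine ⟨L, fun l hlL => ?_⟩
  obtain ⟨h1, h2⟩ := hL l hlL
  have h3 : ((l : ℝ) + 2) ^ d ≤ 3 ^ d * (l : ℝ) ^ d := by
    rw [← mul_pow]
    apply pow_le_pow_left₀ (by positivity)
    have : (1 : ℝ) ≤ l := by exact_mod_cast h2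
    linarith
  have h4 : ((b : ℝ) ^ 2) ^ l ≤ a l * ((l : ℝ) + 2) ^ d := by
    rw [← pow_mul]
    exact_mod_cast hgr l
  have h5 : (c l : ℝ) ≤ ρ ^ l * c 0 := P5c_le_of_le hc hρ0 hl l
  have h6 : ρ ^ l = q ^ l * ((b : ℝ) ^ 2) ^ l := by
    rw [← mul_pow, hq, div_mul_cancel₀ _ hbr.ne']
  have hl2 : (0 : ℝ) < ((l : ℝ) + 2) ^ d := by positivity
  have h7 : (m : ℝ) * c l * ((l : ℝ) + 2) ^ d ≤ a l * ((l : ℝ) + 2) ^ d := by
    calc (m : ℝ) * c l * ((l : ℝ) + 2) ^ d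
        ≤ m * (ρ ^ l * c 0) * (3 ^ d * (l : ℝ) ^ d) := by gcongr
      _ = ((m * c 0 : ℝ) * (3 ^ d * ((l : ℝ) ^ d * q ^ l))) * ((b : ℝ) ^ 2) ^ l := by
          rw [h6]; ring
      _ ≤ 1 * ((b : ℝ) ^ 2) ^ l := by
          apply mul_le_mul_of_nonneg_right h1.le (by positivity)
      _ = ((b : ℝ) ^ 2) ^ l := one_mul _
      _ ≤ a l * ((l : ℝ) + 2) ^ d := h4
  have h8 := le_of_mul_le_mul_right h7 hl2
  exact_mod_cast h8

/-- P5c: the case in which all null elements are nilpotent -/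
theorem ana_B {a c : ℕ → ℕ} {b d s : ℕ} (hb : 1 ≤ b) (hs : 1 ≤ s) (hc : ∀ l, 1 ≤ c l)
    (hconv : ∀ l, c (l + 1) ^ 2 ≤ c l * c (l + 2)) (hgr : ∀ l, b ^ (2 * l) ≤ a l * (l + 2) ^ d)
    (h : ∀ k0 l, c l + ∑ k ∈ Finset.range k0, c (l + s * (k + 1)) ≤
      a l + ∑ k ∈ Finset.range k0, (b ^ (2 * s * (k + 1)) - 1) * c l) (m : ℕ) :
    ∃ L, ∀ l ≥ L, m * c l ≤ a l := by
  have hb1 : (1 : ℝ) ≤ b := by exact_mod_cast hb
  have hB1 : (1 : ℝ) ≤ (b : ℝ) ^ 2 := one_le_pow₀ hb1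
  by_cases hcase : ∃ ρ : ℝ, 0 ≤ ρ ∧ ρ < (b : ℝ) ^ 2 ∧ ∀ l, (c (l + 1) : ℝ) / c l ≤ ρ
  · obtain ⟨ρ, hρ0, hρ, hl⟩ := hcase
    exact P5c_small hb hc hgr hρ0 hρ hl m
  push Not at hcase
  -- choice of `ρ`
  have hcont : Tendsto (fun ρ : ℝ => ∑ k ∈ Finset.range m,
      (((b : ℝ) ^ 2) ^ (s * (k + 1)) - ρ ^ (s * (k + 1)))) (𝓝 ((b : ℝ) ^ 2)) (𝓝 0) := by
    have h1 : Continuous fun ρ : ℝ => ∑ k ∈ Finset.range m,
        (((b : ℝ) ^ 2) ^ (s * (k + 1)) - ρ ^ (s * (k + 1))) := by fun_prop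
    have h2 := h1.tendsto ((b : ℝ) ^ 2)
    simpa using h2
  have hev : ∀ᶠ ρ in 𝓝 ((b : ℝ) ^ 2), ∑ k ∈ Finset.range m,
      (((b : ℝ) ^ 2) ^ (s * (k + 1)) - ρ ^ (s * (k + 1))) < 1 ∧ 0 < ρ :=
    (hcont.eventually (gt_mem_nhds zero_lt_one)).and (lt_mem_nhds (by linarith))
  obtain ⟨ρ, ⟨hρ1, hρ0⟩, hρb⟩ : ∃ ρ : ℝ, (∑ k ∈ Finset.range m,
      (((b : ℝ) ^ 2) ^ (s * (k + 1)) - ρ ^ (s * (k + 1))) < 1 ∧ 0 < ρ) ∧ ρ < (b : ℝ) ^ 2 := by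
    have h1 : ∀ᶠ ρ in 𝓝[<] ((b : ℝ) ^ 2), _ := hev.filter_mono nhdsWithin_le_nhds
    exact (h1.and self_mem_nhdsWithin).exists
  obtain ⟨L, hL⟩ := hcase ρ hρ0.le hρb
  refine ⟨L, fun l hl => ?_⟩
  have hratio : ρ ≤ (c (l + 1) : ℝ) / c l := hL.le.trans (P5c_ratio_mono hc hconv hl)
  have hcl : (0 : ℝ) < c l := by exact_mod_cast hc l
  have h1 : (c l : ℝ) + ∑ k ∈ Finset.range m, (c (l + s * (k + 1)) : ℝ) ≤
      a l + ∑ k ∈ Finset.range m, (((b : ℝ) ^ 2) ^ (s * (k + 1)) - 1) * c l := by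
    have h2 := h m l
    have h3 : ((c l + ∑ k ∈ Finset.range m, c (l + s * (k + 1)) : ℕ) : ℝ) ≤
        ((a l + ∑ k ∈ Finset.range m, (b ^ (2 * s * (k + 1)) - 1) * c l : ℕ) : ℝ) := by
      exact_mod_cast h2
    push_cast at h3
    have h4 : ∀ k, (((b ^ (2 * s * (k + 1)) - 1 : ℕ)) : ℝ) =
        ((b : ℝ) ^ 2) ^ (s * (k + 1)) - 1 := by
      intro k
      rw [Nat.cast_sub (Nat.one_le_pow _ _ hb), Nat.cast_pow, Nat.cast_one, ← pow_mul]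
      congr 2
      ring
    simp only [h4] at h3
    exact h3
  have h2 : ∑ k ∈ Finset.range m, ρ ^ (s * (k + 1)) * (c l : ℝ) ≤
      ∑ k ∈ Finset.range m, (c (l + s * (k + 1)) : ℝ) :=
    Finset.sum_le_sum fun k _ => P5c_le_of_ratio hc hconv hρ0.le hratio _
  have h3 : (m : ℝ) * c l ≤ a l := by
    have e1 : ∑ k ∈ Finset.range m, (((b : ℝ) ^ 2) ^ (s * (k + 1)) - 1) * (c l : ℝ) =
        (∑ k ∈ Finset.range m, (((b : ℝ) ^ 2) ^ (s * (k + 1)) - ρ ^ (s * (k + 1)))) * c l +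
          ∑ k ∈ Finset.range m, ρ ^ (s * (k + 1)) * (c l : ℝ) - m * c l := by
      rw [Finset.sum_mul, ← Finset.sum_add_distrib]
      have e2 : (m : ℝ) * c l = ∑ _k ∈ Finset.range m, (c l : ℝ) := by
        rw [Finset.sum_const, Finset.card_range, nsmul_eq_mul]
      rw [e2, ← Finset.sum_sub_distrib]
      apply Finset.sum_congr rfl
      intro k _
      ring
    rw [e1] at h1
    have h4 : (∑ k ∈ Finset.range m, (((b : ℝ) ^ 2) ^ (s * (k + 1)) - ρ ^ (s * (k + 1)))) *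
        (c l : ℝ) ≤ 1 * c l := mul_le_mul_of_nonneg_right hρ1.le hcl.le
    linarith
  exact_mod_cast h3

end Pool.Agent.Helper34.ZP
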