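import Mathlib
import Pool.Agent.Helper34.ZP.G4
import Pool.Agent.Helper34.ZP.P5c
import Pool.Agent.Helper34.ZP.G5
import Pool.Agent.Helper34.ZP.G5c
import Pool.Agent.Helper34.ZP.G6
import Pool.Agent.Helper34.ZP.G7
import Pool.Agent.Helper47.ZP.Rate

/-!
# The zero-one law for all powers
-/

universe u v w t

open CategoryTheory TensorProduct

namespace Pool.Agent.Helper34.ZP

open Pool.Agent.Helper10 Pool.Agent.Helper11.Iso SmProjVar SPre

variable {k : Type u} [Field k] {K : Type t} [Field K] {Ω : Type v} [Field Ω] [Algebra K Ω]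
  {P : SPre.{u, v, w, t} k K Ω}

/-- the powers of `z` -/
noncomputable def zpow {Z : SmProjVar k} (z : P.H Z) : ∀ n, P.H (Z.selfProd n)
  | 0 => z
  | n + 1 => P.ext (Z.selfProd n) Z (zpow z n) z

lemma zpow_mem {Z : SmProjVar k} {z : P.H Z} (hz : z ∈ P.alg Z) (n : ℕ) :
    zpow z n ∈ P.alg (Z.selfProd n) := by
  induction n with
  | zero => exact hz
  | succ n ih => exact P.mul_mem _ _ _ (P.pull_mem _ _ ih) (P.pull_mem _ _ hz)

lemma zpow_ne_zero {Z : SmProjVar k} {z : P.H Z} (hz : z ≠ 0) (n : ℕ) : zpow z n ≠ 0 := by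
  induction n with
  | zero => exact hz
  | succ n ih => exact ext_ne_zero ih hz

/-- the sum of the layers -/
lemma layers [CharZero Ω] {Z : SmProjVar k} {z : P.H Z} (hz : P.rad Z z) (hz0 : z ≠ 0)
    (hnil : ∀ n, ∀ x ∈ Nul P (Z.selfProd n) (Z.selfProd n),
      IsNilpotent (x : Module.End Ω (P.H (Z.selfProd n)))) (Y : SmProjVar k) (n : ℕ) :
    Module.finrank Ω (cyc P (zpow z n) (Y.prod Y)) + (nr P (Y.prod Y) +
      ∑ i ∈ Finset.range n, nr P ((Z.selfProd i).prod (Y.prod Y))) ≤ hr P (Y.prod Y) +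
        ∑ i ∈ Finset.range n, (Module.finrank Ω (P.H (Z.selfProd i)) - 1) *
          nr P (Y.prod Y) := by
  induction n with
  | zero =>
    have h := layer_zero hz (Y.prod Y)
    rw [Finset.sum_range_zero, Finset.sum_range_zero, add_zero, add_zero]
    exact h
  | succ n ih =>
    have h := layer (zpow_mem hz.1 n) (zpow_ne_zero hz0 n) hz (hnil n) Y
    have h' : Module.finrank Ω (cyc P (zpow z (n + 1)) (Y.prod Y)) +
        nr P ((Z.selfProd n).prod (Y.prod Y)) ≤
        Module.finrank Ω (cyc P (zpow z n) (Y.prod Y)) +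
          (Module.finrank Ω (P.H (Z.selfProd n)) - 1) * nr P (Y.prod Y) := h
    rw [Finset.sum_range_succ, Finset.sum_range_succ]
    omega

/-- D fails for an even power -/
lemma exists_even {X : SmProjVar k} (hD : ¬ P.DP X) :
    ∃ (n : ℕ) (z : P.H (X.selfProd (2 * n + 1))), P.rad _ z ∧ z ≠ 0 := by
  obtain ⟨n, hn⟩ : ∃ n, ¬ P.D (X.selfProd n) := by
    by_contra hcon
    push Not at hcon
    exact hD hcon
  have h1 : Retract (X.selfProd n) (X.selfProd (2 * n + 1)) := by
    have h2 : Retract (X.selfProd n) ((X.selfProd n).prod (X.selfProd n)) :=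
      ⟨lift (𝟙 _) (𝟙 _), fst _ _, lift_fst _ _⟩
    have h3 := h2.trans (Retract.pow_prod_pow X n n)
    rwa [← two_mul] at h3
  refine ⟨n, ?_⟩
  by_contra hcon
  push Not at hcon
  exact hn (SPre.D.retract h1 fun z hz => hcon z hz)

lemma one_le_finrank (hpt : ∀ Y, 1 ≤ nr P Y) (X : SmProjVar k) :
    1 ≤ Module.finrank Ω (P.H X) := by
  have h1 := hpt X
  have h2 : nr P X ≤ hr P X := rdim_le _ _
  have h3 : hr P X ≤ Module.finrank Ω (P.H X) := Submodule.finrank_le _
  omega

/-- log-convexity -/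
lemma even_conv [CharZero Ω] (X : SmProjVar k) (l : ℕ) :
    nr P (X.selfProd (2 * (l + 1) + 1)) ^ 2 ≤
      nr P (X.selfProd (2 * l + 1)) * nr P (X.selfProd (2 * (l + 2) + 1)) := by
  have h := nr_sq_le (P := P) (X.selfProd l) (X.selfProd (l + 2))
  rw [nr_pow_prod_pow, nr_pow_prod_pow, nr_pow_prod_pow] at h
  have e1 : l + (l + 2) + 1 = 2 * (l + 1) + 1 := by ring
  have e2 : l + 2 + (l + 2) + 1 = 2 * (l + 2) + 1 := by ring
  have e3 : l + l + 1 = 2 * l + 1 := by ring
  rw [e1, e2, e3] at h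
  exact h.trans_eq (mul_comm _ _)

/-- growth -/
lemma even_growth [CharZero Ω] (hpt : ∀ Y, 1 ≤ nr P Y) (X : SmProjVar k) (l : ℕ) :
    Module.finrank Ω (P.H X) ^ (2 * l) ≤
      hr P (X.selfProd (2 * l + 1)) * (l + 2) ^ (Module.finrank Ω (P.H X) ^ 2) := by
  have h := growth_pow (P := P) X l
  rw [hr_pow_prod_pow] at h
  have e3 : l + l + 1 = 2 * l + 1 := by ring
  rw [e3] at h
  exact (Nat.pow_le_pow_right (one_le_finrank hpt X) (by omega)).trans h

/-- the alternative -/
lemma even_data [CharZero Ω] (X : SmProjVar k) (hD : ¬ P.DP X) :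
    (∃ s ≥ 1, ∀ l, nr P (X.selfProd (2 * (l + s) + 1)) ≤
      (Module.finrank Ω (P.H X) ^ (2 * s) - 1) * nr P (X.selfProd (2 * l + 1))) ∨
    ∃ s ≥ 1, ∀ k0 l, nr P (X.selfProd (2 * l + 1)) +
      ∑ k ∈ Finset.range k0, nr P (X.selfProd (2 * (l + s * (k + 1)) + 1)) ≤
        hr P (X.selfProd (2 * l + 1)) + ∑ k ∈ Finset.range k0,
          (Module.finrank Ω (P.H X) ^ (2 * s * (k + 1)) - 1) *
            nr P (X.selfProd (2 * l + 1)) := by
  obtain ⟨n, z, hz, hz0⟩ := exists_even hD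
  have hfin : ∀ i, Module.finrank Ω (P.H ((X.selfProd (2 * n + 1)).selfProd i)) =
      Module.finrank Ω (P.H X) ^ (2 * (n + 1) * (i + 1)) := by
    intro i
    rw [finrank_selfProd, finrank_selfProd, ← pow_mul]
    congr 1
  have hnr : ∀ i l, nr P (((X.selfProd (2 * n + 1)).selfProd i).prod
      ((X.selfProd l).prod (X.selfProd l))) =
      nr P (X.selfProd (2 * (l + (n + 1) * (i + 1)) + 1)) := by
    intro i l
    rw [nr_pow_pow]
    congr 2
    ring
  by_cases hnil : ∀ i, ∀ x ∈ Nul P ((X.selfProd (2 * n + 1)).selfProd i)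
      ((X.selfProd (2 * n + 1)).selfProd i),
      IsNilpotent (x : Module.End Ω (P.H ((X.selfProd (2 * n + 1)).selfProd i)))
  · refine .inr ⟨n + 1, Nat.le_add_left 1 n, fun k0 l => ?_⟩
    have h := layers hz hz0 hnil (X.selfProd l) k0
    have e3 : l + l + 1 = 2 * l + 1 := by ring
    rw [nr_pow_prod_pow, hr_pow_prod_pow, e3] at h
    simp only [hfin, hnr] at h
    exact (Nat.le_add_left _ _).trans h
  · push Not at hnil
    obtain ⟨i, x, hx, hx'⟩ := hnil
    refine .inl ⟨(n + 1) * (i + 1), Nat.mul_pos n.succ_pos i.succ_pos, fun l => ?_⟩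
    have h := nr_prod_le_of_not_nil _ (X.selfProd l) hx hx'
    have e3 : l + l + 1 = 2 * l + 1 := by ring
    rw [hnr, nr_pow_prod_pow, hfin, e3] at h
    rwa [← mul_assoc 2]

lemma even_case [CharZero Ω] (hpt : ∀ Y, 1 ≤ nr P Y) (X : SmProjVar k) (hD : ¬ P.DP X) (m : ℕ) :
    ∃ L, ∀ l ≥ L, m * nr P (X.selfProd (2 * l + 1)) ≤ hr P (X.selfProd (2 * l + 1)) := by
  rcases even_data X hD with ⟨s, hs, h⟩ | ⟨s, hs, h⟩
  · exact ana_A (a := fun l => hr P (X.selfProd (2 * l + 1)))
      (c := fun l => nr P (X.selfProd (2 * l + 1))) (one_le_finrank hpt X) hs (fun l => hpt _)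
      (even_conv X) (even_growth hpt X) h m
  · exact ana_B (a := fun l => hr P (X.selfProd (2 * l + 1)))
      (c := fun l => nr P (X.selfProd (2 * l + 1))) (one_le_finrank hpt X) hs (fun l => hpt _)
      (even_conv X) (even_growth hpt X) h m

lemma even_rate [CharZero Ω] (hpt : ∀ Y, 1 ≤ nr P Y) (X : SmProjVar k) (hD : ¬ P.DP X) :
    ∃ C : ℝ, 0 < C ∧ ∀ l : ℕ, (nr P (X.selfProd (2 * l + 1)) : ℝ) * Real.log (l + 2) ≤
      C * hr P (X.selfProd (2 * l + 1)) := by
  rcases even_data X hD with ⟨s, hs, h⟩ | ⟨s, hs, h⟩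
  · exact Pool.Agent.Helper47.ZP.rate_A (a := fun l => hr P (X.selfProd (2 * l + 1)))
      (c := fun l => nr P (X.selfProd (2 * l + 1))) (one_le_finrank hpt X) hs (fun l => hpt _)
      (even_conv X) (even_growth hpt X) h
  · exact Pool.Agent.Helper47.ZP.rate_B (a := fun l => hr P (X.selfProd (2 * l + 1)))
      (c := fun l => nr P (X.selfProd (2 * l + 1))) (one_le_finrank hpt X) hs (fun l => hpt _)
      (even_conv X) (even_growth hpt X) h

/-- odd powers -/
lemma odd_le [CharZero Ω] (X : SmProjVar k) (l : ℕ) : nr P (X.selfProd (2 * (l + 1))) ≤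
    Module.finrank Ω (P.H X) * nr P (X.selfProd (2 * l + 1)) := by
  have h2 := nr_prod_le (P := P) X (X.selfProd l)
  have h3 := nr_pow_pow (P := P) X 0 0 l
  have e3 : l + l + 1 = 2 * l + 1 := by ring
  have e4 : (0 + 1) * (0 + 1) + 2 * l + 1 = 2 * (l + 1) := by ring
  rw [nr_pow_prod_pow, e3] at h2
  rw [e4] at h3
  have h4 : nr P (X.prod ((X.selfProd l).prod (X.selfProd l))) =
      nr P (X.selfProd (2 * (l + 1))) := h3
  rwa [h4] at h2

/-- **The zero-one law for all powers**, for the auxiliary structure -/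
theorem zop [CharZero Ω] (hpt : ∀ Y, 1 ≤ nr P Y) (X : SmProjVar k) (hD : ¬ P.DP X) (m : ℕ) :
    ∃ N, ∀ n ≥ N, m * nr P (X.selfProd n) ≤ hr P (X.selfProd n) := by
  obtain ⟨L, hL⟩ := even_case hpt X hD (m * Module.finrank Ω (P.H X))
  refine ⟨2 * L + 1, fun n hn => ?_⟩
  rcases Nat.even_or_odd' n with ⟨l, rfl | rfl⟩
  · obtain ⟨l, rfl⟩ : ∃ l', l = l' + 1 := ⟨l - 1, by omega⟩
    have h1 := hL l (by omega)
    have h5 := hr_le_succ (P := P) X (2 * l + 1)
    have e5 : 2 * l + 1 + 1 = 2 * (l + 1) := by ring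
    rw [e5] at h5
    calc m * nr P (X.selfProd (2 * (l + 1))) ≤ m * (Module.finrank Ω (P.H X) *
          nr P (X.selfProd (2 * l + 1))) := Nat.mul_le_mul_left _ (odd_le X l)
      _ = m * Module.finrank Ω (P.H X) * nr P (X.selfProd (2 * l + 1)) := by ring
      _ ≤ hr P (X.selfProd (2 * l + 1)) := h1
      _ ≤ _ := h5
  · have h1 := hL l (by omega)
    refine le_trans ?_ h1
    exact Nat.mul_le_mul_right _ (Nat.le_mul_of_pos_right _ (one_le_finrank hpt X))

/-- **The zero-one law for all powers**, with a rate -/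
theorem zop_rate [CharZero Ω] (hpt : ∀ Y, 1 ≤ nr P Y) (X : SmProjVar k) (hD : ¬ P.DP X) :
    ∃ C : ℝ, 0 < C ∧ ∀ n : ℕ, (nr P (X.selfProd n) : ℝ) * Real.log (n + 2) ≤
      C * hr P (X.selfProd n) := by
  obtain ⟨C, hC, h⟩ := even_rate hpt X hD
  have hb : (1 : ℝ) ≤ Module.finrank Ω (P.H X) := by exact_mod_cast one_le_finrank hpt X
  have hlog2 : 0 < Real.log 2 := Real.log_pos one_lt_two
  -- comparison of the logarithms
  have hlog : ∀ l n : ℕ, n ≤ 2 * l + 2 → Real.log (n + 2) ≤ 2 * Real.log (l + 2) := by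
    intro l n hn
    have hn' : (n : ℝ) ≤ 2 * l + 2 := by exact_mod_cast hn
    have hl : (0 : ℝ) ≤ l := Nat.cast_nonneg l
    have h1 : 2 * Real.log (l + 2 : ℝ) = Real.log ((l + 2) ^ 2) := by
      rw [Real.log_pow]; norm_num
    rw [h1]
    refine Real.log_le_log (by positivity) ?_
    nlinarith
  refine ⟨2 * C * Module.finrank Ω (P.H X) + 1 + Real.log 2 * nr P X, by positivity,
    fun n => ?_⟩
  have hnn : ∀ Y : SmProjVar k, (0 : ℝ) ≤ nr P Y := fun Y => Nat.cast_nonneg _
  have hhn : ∀ Y : SmProjVar k, (0 : ℝ) ≤ hr P Y := fun Y => Nat.cast_nonneg _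
  have hbase : 2 * C * Module.finrank Ω (P.H X) * hr P (X.selfProd n) ≤
      (2 * C * Module.finrank Ω (P.H X) + 1 + Real.log 2 * nr P X) * hr P (X.selfProd n) := by
    refine mul_le_mul_of_nonneg_right ?_ (hhn _)
    have := mul_nonneg hlog2.le (hnn X)
    linarith
  rcases Nat.even_or_odd' n with ⟨l, rfl | rfl⟩
  · rcases Nat.eq_zero_or_pos l with rfl | hl
    · have h1 : (1 : ℝ) ≤ hr P (X.selfProd (2 * 0)) := by
        have h2 : nr P (X.selfProd (2 * 0)) ≤ hr P (X.selfProd (2 * 0)) := rdim_le _ _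
        exact_mod_cast (hpt _).trans h2
      have h3 : (nr P (X.selfProd (2 * 0)) : ℝ) = nr P X := rfl
      rw [h3]
      have h4 : Real.log (((2 * 0 : ℕ) : ℝ) + 2) = Real.log 2 := by norm_num
      rw [h4]
      calc (nr P X : ℝ) * Real.log 2 ≤ (2 * C * Module.finrank Ω (P.H X) + 1 +
            Real.log 2 * nr P X) * 1 := by
            have : 0 ≤ 2 * C * Module.finrank Ω (P.H X) := by positivity
            nlinarith [hnn X]
        _ ≤ _ := by
            refine mul_le_mul_of_nonneg_left h1 ?_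
            have := mul_nonneg hlog2.le (hnn X)
            positivity
    · obtain ⟨l, rfl⟩ : ∃ l', l = l' + 1 := ⟨l - 1, by omega⟩
      have h5 := hr_le_succ (P := P) X (2 * l + 1)
      have e5 : 2 * l + 1 + 1 = 2 * (l + 1) := by ring
      rw [e5] at h5
      have h5' : (hr P (X.selfProd (2 * l + 1)) : ℝ) ≤ hr P (X.selfProd (2 * (l + 1))) := by
        exact_mod_cast h5
      have h6 : (nr P (X.selfProd (2 * (l + 1))) : ℝ) ≤ Module.finrank Ω (P.H X) *
          nr P (X.selfProd (2 * l + 1)) := by exact_mod_cast odd_le X l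
      have h7 := hlog l (2 * (l + 1)) (by omega)
      have h8 := h l
      have h9 : 0 ≤ Real.log ((l : ℝ) + 2) := Real.log_nonneg (by
        have : (0 : ℝ) ≤ l := Nat.cast_nonneg l
        linarith)
      refine le_trans ?_ hbase
      calc (nr P (X.selfProd (2 * (l + 1))) : ℝ) * Real.log (((2 * (l + 1) : ℕ) : ℝ) + 2)
          ≤ (Module.finrank Ω (P.H X) * nr P (X.selfProd (2 * l + 1))) *
            (2 * Real.log (l + 2)) := by
            refine mul_le_mul h6 h7 ?_ (by positivity)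
            exact Real.log_nonneg (by
              have : (0 : ℝ) ≤ ((2 * (l + 1) : ℕ) : ℝ) := Nat.cast_nonneg _
              linarith)
        _ = 2 * Module.finrank Ω (P.H X) * (nr P (X.selfProd (2 * l + 1)) *
            Real.log (l + 2)) := by ring
        _ ≤ 2 * Module.finrank Ω (P.H X) * (C * hr P (X.selfProd (2 * l + 1))) := by
            refine mul_le_mul_of_nonneg_left h8 (by positivity)
        _ = 2 * C * Module.finrank Ω (P.H X) * hr P (X.selfProd (2 * l + 1)) := by ring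
        _ ≤ _ := mul_le_mul_of_nonneg_left h5' (by positivity)
  · have h7 := hlog l (2 * l + 1) (by omega)
    have h8 := h l
    refine le_trans ?_ hbase
    calc (nr P (X.selfProd (2 * l + 1)) : ℝ) * Real.log (((2 * l + 1 : ℕ) : ℝ) + 2)
        ≤ nr P (X.selfProd (2 * l + 1)) * (2 * Real.log (l + 2)) :=
          mul_le_mul_of_nonneg_left h7 (hnn _)
      _ = 2 * (nr P (X.selfProd (2 * l + 1)) * Real.log (l + 2)) := by ring
      _ ≤ 2 * (C * hr P (X.selfProd (2 * l + 1))) := by linarith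
      _ = 2 * C * 1 * hr P (X.selfProd (2 * l + 1)) := by ring
      _ ≤ 2 * C * Module.finrank Ω (P.H X) * hr P (X.selfProd (2 * l + 1)) := by
          refine mul_le_mul_of_nonneg_right ?_ (hhn _)
          exact mul_le_mul_of_nonneg_left hb (by positivity)

end Pool.Agent.Helper34.ZP
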