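import Mathlib
import Pool.Agent.Helper34.ZP.G1
import Pool.Agent.Helper34.ZP.G4
import Pool.Agent.Helper34.ZP.G6
import Pool.Agent.Helper34.ZP.G7
import Pool.Agent.Helper11.ZO.Inv

/-!
# Growth of the numerical ranks and nilpotence of numerically trivial correspondences
-/

universe u v w t

open CategoryTheory TensorProduct

namespace Pool.Agent.Helper34.ZP

open Pool.Agent.Helper10 Pool.Agent.Helper11.Iso SmProjVar SPre

section Alg

variable {F : Type*} [Field F]

/-- a semisimple algebra meets a nil left ideal trivially -/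
lemma eq_zero_of_nil {R : Type*} [Ring R] [IsSemisimpleRing R] {x : R}
    (h : ∀ y, IsNilpotent (y * x)) : x = 0 := by
  obtain ⟨e, he, hspan⟩ := IsSemisimpleRing.ideal_eq_span_idempotent (Ideal.span {x})
  have h1 : e ∈ Ideal.span {x} := by rw [hspan]; exact Ideal.mem_span_singleton_self e
  obtain ⟨y, hy⟩ := Ideal.mem_span_singleton'.mp h1
  have h2 : IsNilpotent e := by rw [← hy]; exact h y
  have h3 : e = 0 := he.eq_zero_of_isNilpotent h2
  have h4 : x ∈ Ideal.span {x} := Ideal.mem_span_singleton_self x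
  rw [hspan, h3, Ideal.span_singleton_zero, Ideal.mem_bot] at h4
  exact h4

end Alg

variable {k : Type u} [Field k] {K : Type t} [Field K] {Ω : Type v} [Field Ω] [Algebra K Ω]
  {P : SPre.{u, v, w, t} k K Ω}

lemma nil_perm_comp (X : SmProjVar k) (n : ℕ) (σ τ : Equiv.Perm (Fin (n + 1))) :
    g6_perm X n σ ≫ g6_perm X n τ = g6_perm X n (τ * σ) := by
  refine Pool.Agent.Helper59.ZO.hom_ext_pow n fun j hj => ?_
  have h1 : ∀ (ρ : Equiv.Perm (Fin (n + 1))) (j : Fin (n + 1)),
      g6_perm X n ρ ≫ X.projPow n j = X.projPow n (ρ⁻¹ j : Fin (n + 1)) := by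
    intro ρ j
    rw [g6_perm, Pool.Agent.Helper59.ZO.liftPow_projPow _ n j (by omega), dif_pos j.2]
  have h2 := h1 τ ⟨j, by omega⟩
  have h3 := h1 σ (τ⁻¹ ⟨j, by omega⟩)
  have h4 := h1 (τ * σ) ⟨j, by omega⟩
  simp only at h2 h4
  rw [Category.assoc, h2, h3, h4, mul_inv_rev, Equiv.Perm.mul_apply]

lemma nil_perm_one (X : SmProjVar k) (n : ℕ) : g6_perm X n 1 = 𝟙 _ := by
  refine Pool.Agent.Helper59.ZO.hom_ext_pow n fun j hj => ?_
  rw [g6_perm, Pool.Agent.Helper59.ZO.liftPow_projPow _ n j hj, dif_pos (by omega),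
    Category.id_comp]
  rfl

/-- the representation of the symmetric group -/
noncomputable def permRep (P : SPre.{u, v, w, t} k K Ω) (X : SmProjVar k) (n : ℕ) :
    Equiv.Perm (Fin (n + 1)) →* Module.End Ω (P.H (X.selfProd n)) where
  toFun σ := (P.pull (g6_perm X n σ⁻¹)).toLinearMap
  map_one' := by
    rw [inv_one, nil_perm_one, P.pull_id]
    rfl
  map_mul' σ τ := by
    rw [mul_inv_rev, ← nil_perm_comp, P.pull_comp]
    rfl

/-- the algebra spanned by the permutations -/
theorem exists_perm_algebra [CharZero Ω] (P : SPre.{u, v, w, t} k K Ω) (X : SmProjVar k) (l : ℕ) :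
    ∃ R : Subalgebra Ω (Module.End Ω (P.H (X.selfProd l))), IsSemisimpleRing R ∧
      (∀ x ∈ R, x ∈ Mor P (X.selfProd l) (X.selfProd l)) ∧
      Module.finrank Ω (P.H X) ^ (2 * (l + 1)) ≤
        Module.finrank Ω R * (l + 2) ^ (Module.finrank Ω (P.H X) ^ 2) := by
  have := P.fin (X.selfProd l)
  let φ : MonoidAlgebra Ω (Equiv.Perm (Fin (l + 1))) →ₐ[Ω] Module.End Ω (P.H (X.selfProd l)) :=
    MonoidAlgebra.lift Ω _ _ (permRep P X l)
  refine ⟨φ.range, ?_, ?_, ?_⟩
  · exact RingHom.isSemisimpleRing_of_surjective φ.rangeRestrict.toRingHom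
      φ.rangeRestrict_surjective
  · rintro _ ⟨a, rfl⟩
    change φ a ∈ Mor P (X.selfProd l) (X.selfProd l)
    induction a using MonoidAlgebra.induction_on with
    | of σ =>
      change MonoidAlgebra.lift Ω _ _ (permRep P X l) (MonoidAlgebra.of Ω _ σ) ∈ _
      rw [MonoidAlgebra.lift_of]
      exact isMap_pull _
    | add a b ha hb =>
      rw [map_add]
      exact add_mem ha hb
    | smul c a ha =>
      rw [map_smul]
      exact Submodule.smul_mem _ c ha
  · obtain ⟨J, _, b, hb⟩ := g6_exists_basis P X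
    obtain ⟨B, hB⟩ := g6_word_basis b hb l
    have h1 := Pool.Agent.Helper10.ZP.gro (l + 1) B
      (fun σ => (P.pull (g6_perm X l σ)).toLinearMap) (fun σ w => by
        have h2 := (P.cls_eq _ _ _).mp (g6_pull_word (P := P) (fun j => ⟨b j, hb j⟩) l σ w)
        rw [coe_pullHom, coe_extPowHom, coe_extPowHom, ← hB, ← hB] at h2
        exact h2)
    rw [← Module.finrank_eq_card_basis b] at h1
    refine h1.trans (Nat.mul_le_mul_right _ ?_)
    have h3 : Submodule.span Ω (Set.range fun σ => (P.pull (g6_perm X l σ)).toLinearMap) ≤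
        Subalgebra.toSubmodule φ.range := by
      rw [Submodule.span_le]
      rintro _ ⟨σ, rfl⟩
      refine ⟨MonoidAlgebra.of Ω _ σ⁻¹, ?_⟩
      change MonoidAlgebra.lift Ω _ _ (permRep P X l) (MonoidAlgebra.of Ω _ σ⁻¹) = _
      rw [MonoidAlgebra.lift_of]
      change (P.pull (g6_perm X l σ⁻¹⁻¹)).toLinearMap = _
      rw [inv_inv]
    exact Submodule.finrank_mono h3

/-- if all numerically trivial self-correspondences of `X ^ (l + 1)` are nilpotent, the numerical
rank of `X ^ (l + 1) × X ^ (l + 1)` is large -/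
theorem nil_growth [CharZero Ω] (X : SmProjVar k) (l : ℕ)
    (hnil : ∀ x ∈ Nul P (X.selfProd l) (X.selfProd l),
      IsNilpotent (x : Module.End Ω (P.H (X.selfProd l)))) :
    Module.finrank Ω (P.H X) ^ (2 * (l + 1)) ≤ nr P (X.selfProd (2 * l + 1)) *
      (l + 2) ^ (Module.finrank Ω (P.H X) ^ 2) := by
  obtain ⟨R, hss, hR, hgr⟩ := exists_perm_algebra P X l
  refine hgr.trans (Nat.mul_le_mul_right _ ?_)
  have := P.fin (X.selfProd l)
  have h1 : Subalgebra.toSubmodule R ⊓ Nul P (X.selfProd l) (X.selfProd l) = ⊥ := by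
    rw [eq_bot_iff]
    rintro x ⟨hx, hx'⟩
    have hx1 : x ∈ R := hx
    have h2 : (⟨x, hx1⟩ : R) = 0 := by
      refine eq_zero_of_nil (R := R) fun y => ?_
      obtain ⟨y, hy⟩ := y
      have h3 : y ∘ₗ x ∈ Nul P (X.selfProd l) (X.selfProd l) := comp_Nul hx' (hR y hy)
      obtain ⟨n, hn⟩ := hnil _ h3
      exact ⟨n, Subtype.ext hn⟩
    exact congrArg Subtype.val h2
  have h2 : rdim (Nul P (X.selfProd l) (X.selfProd l)) (Subalgebra.toSubmodule R) =
      Module.finrank Ω R := by
    unfold rdim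
    rw [h1, finrank_bot, Nat.sub_zero]
    rfl
  have h3 : rdim (Nul P (X.selfProd l) (X.selfProd l)) (Subalgebra.toSubmodule R) ≤
      rdim (Nul P (X.selfProd l) (X.selfProd l)) (Mor P (X.selfProd l) (X.selfProd l)) :=
    rdim_mono fun x hx => hR x hx
  rw [rdim_Mor, nr_pow_prod_pow, h2] at h3
  have e3 : l + l + 1 = 2 * l + 1 := by ring
  rwa [e3] at h3

end Pool.Agent.Helper34.ZP
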