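import Mathlib

/-!
# Growth of a sequence with almost full exponential lower bounds, and with a gap
-/

set_option autoImplicit false

open Filter Topology

namespace Pool.Agent.Helper34.ZP

theorem root_aux {b D : ℕ} (hb : 1 ≤ b) :
    Tendsto (fun m : ℕ => ((b : ℝ) ^ m / ((m : ℝ) + 2) ^ D) ^ ((1 : ℝ) / (m + 1))) atTop
      (nhds (b : ℝ)) := by
  have hb0 : (0 : ℝ) < b := by exact_mod_cast hb
  have h1 : Tendsto (fun m : ℕ => (m : ℝ) / (m + 1)) atTop (nhds 1) :=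
    tendsto_natCast_div_add_atTop 1
  have h2 : Tendsto (fun m : ℕ => Real.log ((m : ℝ) + 2) / (m + 1)) atTop (nhds 0) := by
    have h := Real.tendsto_pow_log_div_mul_add_atTop 1 (-1) 1 one_ne_zero
    have h' : Tendsto (fun m : ℕ => (m : ℝ) + 2) atTop atTop :=
      tendsto_atTop_add_const_right _ _ tendsto_natCast_atTop_atTop
    refine (h.comp h').congr fun m => ?_
    simp only [Function.comp, pow_one, one_mul]
    congr 1
    ring
  have h3 : Tendsto (fun m : ℕ => (m : ℝ) / (m + 1) * Real.log b -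
      D * (Real.log ((m : ℝ) + 2) / (m + 1))) atTop (nhds (1 * Real.log b - D * 0)) :=
    (h1.mul_const _).sub (h2.const_mul _)
  rw [one_mul, mul_zero, sub_zero] at h3
  have h4 := (Real.continuous_exp.tendsto _).comp h3
  rw [Real.exp_log hb0] at h4
  refine h4.congr fun m => ?_
  have hm : (0 : ℝ) < (m : ℝ) + 2 := by positivity
  have hm1 : (0 : ℝ) < (m : ℝ) + 1 := by positivity
  have hx : (0 : ℝ) < (b : ℝ) ^ m / ((m : ℝ) + 2) ^ D := by positivity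
  simp only [Function.comp]
  rw [Real.rpow_def_of_pos hx, Real.log_div (by positivity) (by positivity), Real.log_pow,
    Real.log_pow]
  congr 1
  field_simp

theorem root_limit {N : ℕ → ℕ} {b D : ℕ} (hb : 1 ≤ b)
    (h1 : ∀ l, b ^ (2 * (l + 1)) ≤ N (2 * l + 1) * (l + 2) ^ D)
    (h2 : ∀ m, N m ≤ N (m + 1)) (h3 : ∀ m, N m ≤ b ^ (m + 1)) :
    Filter.Tendsto (fun m : ℕ => (N m : ℝ) ^ ((1 : ℝ) / (m + 1))) Filter.atTop
      (nhds (b : ℝ)) := by
  have hb0 : (0 : ℝ) < b := by exact_mod_cast hb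
  have hmono : Monotone N := monotone_nat_of_le_succ h2
  refine tendsto_of_tendsto_of_tendsto_of_le_of_le' (root_aux (D := D) hb) tendsto_const_nhds
    ?_ ?_
  · filter_upwards [eventually_ge_atTop 1] with m hm
    refine Real.rpow_le_rpow (by positivity) ?_ (by positivity)
    rw [div_le_iff₀ (by positivity)]
    have e1 := h1 ((m - 1) / 2)
    have e2 : N (2 * ((m - 1) / 2) + 1) ≤ N m := hmono (by omega)
    have e3 : b ^ m ≤ b ^ (2 * ((m - 1) / 2 + 1)) := Nat.pow_le_pow_right hb (by omega)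
    have e4 : ((m - 1) / 2 + 2) ^ D ≤ (m + 2) ^ D := Nat.pow_le_pow_left (by omega) D
    have e5 : b ^ m ≤ N m * (m + 2) ^ D := e3.trans (e1.trans (Nat.mul_le_mul e2 e4))
    exact_mod_cast e5
  · refine Eventually.of_forall fun m => ?_
    have hm1 : (0 : ℝ) < (m : ℝ) + 1 := by positivity
    have e1 : (N m : ℝ) ≤ (b : ℝ) ^ (m + 1) := by exact_mod_cast h3 m
    calc (N m : ℝ) ^ ((1 : ℝ) / (m + 1)) ≤ ((b : ℝ) ^ (m + 1)) ^ ((1 : ℝ) / (m + 1)) :=
          Real.rpow_le_rpow (by positivity) e1 (by positivity)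
      _ = b := by
        rw [← Real.rpow_natCast, ← Real.rpow_mul hb0.le]
        push_cast
        rw [mul_one_div_cancel hm1.ne', Real.rpow_one]

theorem root_gap {N : ℕ → ℕ} {b s : ℕ} (hb : 1 ≤ b) (hs : 1 ≤ s)
    (h : ∀ l, N (2 * (l + s) + 1) ≤ (b ^ (2 * s) - 1) * N (2 * l + 1))
    (h2 : ∀ m, N m ≤ N (m + 1)) :
    ∃ ρ : ℝ, 0 < ρ ∧ ρ < b ∧ ∃ C : ℝ, ∀ m : ℕ, (N m : ℝ) ≤ C * ρ ^ (m + 1) := by
  have hb0 : (0 : ℝ) < b := by exact_mod_cast hb
  have hmono : Monotone N := monotone_nat_of_le_succ h2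
  obtain ⟨ρ, ⟨hρ1, hρ2⟩, hρ3⟩ : ∃ ρ : ℝ, ((b : ℝ) ^ (2 * s) - 1 < ρ ^ (2 * s) ∧ 0 < ρ) ∧ ρ < b := by
    have hc : ContinuousAt (fun x : ℝ => x ^ (2 * s)) b := (continuous_pow _).continuousAt
    have e1 : ∀ᶠ x : ℝ in 𝓝 (b : ℝ), (b : ℝ) ^ (2 * s) - 1 < x ^ (2 * s) :=
      hc.eventually_const_lt (by linarith)
    have e2 : ∀ᶠ x : ℝ in 𝓝 (b : ℝ), 0 < x := lt_mem_nhds hb0
    have e3 : ∀ᶠ x : ℝ in 𝓝[<] (b : ℝ), ((b : ℝ) ^ (2 * s) - 1 < x ^ (2 * s) ∧ 0 < x) ∧ x < b :=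
      ((e1.and e2).filter_mono nhdsWithin_le_nhds).and self_mem_nhdsWithin
    exact e3.exists
  have hq : ((b ^ (2 * s) - 1 : ℕ) : ℝ) ≤ ρ ^ (2 * s) := by
    rw [Nat.cast_sub (Nat.one_le_pow _ _ hb)]
    push_cast
    exact hρ1.le
  set C' : ℝ := ∑ l ∈ Finset.range s, (N (2 * l + 1) : ℝ) / ρ ^ (2 * l) with hC'
  have hA : ∀ l : ℕ, (N (2 * l + 1) : ℝ) ≤ C' * ρ ^ (2 * l) := by
    intro l
    induction l using Nat.strong_induction_on with
    | _ l ih =>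
      by_cases hl : l < s
      · have e1 : (N (2 * l + 1) : ℝ) / ρ ^ (2 * l) ≤ C' :=
          Finset.single_le_sum (f := fun l => (N (2 * l + 1) : ℝ) / ρ ^ (2 * l))
            (fun i _ => by positivity) (Finset.mem_range.2 hl)
        exact (div_le_iff₀ (by positivity)).1 e1
      · obtain ⟨k, rfl⟩ : ∃ k, l = k + s := ⟨l - s, by omega⟩
        have e1 : (N (2 * (k + s) + 1) : ℝ) ≤ ((b ^ (2 * s) - 1 : ℕ) : ℝ) * N (2 * k + 1) := by
          exact_mod_cast h k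
        have e2 := ih k (by omega)
        calc (N (2 * (k + s) + 1) : ℝ) ≤ ((b ^ (2 * s) - 1 : ℕ) : ℝ) * N (2 * k + 1) := e1
          _ ≤ ρ ^ (2 * s) * (C' * ρ ^ (2 * k)) := by
            refine mul_le_mul hq e2 (by positivity) (by positivity)
          _ = C' * ρ ^ (2 * (k + s)) := by
            rw [mul_add, pow_add]
            ring
  have hC0 : 0 ≤ C' := Finset.sum_nonneg fun i _ => by positivity
  refine ⟨ρ, hρ2, hρ3, C' * (ρ⁻¹ + ρ⁻¹ ^ 2), fun m => ?_⟩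
  have e1 : (N m : ℝ) ≤ N (2 * (m / 2) + 1) := by
    exact_mod_cast hmono (by omega : m ≤ 2 * (m / 2) + 1)
  refine (e1.trans (hA _)).trans ?_
  rw [mul_assoc]
  refine mul_le_mul_of_nonneg_left ?_ hC0
  rcases Nat.even_or_odd' m with ⟨k, rfl | rfl⟩
  · have e2 : 2 * (2 * k / 2) = 2 * k := by omega
    rw [e2, add_mul, pow_succ]
    have e3 : ρ⁻¹ * (ρ ^ (2 * k) * ρ) = ρ ^ (2 * k) := by field_simp
    rw [e3]
    have e4 : 0 ≤ ρ⁻¹ ^ 2 * (ρ ^ (2 * k) * ρ) := by positivity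
    linarith
  · have e2 : 2 * ((2 * k + 1) / 2) = 2 * k := by omega
    rw [e2, add_mul, pow_succ, pow_succ]
    have e3 : ρ⁻¹ ^ 2 * (ρ ^ (2 * k) * ρ * ρ) = ρ ^ (2 * k) := by field_simp
    rw [e3]
    have e4 : 0 ≤ ρ⁻¹ * (ρ ^ (2 * k) * ρ * ρ) := by positivity
    linarith

end Pool.Agent.Helper34.ZP
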