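import Mathlib
import Pool.Agent.Helper34.ZP.Nil
import Pool.Agent.Helper34.ZP.Root
import Pool.Agent.Helper4.HL.Uni

/-!
# The growth rate of the numerical ranks
-/

universe u v w t

open CategoryTheory TensorProduct Filter Topology

namespace Pool.Agent.Helper34.ZP

open Pool.Agent.Helper10 Pool.Agent.Helper11.Iso SmProjVar SPre Pool.Agent.Helper4.HL

variable {k : Type u} [Field k] {K : Type t} [Field K] {Ω : Type v} [Field Ω] [Algebra K Ω]
  {P : SPre.{u, v, w, t} k K Ω}

/-- a numerically trivial self-correspondence of a power which is not nilpotent -/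
theorem not_nil_step [CharZero Ω] (hpt : ∀ Y, 1 ≤ nr P Y) (X : SmProjVar k) {i : ℕ}
    {x : P.H (X.selfProd i) →ₗ[Ω] P.H (X.selfProd i)}
    (hx : x ∈ Nul P (X.selfProd i) (X.selfProd i))
    (hx' : ¬ IsNilpotent (x : Module.End Ω (P.H (X.selfProd i)))) :
    ∃ s ≥ 1, ∀ l, nr P (X.selfProd (2 * (l + s) + 1)) ≤
      (Module.finrank Ω (P.H X) ^ (2 * s) - 1) * nr P (X.selfProd (2 * l + 1)) := by
  obtain ⟨e, he, hee, hr, h1⟩ := exists_idem_of_not_nil (P.corrAlg (X.selfProd i))
    (par P (X.selfProd i)) (fun y hy => ((isCat (P := P) (X.selfProd i) (X.selfProd i)).sA y hy))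
    (by rw [nul_corrAlg]; exact hx) hx'
  rw [nul_corrAlg] at h1
  have he' : e ∈ Mor P (X.selfProd i) (X.selfProd i) := he
  have hb := one_le_finrank hpt X
  have key : ∀ m, 1 ≤ m → nr P (X.selfProd (i + m + 1)) ≤
      (Module.finrank Ω (P.H X) ^ (i + 1) - 1) * uni P X m := by
    intro m hm
    have h2 := nr_le_rho (T := X.selfProd m) he' h1
    have h3 := rho_le_uni X hm (adj_mem_Mor he')
      (by rw [← adj_comp]; exact congrArg adj hee)
    rw [finrank_range_adj] at h3
    rw [nr_pow_prod_pow] at h2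
    refine h2.trans (h3.trans (Nat.mul_le_mul_right _ ?_))
    rw [finrank_selfProd] at hr
    omega
  rcases Nat.even_or_odd' i with ⟨j, rfl | rfl⟩
  · refine ⟨j + 1, Nat.le_add_left 1 j, fun l => ?_⟩
    have h4 := key (2 * l + 2) (by omega)
    rw [uni_even] at h4
    have e1 : 2 * j + (2 * l + 2) + 1 = 2 * (l + (j + 1)) + 1 := by ring
    rw [e1] at h4
    refine h4.trans ?_
    rw [← mul_assoc]
    refine Nat.mul_le_mul_right _ ?_
    have h5 : Module.finrank Ω (P.H X) ^ (2 * (j + 1)) =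
        Module.finrank Ω (P.H X) ^ (2 * j + 1) * Module.finrank Ω (P.H X) := by
      rw [← pow_succ]
      congr 1
    rw [h5, Nat.sub_mul, one_mul]
    omega
  · refine ⟨j + 1, Nat.le_add_left 1 j, fun l => ?_⟩
    have h4 := key (2 * l + 1) (by omega)
    rw [uni_odd] at h4
    have e1 : 2 * j + 1 + (2 * l + 1) + 1 = 2 * (l + (j + 1)) + 1 := by ring
    have e2 : 2 * j + 1 + 1 = 2 * (j + 1) := by ring
    rwa [e1, e2] at h4

lemma nr_le_pow (X : SmProjVar k) (m : ℕ) :
    nr P (X.selfProd m) ≤ Module.finrank Ω (P.H X) ^ (m + 1) := by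
  have := P.fin (X.selfProd m)
  rw [← finrank_selfProd]
  exact (rdim_le _ _).trans (Submodule.finrank_le _)

/-- an exponential gap, if some numerically trivial self-correspondence is not nilpotent -/
theorem nil_gap [CharZero Ω] (hpt : ∀ Y, 1 ≤ nr P Y) (X : SmProjVar k)
    (h : ¬ ∀ i, ∀ x ∈ Nul P (X.selfProd i) (X.selfProd i),
      IsNilpotent (x : Module.End Ω (P.H (X.selfProd i)))) :
    ∃ ρ : ℝ, 0 < ρ ∧ ρ < Module.finrank Ω (P.H X) ∧ ∃ C : ℝ, ∀ m : ℕ,
      (nr P (X.selfProd m) : ℝ) ≤ C * ρ ^ (m + 1) := by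
  push Not at h
  obtain ⟨i, x, hx, hx'⟩ := h
  obtain ⟨s, hs, h⟩ := not_nil_step hpt X hx hx'
  exact root_gap (N := fun m => nr P (X.selfProd m)) (one_le_finrank hpt X) hs h
    (fun m => nr_le_succ X m)

/-- **The growth law**: the growth rate of the numerical ranks of the powers of `X` is the
dimension of `H(X)` if and only if all numerically trivial algebraic self-correspondences of the
powers of `X` are nilpotent -/
theorem nil_iff [CharZero Ω] (hpt : ∀ Y, 1 ≤ nr P Y) (X : SmProjVar k) :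
    (∀ i, ∀ x ∈ Nul P (X.selfProd i) (X.selfProd i),
      IsNilpotent (x : Module.End Ω (P.H (X.selfProd i)))) ↔
    Tendsto (fun m : ℕ => (nr P (X.selfProd m) : ℝ) ^ ((1 : ℝ) / (m + 1))) atTop
      (𝓝 (Module.finrank Ω (P.H X) : ℝ)) := by
  constructor
  · intro h
    exact root_limit (N := fun m => nr P (X.selfProd m)) (one_le_finrank hpt X)
      (fun l => nil_growth X l (h l)) (fun m => nr_le_succ X m) (fun m => nr_le_pow X m)
  · intro h
    by_contra hcon
    obtain ⟨ρ, hρ, hρb, C, hC⟩ := nil_gap hpt X hcon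
    have hN : ∀ m, (0 : ℝ) < nr P (X.selfProd m) := fun m => by exact_mod_cast hpt _
    have hC0 : 0 < C := by
      have h1 := (hN 0).trans_le (hC 0)
      exact pos_of_mul_pos_left h1 (by positivity)
    have h2 : Tendsto (fun m : ℕ => (C ^ ((1 : ℝ) / (m + 1))) * ρ) atTop (𝓝 (1 * ρ)) := by
      refine Tendsto.mul_const ρ ?_
      have h3 : Tendsto (fun m : ℕ => (1 : ℝ) / ((m : ℝ) + 1)) atTop (𝓝 0) :=
        tendsto_one_div_add_atTop_nhds_zero_nat
      have h4 := (Real.continuous_const_rpow hC0.ne').continuousAt.tendsto.comp h3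
      rw [Real.rpow_zero] at h4
      exact h4
    rw [one_mul] at h2
    have h5 : ∀ m : ℕ, (nr P (X.selfProd m) : ℝ) ^ ((1 : ℝ) / (m + 1)) ≤
        (C ^ ((1 : ℝ) / (m + 1))) * ρ := by
      intro m
      have h6 := Real.rpow_le_rpow (hN m).le (hC m)
        (show (0 : ℝ) ≤ 1 / (m + 1) by positivity)
      rw [Real.mul_rpow hC0.le (by positivity)] at h6
      have h7 : (ρ ^ (m + 1)) ^ ((1 : ℝ) / (m + 1)) = ρ := by
        rw [← Real.rpow_natCast, ← Real.rpow_mul hρ.le]
        have h8 : ((m + 1 : ℕ) : ℝ) * (1 / ((m : ℝ) + 1)) = 1 := by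
          push_cast
          field_simp
        rw [h8, Real.rpow_one]
      rwa [h7] at h6
    have h9 := le_of_tendsto_of_tendsto' h h2 h5
    linarith

end Pool.Agent.Helper34.ZP
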