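import Mathlib
import Pool.Agent.Helper4.HL.Uni
import Pool.Agent.Helper4.HL.Cyc

/-!
# Systems of classes: the relative step
-/

universe u v w t

open CategoryTheory TensorProduct Filter Topology

namespace Pool.Agent.Helper34.ZP

open Pool.Agent.Helper10 Pool.Agent.Helper11.Iso SmProjVar SPre Pool.Agent.Helper4.HL

variable {k : Type u} [Field k] {K : Type t} [Field K] {Ω : Type v} [Field Ω] [Algebra K Ω]
  {P : SPre.{u, v, w, t} k K Ω}

/-- subspaces of the cohomology of the powers of `X` which are stable under algebraic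
correspondences -/
def IsSys {X : SmProjVar k} (V : ∀ n, Submodule Ω (P.H (X.selfProd n))) : Prop :=
  ∀ m n, ∀ f ∈ Mor P (X.selfProd m) (X.selfProd n), ∀ u ∈ V m, f u ∈ V n

/-- the algebraic maps which send a class into a stable subspace -/
theorem exists_idem_rel [CharZero Ω] {V : SmProjVar k} (M : Submodule Ω (P.H V))
    (hM : ∀ f ∈ Mor P V V, ∀ t ∈ M, f t ∈ M) {τ : P.H V} (hτ : τ ∉ M)
    (hN : Nul P V V = ⊥) :
    ∃ e ∈ Mor P V V, e ∘ₗ e = e ∧
      Module.finrank Ω (LinearMap.range e) < Module.finrank Ω (P.H V) ∧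
      ∀ Y, ∀ f ∈ Mor P V Y, (∀ g ∈ Mor P Y V, g (f τ) ∈ M) → f - f ∘ₗ e ∈ Nul P V Y := by
  have hc := isCat (P := P) V V
  let L : Submodule Ω (Module.End Ω (P.H V)) :=
    Mor P V V ⊓ M.comap (LinearMap.applyₗ τ : (P.H V →ₗ[Ω] P.H V) →ₗ[Ω] P.H V)
  have hL : ∀ f, f ∈ L ↔ f ∈ Mor P V V ∧ f τ ∈ M := fun f => Iff.rfl
  have hnil : ∀ x ∈ nul (par P V) (Subalgebra.toSubmodule (P.corrAlg V))
      (Subalgebra.toSubmodule (P.corrAlg V)), x = 0 := by
    intro x hx
    rw [nul_corrAlg, hN] at hx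
    exact (Submodule.mem_bot _).1 hx
  obtain ⟨e, he, hee, hr, h⟩ := exists_idem_of_nil (P.corrAlg V) (par P V)
    (by exact hc.ss) (fun x hx => hc.sA x hx)
    (fun x hx => by rw [hnil x hx]; exact IsNilpotent.zero) L (fun x hx => ((hL x).1 hx).1)
    (fun a ha x hx => (hL _).2 ⟨hc.AA a ha x ((hL x).1 hx).1, hM a ha _ ((hL x).1 hx).2⟩)
    (by
      rintro ⟨x, hx, y, hy, hxy⟩
      rw [hnil y hy, add_zero] at hxy
      refine hτ ?_
      have h2 := ((hL x).1 hx).2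
      rw [hxy] at h2
      exact h2)
  have he' := (hL e).1 he
  refine ⟨e, he'.1, hee, hr, fun Y f hf hfM => ⟨?_, fun g hg => ?_⟩⟩
  · exact sub_mem hf ((isCat (P := P) V Y).BA f hf e he'.1)
  · have h1 : g ∘ₗ f ∈ L := (hL _).2 ⟨(isCat (P := P) V Y).CB g hg f hf, hfM g hg⟩
    have h2 := h _ h1
    rw [nul_corrAlg] at h2
    have h3 := h2.2 LinearMap.id hc.idA
    rw [LinearMap.id_comp] at h3
    have h4 : g ∘ₗ (f - f ∘ₗ e) ∘ₗ par P V = (g ∘ₗ f - (g ∘ₗ f) * e) ∘ₗ par P V := by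
      rw [LinearMap.sub_comp, LinearMap.comp_sub, LinearMap.sub_comp]
      rfl
    rw [h4]
    exact h3

/-- the relative step, dimensions -/
theorem rel_dim [CharZero Ω] {X : SmProjVar k} {V V' : ∀ n, Submodule Ω (P.H (X.selfProd n))}
    (hV : IsSys V) (hV' : IsSys V') (hle : ∀ n, V n ≤ V' n) {r : ℕ}
    (hr : V r ≠ V' r) (hpow : ∀ n, Nul P (X.selfProd r) (X.selfProd n) = ⊥) {U : ℕ → ℕ}
    (hU : ∀ m, 1 ≤ m → ∀ (Z : SmProjVar k) (e : P.H Z →ₗ[Ω] P.H Z), e ∈ Mor P Z Z →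
      e ∘ₗ e = e → rho P (tmap e (LinearMap.id : P.H (X.selfProd m) →ₗ[Ω]
        P.H (X.selfProd m))) ≤ Module.finrank Ω (LinearMap.range e) * U m) {m : ℕ}
    (hm : 1 ≤ m) :
    Module.finrank Ω (V m) + nr P ((X.selfProd r).prod (X.selfProd m)) ≤
      Module.finrank Ω (V' m) + (Module.finrank Ω (P.H (X.selfProd r)) - 1) * U m := by
  obtain ⟨τ, hτ', hτ⟩ : ∃ τ ∈ V' r, τ ∉ V r := by
    by_contra hcon
    push Not at hcon
    exact hr (le_antisymm (hle r) hcon)
  obtain ⟨e, he, hee, hre, h⟩ := exists_idem_rel (V r) (fun f hf t ht => hV r r f hf t ht) hτ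
    (hpow r)
  have := P.fin (X.selfProd m)
  have := P.fin (X.selfProd r)
  -- the map `T ↦ T τ` modulo `V m`
  let A := Mor P (X.selfProd r) (X.selfProd m)
  let f : (P.H (X.selfProd r) →ₗ[Ω] P.H (X.selfProd m)) →ₗ[Ω] P.H (X.selfProd m) ⧸ V m :=
    (V m).mkQ ∘ₗ (LinearMap.applyₗ τ)
  have h1 := finrank_map_add f A
  have h2 : A.map f ≤ (V' m).map (V m).mkQ := by
    rintro _ ⟨T, hT, rfl⟩
    exact ⟨T τ, hV' r m T hT τ hτ', rfl⟩
  have h3 := Submodule.finrank_mono h2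
  have h4 := finrank_map_add (V m).mkQ (V' m)
  rw [Submodule.ker_mkQ, inf_eq_right.2 (hle m)] at h4
  -- the kernel
  have h5 : (A ⊓ LinearMap.ker f : Submodule Ω _) ≤ A.map (precomp e) := by
    rintro T ⟨hT, hTf⟩
    have h6 : T τ ∈ V m := by
      have h7 : (V m).mkQ (T τ) = 0 := LinearMap.mem_ker.1 hTf
      rwa [Submodule.mkQ_apply, Submodule.Quotient.mk_eq_zero] at h7
    have h8 := h (X.selfProd m) T hT fun g hg => hV m r g hg _ h6
    rw [hpow m, Submodule.mem_bot, sub_eq_zero] at h8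
    exact ⟨T, hT, h8.symm⟩
  have h9 := Submodule.finrank_mono h5
  have h10 : Module.finrank Ω (A.map (precomp e)) =
      rho P (tmap (adj e) (LinearMap.id : P.H (X.selfProd m) →ₗ[Ω] P.H (X.selfProd m))) := by
    rw [← rdim_precomp he, rdim, hpow m, inf_bot_eq, finrank_bot, Nat.sub_zero]
  have h11 := hU m hm (X.selfProd r) (adj e) (adj_mem_Mor he) (by rw [← adj_comp, hee])
  rw [finrank_range_adj] at h11
  have h12 : Module.finrank Ω (LinearMap.range e) * U m ≤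
      (Module.finrank Ω (P.H (X.selfProd r)) - 1) * U m :=
    Nat.mul_le_mul_right _ (by omega)
  have h13 : nr P ((X.selfProd r).prod (X.selfProd m)) = Module.finrank Ω A := by
    rw [← rdim_Mor, rdim, hpow m, inf_bot_eq, finrank_bot, Nat.sub_zero]
  rw [h13]
  omega

lemma radS_eq_bot {X : SmProjVar k} (h : P.D X) : radS P X = ⊥ := by
  rw [eq_bot_iff]
  intro x hx
  exact (Submodule.mem_bot _).2 (h x hx)

lemma Nul_pow_eq_bot {X : SmProjVar k} (hD : P.DP X) (r n : ℕ) :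
    Nul P (X.selfProd r) (X.selfProd n) = ⊥ := by
  rw [← map_opL_radS, radS_eq_bot ((hD (r + n + 1)).retract (Retract.pow_prod_pow X r n)),
    Submodule.map_bot]

/-- **the relative step** -/
theorem rel_step [CharZero Ω] (hpt : ∀ Y, 1 ≤ nr P Y) {X : SmProjVar k} (hD : P.DP X)
    {V V' : ∀ n, Submodule Ω (P.H (X.selfProd n))} (hV : IsSys V) (hV' : IsSys V')
    (hle : ∀ n, V n ≤ V' n) {r : ℕ} (hr : V r ≠ V' r) {ε : ℝ} (hε : 0 < ε) :
    ∃ L, ∀ m ≥ L, (Module.finrank Ω (V m) : ℝ) + (1 - ε) * nr P (X.selfProd m) ≤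
      Module.finrank Ω (V' m) := by
  obtain ⟨U, -, hU, hU1, hprod⟩ := exists_U hpt hD
  have hN : ∀ m, (0 : ℝ) < nr P (X.selfProd m) := fun m => by exact_mod_cast hpt _
  have hb : 1 ≤ Module.finrank Ω (P.H (X.selfProd r)) := one_le_finrank hpt _
  have h1 := (hprod r).sub (hU1.const_mul ((Module.finrank Ω (P.H (X.selfProd r)) : ℝ) - 1))
  have h2 : (Module.finrank Ω (P.H X) : ℝ) ^ (r + 1) -
      ((Module.finrank Ω (P.H (X.selfProd r)) : ℝ) - 1) * 1 = 1 := by
    rw [finrank_selfProd, Nat.cast_pow]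
    ring
  rw [h2] at h1
  have h3 := h1.eventually (eventually_gt_nhds (show 1 - ε < 1 by linarith))
  obtain ⟨L, hL⟩ := eventually_atTop.1 h3
  refine ⟨L + 1, fun m hm => ?_⟩
  have h4 := rel_dim hV hV' hle hr (fun n => Nul_pow_eq_bot hD r n) hU
    (m := m) (by omega)
  have h5 := hL m (by omega)
  have h6 : (Module.finrank Ω (V m) : ℝ) + nr P ((X.selfProd r).prod (X.selfProd m)) ≤
      Module.finrank Ω (V' m) + ((Module.finrank Ω (P.H (X.selfProd r)) : ℝ) - 1) * U m := by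
    have h7 : ((Module.finrank Ω (P.H (X.selfProd r)) - 1 : ℕ) : ℝ) =
        (Module.finrank Ω (P.H (X.selfProd r)) : ℝ) - 1 := by
      rw [Nat.cast_sub hb, Nat.cast_one]
    rw [← h7]
    exact_mod_cast h4
  have h8 : (1 - ε) * nr P (X.selfProd m) ≤
      nr P ((X.selfProd r).prod (X.selfProd m)) -
        ((Module.finrank Ω (P.H (X.selfProd r)) : ℝ) - 1) * U m := by
    have h9 := mul_le_mul_of_nonneg_right h5.le (hN m).le
    have h10 : ((nr P ((X.selfProd r).prod (X.selfProd m)) : ℝ) / nr P (X.selfProd m) -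
        ((Module.finrank Ω (P.H (X.selfProd r)) : ℝ) - 1) * (U m / nr P (X.selfProd m))) *
          nr P (X.selfProd m) = nr P ((X.selfProd r).prod (X.selfProd m)) -
            ((Module.finrank Ω (P.H (X.selfProd r)) : ℝ) - 1) * U m := by
      rw [sub_mul, div_mul_cancel₀ _ (hN m).ne', mul_assoc, div_mul_cancel₀ _ (hN m).ne']
    rwa [h10] at h9
  linarith

/-- an infinite strictly increasing chain of systems inside `V` -/
theorem chain_unbounded [CharZero Ω] (hpt : ∀ Y, 1 ≤ nr P Y) {X : SmProjVar k} (hD : P.DP X)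
    {S : ℕ → ∀ n, Submodule Ω (P.H (X.selfProd n))} (hS : ∀ i, IsSys (S i))
    (hle : ∀ i n, S i n ≤ S (i + 1) n) (hne : ∀ i, ∃ r, S i r ≠ S (i + 1) r)
    {V : ∀ n, Submodule Ω (P.H (X.selfProd n))} (hV : ∀ i n, S i n ≤ V n) (M : ℕ) :
    ∃ L, ∀ m ≥ L, M * nr P (X.selfProd m) ≤ Module.finrank Ω (V m) := by
  have key : ∀ i : ℕ, ∃ L, ∀ m ≥ L, (i : ℝ) * (1 / 2) * nr P (X.selfProd m) ≤
      Module.finrank Ω (S i m) := by
    intro i
    induction i with
    | zero =>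
      refine ⟨0, fun m _ => ?_⟩
      rw [Nat.cast_zero, zero_mul, zero_mul]
      exact Nat.cast_nonneg _
    | succ i ih =>
      obtain ⟨L, hL⟩ := ih
      obtain ⟨r, hr⟩ := hne i
      obtain ⟨L', hL'⟩ := rel_step hpt hD (hS i) (hS (i + 1)) (hle i) hr
        (ε := 1 / 2) (by norm_num)
      refine ⟨max L L', fun m hm => ?_⟩
      have h1 := hL m (le_trans (le_max_left _ _) hm)
      have h2 := hL' m (le_trans (le_max_right _ _) hm)
      have h3 : ((i + 1 : ℕ) : ℝ) * (1 / 2) * nr P (X.selfProd m) =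
          (i : ℝ) * (1 / 2) * nr P (X.selfProd m) + (1 - 1 / 2) * nr P (X.selfProd m) := by
        push_cast
        ring
      rw [h3]
      linarith
  obtain ⟨L, hL⟩ := key (2 * M)
  refine ⟨L, fun m hm => ?_⟩
  have := P.fin (X.selfProd m)
  have h1 := hL m hm
  have h2 : (Module.finrank Ω (S (2 * M) m) : ℝ) ≤ Module.finrank Ω (V m) := by
    exact_mod_cast Submodule.finrank_mono (hV (2 * M) m)
  have h3 : (M : ℝ) * nr P (X.selfProd m) ≤ Module.finrank Ω (V m) := by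
    have h4 : ((2 * M : ℕ) : ℝ) * (1 / 2) * nr P (X.selfProd m) =
        M * nr P (X.selfProd m) := by
      push_cast
      ring
    rw [h4] at h1
    linarith
  exact_mod_cast h3

end Pool.Agent.Helper34.ZP
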