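import Mathlib
import Pool.Agent.Helper34.ZP.RelSys
import Pool.Agent.Helper4.HL.Law

/-!
# The relative step on one power
-/

universe u v w t

open CategoryTheory TensorProduct Filter Topology

namespace Pool.Agent.Helper34.ZP

open Pool.Agent.Helper10 Pool.Agent.Helper11.Iso SmProjVar SPre Pool.Agent.Helper4.HL

variable {k : Type u} [Field k] {K : Type t} [Field K] {Ω : Type v} [Field Ω] [Algebra K Ω]
  {P : SPre.{u, v, w, t} k K Ω} {X : SmProjVar k}

lemma Nul_self_eq_bot {r : ℕ} (hD : P.D (X.selfProd (2 * r + 1))) :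
    Nul P (X.selfProd r) (X.selfProd r) = ⊥ := by
  have e : 2 * r + 1 = r + r + 1 := by ring
  rw [e] at hD
  rw [← map_opL_radS, radS_eq_bot (hD.retract (Retract.pow_prod_pow X r r)), Submodule.map_bot]

lemma D_of_double {r : ℕ} (hD : P.D (X.selfProd (2 * r + 1))) : P.D (X.selfProd r) := by
  have e : 2 * r + 1 = r + r + 1 := by ring
  rw [e] at hD
  have h2 : Retract (X.selfProd r) ((X.selfProd r).prod (X.selfProd r)) :=
    ⟨lift (𝟙 _) (𝟙 _), fst _ _, lift_fst _ _⟩
  exact hD.retract (h2.trans (Retract.pow_prod_pow X r r))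

/-- the algebraic maps which send a class `τ` into a subspace -/
theorem rel_one [CharZero Ω] {r m : ℕ} (hm : 1 ≤ m)
    (hN : Nul P (X.selfProd r) (X.selfProd r) = ⊥) {M : Submodule Ω (P.H (X.selfProd r))}
    (hM : ∀ f ∈ Mor P (X.selfProd r) (X.selfProd r), ∀ t ∈ M, f t ∈ M)
    {τ : P.H (X.selfProd r)} (hτ : τ ∉ M)
    {L : Submodule Ω (P.H (X.selfProd r) →ₗ[Ω] P.H (X.selfProd m))}
    (hL : L ≤ Mor P (X.selfProd r) (X.selfProd m))
    (hL' : ∀ f ∈ L, ∀ g ∈ Mor P (X.selfProd m) (X.selfProd r), g (f τ) ∈ M) :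
    nr P ((X.selfProd r).prod (X.selfProd m)) + Module.finrank Ω L ≤
      Module.finrank Ω (Mor P (X.selfProd r) (X.selfProd m)) +
        (Module.finrank Ω (P.H (X.selfProd r)) - 1) * uni P X m := by
  obtain ⟨e, he, hee, hre, h⟩ := exists_idem_rel M hM hτ hN
  have h1 := rdim_add (Nul P (X.selfProd r) (X.selfProd m)) (Mor P (X.selfProd r) (X.selfProd m))
  have h2 := rdim_add (Nul P (X.selfProd r) (X.selfProd m)) L
  have h3 := Submodule.finrank_mono (inf_le_inf_right
    (Nul P (X.selfProd r) (X.selfProd m)) hL)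
  have h4 : rdim (Nul P (X.selfProd r) (X.selfProd m)) L ≤
      rdim (Nul P (X.selfProd r) (X.selfProd m))
        ((Mor P (X.selfProd r) (X.selfProd m)).map (precomp e)) :=
    rdim_le_of_forall fun f hf => ⟨f ∘ₗ e, ⟨f, hL hf, rfl⟩, h _ f (hL hf) (hL' f hf)⟩
  rw [Pool.Agent.Helper4.HL.rdim_precomp he] at h4
  have h5 := rho_le_uni (P := P) X hm (adj_mem_Mor he) (by rw [← adj_comp, hee])
  rw [finrank_range_adj] at h5
  have h6 : Module.finrank Ω (LinearMap.range e) * uni P X m ≤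
      (Module.finrank Ω (P.H (X.selfProd r)) - 1) * uni P X m :=
    Nat.mul_le_mul_right _ (by omega)
  rw [rdim_Mor] at h1
  omega

/-- a system of classes which are not all algebraic on one power -/
theorem sys_one [CharZero Ω] {V : ∀ n, Submodule Ω (P.H (X.selfProd n))} (hV : IsSys V)
    (hA : ∀ n, P.alg (X.selfProd n) ≤ V n) {r m : ℕ} (hm : 1 ≤ m)
    (hD : P.D (X.selfProd (2 * r + 1))) (hr : V r ≠ P.alg (X.selfProd r)) :
    Pool.Agent.Helper34.ZP.hr P (X.selfProd m) + nr P ((X.selfProd r).prod (X.selfProd m)) ≤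
      Module.finrank Ω (V m) + (Module.finrank Ω (P.H (X.selfProd r)) - 1) * uni P X m := by
  obtain ⟨τ, hτ, hτ'⟩ : ∃ τ ∈ V r, τ ∉ P.alg (X.selfProd r) := by
    by_contra hcon
    push Not at hcon
    exact hr (le_antisymm hcon (hA r))
  have := P.fin (X.selfProd m)
  have := P.fin (X.selfProd r)
  let f : (P.H (X.selfProd r) →ₗ[Ω] P.H (X.selfProd m)) →ₗ[Ω]
      P.H (X.selfProd m) ⧸ P.alg (X.selfProd m) :=
    (P.alg (X.selfProd m)).mkQ ∘ₗ (LinearMap.applyₗ τ)
  have h1 := finrank_map_add f (Mor P (X.selfProd r) (X.selfProd m))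
  have h2 : (Mor P (X.selfProd r) (X.selfProd m)).map f ≤
      (V m).map (P.alg (X.selfProd m)).mkQ := by
    rintro _ ⟨T, hT, rfl⟩
    exact ⟨T τ, hV r m T hT τ hτ, rfl⟩
  have h3 := Submodule.finrank_mono h2
  have h4 := finrank_map_add (P.alg (X.selfProd m)).mkQ (V m)
  rw [Submodule.ker_mkQ, inf_eq_right.2 (hA m)] at h4
  have h5 := rel_one hm (Nul_self_eq_bot hD) (M := P.alg (X.selfProd r))
    (fun g hg t ht => map_alg hg ht) hτ'
    (L := Mor P (X.selfProd r) (X.selfProd m) ⊓ LinearMap.ker f) inf_le_left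
    (by
      rintro T ⟨hT, hTf⟩ g hg
      have h7 : (P.alg (X.selfProd m)).mkQ (T τ) = 0 := LinearMap.mem_ker.1 hTf
      rw [Submodule.mkQ_apply, Submodule.Quotient.mk_eq_zero] at h7
      exact map_alg hg h7)
  unfold Pool.Agent.Helper34.ZP.hr
  omega

/-- a system of classes with non-degenerate pairings which are not all algebraic on one power -/
theorem perfect_one [CharZero Ω] {V : ∀ n, Submodule Ω (P.H (X.selfProd n))} (hV : IsSys V)
    (hA : ∀ n, P.alg (X.selfProd n) ≤ V n) {r m : ℕ} (hm : 1 ≤ m)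
    (hnd : ∀ x ∈ V m, (∀ y ∈ V m, P.tr _ (x * y) = 0) → x = 0)
    (hD : P.D (X.selfProd (2 * r + 1))) (hr : V r ≠ P.alg (X.selfProd r)) :
    2 * Pool.Agent.Helper34.ZP.hr P (X.selfProd m) +
        nr P ((X.selfProd r).prod (X.selfProd m)) ≤
      Module.finrank Ω (V m) + nr P (X.selfProd m) +
        (Module.finrank Ω (P.H (X.selfProd r)) - 1) * uni P X m := by
  have hDr := D_of_double hD
  have := P.fin (X.selfProd m)
  have := P.fin (X.selfProd r)
  -- a class which is orthogonal to the algebraic classes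
  obtain ⟨z, hz, hz'⟩ : ∃ z ∈ V r, z ∉ P.alg (X.selfProd r) := by
    by_contra hcon
    push Not at hcon
    exact hr (le_antisymm hcon (hA r))
  obtain ⟨a, ha, h1⟩ := exists_proj (trB P (X.selfProd r)) (A := P.alg (X.selfProd r))
    (fun x hx hx' => hDr x ⟨hx, fun y hy => by
      rw [P.ev_comm _ x _ (P.alg_le_ev _ hx)]
      exact hx' y hy⟩) z
  obtain ⟨τ, hτ, hτ0, hτA⟩ : ∃ τ ∈ V r, τ ≠ 0 ∧
      ∀ a ∈ P.alg (X.selfProd r), P.tr _ (a * τ) = 0 :=
    ⟨z - a, sub_mem hz (hA r ha), fun h0 => hz' (by rw [sub_eq_zero.1 h0]; exact ha), h1⟩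
  have horth : ∀ m' (T : P.H (X.selfProd r) →ₗ[Ω] P.H (X.selfProd m')),
      T ∈ Mor P (X.selfProd r) (X.selfProd m') → ∀ b ∈ P.alg (X.selfProd m'),
        P.tr _ (b * T τ) = 0 := by
    intro m' T hT b hb
    rw [← tr_adj]
    exact hτA _ (map_alg (adj_mem_Mor hT) hb)
  -- the space of the classes which are orthogonal to the algebraic classes
  let f : (P.H (X.selfProd r) →ₗ[Ω] P.H (X.selfProd m)) →ₗ[Ω]
      P.H (X.selfProd m) ⧸ radS P (X.selfProd m) :=
    (radS P (X.selfProd m)).mkQ ∘ₗ (LinearMap.applyₗ τ)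
  have h2 := finrank_map_add f (Mor P (X.selfProd r) (X.selfProd m))
  let N : Submodule Ω (P.H (X.selfProd m)) := radS P (X.selfProd m) ⊔ cyc P τ (X.selfProd m)
  have h3 : (Mor P (X.selfProd r) (X.selfProd m)).map f ≤
      N.map (radS P (X.selfProd m)).mkQ := by
    rintro _ ⟨T, hT, rfl⟩
    exact ⟨T τ, Submodule.mem_sup_right ⟨T, hT, rfl⟩, rfl⟩
  have h4 := Submodule.finrank_mono h3
  have h5 := finrank_map_add (radS P (X.selfProd m)).mkQ N
  rw [Submodule.ker_mkQ, inf_eq_right.2 (le_sup_left : radS P (X.selfProd m) ≤ N)] at h5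
  have h6 : Module.finrank Ω N + Module.finrank Ω (P.alg (X.selfProd m)) ≤
      Module.finrank Ω (V m) := by
    refine finrank_add_le_of_ortho (trB P (X.selfProd m)) (hA m) ?_
      (fun x hx h => hnd x hx h) ?_
    · refine sup_le (fun x hx => hA m hx.1) ?_
      rintro _ ⟨T, hT, rfl⟩
      exact hV r m T hT τ hτ
    · intro x hx b hb
      have h7 : N ≤ LinearMap.ker ((trB P (X.selfProd m)).flip b) := by
        refine sup_le (fun y hy => hy.2 b hb) ?_
        rintro _ ⟨T, hT, rfl⟩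
        change P.tr _ (T τ * b) = 0
        rw [← P.ev_comm _ b _ (P.alg_le_ev _ hb)]
        exact horth m T hT b hb
      exact h7 hx
  have h7 := rel_one hm (Nul_self_eq_bot hD) (M := ⊥)
    (fun g _ t ht => by rw [(Submodule.mem_bot _).1 ht, map_zero]; exact zero_mem _)
    (fun h => hτ0 ((Submodule.mem_bot _).1 h))
    (L := Mor P (X.selfProd r) (X.selfProd m) ⊓ LinearMap.ker f) inf_le_left
    (by
      rintro T ⟨hT, hTf⟩ g hg
      have h8 : (radS P (X.selfProd m)).mkQ (T τ) = 0 := LinearMap.mem_ker.1 hTf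
      rw [Submodule.mkQ_apply, Submodule.Quotient.mk_eq_zero] at h8
      refine (Submodule.mem_bot _).2 (hDr _ ⟨map_alg hg h8.1, fun b hb => ?_⟩)
      rw [← P.ev_comm _ b _ (P.alg_le_ev _ hb)]
      exact horth r (g ∘ₗ T) (hT.comp hg) b hb)
  have h8 := rdim_add (radS P (X.selfProd m)) (P.alg (X.selfProd m))
  have h9 : P.alg (X.selfProd m) ⊓ radS P (X.selfProd m) = radS P (X.selfProd m) :=
    inf_eq_right.2 fun x hx => hx.1
  rw [h9] at h8
  change nr P (X.selfProd m) + _ = _ at h8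
  unfold Pool.Agent.Helper34.ZP.hr
  omega

end Pool.Agent.Helper34.ZP
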