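import Mathlib
import Pool.Agent.Helper34.ZP.RelU
import Pool.Agent.Helper13.ZP.Uni2

/-!
# The ranks of two neighbouring powers, uniformly
-/

universe u v w t

open CategoryTheory TensorProduct Filter Topology

namespace Pool.Agent.Helper34.ZP

open Pool.Agent.Helper10 Pool.Agent.Helper11.Iso SmProjVar SPre Pool.Agent.Helper4.HL

/-- the size of `l` -/
lemma exists_l0 (b A : ℕ) (D : ℕ) {ε : ℝ} (hε : 0 < ε) : ∃ l0 : ℕ, ∀ l : ℕ, l0 ≤ l →
    1 ≤ l ∧ (b : ℝ) / ε < Real.log (l + 2) ∧ D * Real.log (l + 2) ≤ l ∧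
      A * (D * Real.log (l + 2) / l) ≤ ε := by
  obtain ⟨L0, hL0⟩ := Pool.Agent.Helper47.ZP.log_small (A * D / ε + D)
  obtain ⟨L1, hL1⟩ := exists_nat_gt (Real.exp ((b : ℝ) / ε))
  refine ⟨L0 + L1 + 1, fun l hl => ⟨by omega, ?_, ?_⟩⟩
  · have h1 : Real.exp ((b : ℝ) / ε) < (l : ℝ) + 2 := by
      have h2 : ((L0 + L1 + 1 : ℕ) : ℝ) ≤ l := by exact_mod_cast hl
      push_cast at h2
      have h3 : (0 : ℝ) ≤ L0 := Nat.cast_nonneg _
      linarith
    rw [← Real.log_exp ((b : ℝ) / ε)]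
    exact Real.log_lt_log (Real.exp_pos _) h1
  · have hl1 : (1 : ℝ) ≤ l := by
      have : 1 ≤ l := by omega
      exact_mod_cast this
    have hl0 : (0 : ℝ) < l := by linarith
    have h1 := hL0 l (by omega)
    have h2 : (1 : ℝ) ≤ Real.log (l + 2) := by
      rw [← Real.log_exp 1]
      refine Real.log_le_log (Real.exp_pos _) ?_
      have := Real.exp_one_lt_d9
      linarith
    have h3 : (1 : ℝ) ≤ √((l : ℝ) + 2) := by
      rw [Real.one_le_sqrt]
      linarith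
    have h4 : Real.log (l + 2) ≤ Real.log (l + 2) ^ 2 * √((l : ℝ) + 2) := by
      calc Real.log (l + 2) = Real.log (l + 2) * 1 * 1 := by ring
        _ ≤ Real.log (l + 2) * Real.log (l + 2) * √((l : ℝ) + 2) := by gcongr
        _ = _ := by ring
    have h5 : (0 : ℝ) ≤ A * D / ε := by positivity
    have h6 : (0 : ℝ) ≤ D := Nat.cast_nonneg _
    have h7 : (A * D / ε + D) * Real.log (l + 2) ≤ l := by
      refine le_trans ?_ h1
      rw [mul_assoc]
      exact mul_le_mul_of_nonneg_left h4 (by positivity)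
    have h8 : 0 ≤ Real.log ((l : ℝ) + 2) := by linarith
    constructor
    · refine le_trans ?_ h7
      exact mul_le_mul_of_nonneg_right (by linarith) h8
    · have h9 : A * D / ε * Real.log (l + 2) ≤ l := by
        refine le_trans ?_ h7
        exact mul_le_mul_of_nonneg_right (by linarith) h8
      rw [div_mul_eq_mul_div, div_le_iff₀ hε] at h9
      rw [mul_div_assoc', div_le_iff₀ hl0]
      linarith

variable {k : Type u} [Field k] {K : Type t} [Field K] {Ω : Type v} [Field Ω] [Algebra K Ω]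
  {P : SPre.{u, v, w, t} k K Ω}

lemma even_up_iter [CharZero Ω] (X : SmProjVar k) (l i : ℕ) :
    nr P (X.selfProd (2 * (l + i) + 1)) ≤
      Module.finrank Ω (P.H X) ^ (2 * i) * nr P (X.selfProd (2 * l + 1)) := by
  induction i with
  | zero => rw [mul_zero, pow_zero, one_mul, add_zero]
  | succ i ih =>
    have h := even_up (P := P) X (l + i)
    rw [← add_assoc]
    refine h.trans ((Nat.mul_le_mul_left _ ih).trans_eq ?_)
    ring

/-- the ranks of neighbouring powers, if the numerical rank is not small -/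
theorem step_aux [CharZero Ω] (hpt : ∀ Y, 1 ≤ nr P Y) (X : SmProjVar k) {b j : ℕ}
    (hX : Module.finrank Ω (P.H X) ≤ b) {ε : ℝ} (hε1 : ε ≤ 1) {l : ℕ} (hl : 1 ≤ l)
    (hDl : ((2 * b ^ 2 + 1 : ℕ) : ℝ) * Real.log (l + 2) ≤ l)
    (hδ : ((b ^ (2 * j + 4) * (j + 2) : ℕ) : ℝ) *
      (((2 * b ^ 2 + 1 : ℕ) : ℝ) * Real.log (l + 2) / l) ≤ ε)
    (hal : (hr P (X.selfProd (2 * l + 1)) : ℝ) <
      nr P (X.selfProd (2 * l + 1)) * Real.log (l + 2)) {m : ℕ}
    (hm : m = 2 * l + 1 ∨ m = 2 * l + 2) :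
    (1 - ε) * nr P (X.selfProd m) +
      ((Module.finrank Ω (P.H (X.selfProd (2 * j + 1))) : ℝ) - 1) * uni P X m ≤
        nr P ((X.selfProd (2 * j + 1)).prod (X.selfProd m)) := by
  have hb1 := one_le_finrank hpt X
  have hN : ∀ m, (0 : ℝ) < nr P (X.selfProd m) := fun m => by exact_mod_cast hpt _
  have h2 := Pool.Agent.Helper47.ZP.ratio_explicit
    (a := fun l => hr P (X.selfProd (2 * l + 1))) (c := fun l => nr P (X.selfProd (2 * l + 1)))
    (D := 2 * b ^ 2 + 1) hb1 (fun l => hpt _) (even_conv X) (even_growth hpt X)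
    (by
      have h3 := nr_le_pow (P := P) X (2 * 0 + 1)
      have h4 : Module.finrank Ω (P.H X) ^ 2 ≤ b ^ 2 := Nat.pow_le_pow_left hX 2
      have h5 : Module.finrank Ω (P.H X) ^ (2 * 0 + 1 + 1) = Module.finrank Ω (P.H X) ^ 2 := rfl
      rw [h5] at h3
      change _ + 1 + nr P (X.selfProd (2 * 0 + 1)) ≤ _
      omega) hl hal hDl
  rw [finrank_selfProd]
  set B := Module.finrank Ω (P.H X) with hB
  set δ : ℝ := ((2 * b ^ 2 + 1 : ℕ) : ℝ) * Real.log (l + 2) / l with hδdef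
  have hδ0 : 0 ≤ δ := by
    have : 0 ≤ Real.log ((l : ℝ) + 2) := Real.log_nonneg (by
      have : (0 : ℝ) ≤ l := Nat.cast_nonneg l
      linarith)
    positivity
  set N : ℝ := (nr P (X.selfProd (2 * l + 1)) : ℝ) with hNdef
  have hN0 : 0 < N := hN _
  have hBr : (1 : ℝ) ≤ B := by exact_mod_cast hb1
  have hBb : (B : ℝ) ≤ b := by exact_mod_cast hX
  have hbr : (1 : ℝ) ≤ b := hBr.trans hBb
  push_cast at hδ
  rcases hm with rfl | rfl
  · -- even powers
    rw [uni_odd, nr_pow_prod_pow]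
    have e1 : 2 * j + 1 + (2 * l + 1) + 1 = 2 * (l + (j + 1)) + 1 := by ring
    rw [e1]
    have h3 := h2 (j + 1)
    rw [← hNdef]
    refine le_trans ?_ h3
    have h4 : (B : ℝ) ^ (2 * (j + 1)) * ((j + 1 : ℕ) : ℝ) * δ ≤ ε := by
      refine le_trans ?_ hδ
      push_cast
      have h5 : (B : ℝ) ^ (2 * (j + 1)) ≤ (b : ℝ) ^ (2 * j + 4) :=
        (pow_le_pow_left₀ (by linarith) hBb _).trans (pow_le_pow_right₀ hbr (by omega))
      gcongr
      linarith
    have h6 : (B : ℝ) ^ (2 * (j + 1)) * (1 - ((j + 1 : ℕ) : ℝ) * δ) * N =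
        (B : ℝ) ^ (2 * (j + 1)) * N - (B : ℝ) ^ (2 * (j + 1)) * ((j + 1 : ℕ) : ℝ) * δ * N := by
      ring
    rw [h6]
    have h7 := mul_le_mul_of_nonneg_right h4 hN0.le
    have e2 : 2 * j + 1 + 1 = 2 * (j + 1) := by ring
    rw [e2]
    push_cast at h7 ⊢
    linarith
  · -- odd powers
    rw [uni_even, nr_pow_prod_pow]
    have e1 : 2 * j + 1 + (2 * l + 2) + 1 = 2 * (l + (j + 1)) + 2 := by ring
    rw [e1]
    have h3 := h2 (j + 2)
    have h4 : (nr P (X.selfProd (2 * (l + (j + 2)) + 1)) : ℝ) ≤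
        nr P (X.selfProd (2 * (l + (j + 1)) + 2)) + ((B : ℝ) ^ 2 - B) *
          ((B : ℝ) ^ (2 * (j + 1)) * N) := by
      have h5 := odd_step (P := P) X (l + (j + 1))
      have h6 : B ≤ B ^ 2 := by nlinarith
      have h7 := even_up_iter (P := P) X l (j + 1)
      rw [← hB] at h5 h7
      have h8 : (nr P (X.selfProd (2 * (l + (j + 1) + 1) + 1)) : ℝ) ≤
          nr P (X.selfProd (2 * (l + (j + 1)) + 2)) + ((B ^ 2 - B : ℕ) : ℝ) *
            nr P (X.selfProd (2 * (l + (j + 1)) + 1)) := by exact_mod_cast h5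
      rw [Nat.cast_sub h6, Nat.cast_pow] at h8
      have h9 : (nr P (X.selfProd (2 * (l + (j + 1)) + 1)) : ℝ) ≤
          (B : ℝ) ^ (2 * (j + 1)) * N := by
        rw [hNdef]
        exact_mod_cast h7
      have h10 : (0 : ℝ) ≤ (B : ℝ) ^ 2 - B := by nlinarith
      have e2 : 2 * (l + (j + 1) + 1) + 1 = 2 * (l + (j + 2)) + 1 := by ring
      rw [e2] at h8
      refine h8.trans ?_
      have h11 := mul_le_mul_of_nonneg_left h9 h10
      linarith
    have h5 : (nr P (X.selfProd (2 * l + 2)) : ℝ) ≤ B * N := by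
      have h6 := odd_le (P := P) X l
      rw [← hB] at h6
      rw [hNdef]
      exact_mod_cast h6
    have h6 : (1 - ε) * (nr P (X.selfProd (2 * l + 2)) : ℝ) ≤ (1 - ε) * (B * N) :=
      mul_le_mul_of_nonneg_left h5 (by linarith)
    have h7 : (B : ℝ) ^ (2 * (j + 2)) * ((j + 2 : ℕ) : ℝ) * δ ≤ ε * B := by
      have h8 : (B : ℝ) ^ (2 * (j + 2)) * ((j + 2 : ℕ) : ℝ) * δ ≤ ε := by
        refine le_trans ?_ hδ
        push_cast
        have h9 : (B : ℝ) ^ (2 * (j + 2)) ≤ (b : ℝ) ^ (2 * j + 4) := by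
          have e2 : 2 * (j + 2) = 2 * j + 4 := by ring
          rw [e2]
          exact pow_le_pow_left₀ (by linarith) hBb _
        gcongr
      have h9 : 0 ≤ ε := le_trans (by positivity) h8
      nlinarith
    have h8 := mul_le_mul_of_nonneg_right h7 hN0.le
    have h9 : (B : ℝ) ^ (2 * (j + 2)) * (1 - ((j + 2 : ℕ) : ℝ) * δ) * N =
        (B : ℝ) ^ (2 * (j + 2)) * N - (B : ℝ) ^ (2 * (j + 2)) * ((j + 2 : ℕ) : ℝ) * δ * N := by
      ring
    rw [h9] at h3
    have h10 : (B : ℝ) ^ (2 * (j + 2)) * N = ((B : ℝ) ^ 2 - B) * ((B : ℝ) ^ (2 * (j + 1)) * N) +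
        (B : ℝ) ^ (2 * j + 1 + 1) * (B * N) := by ring
    rw [h10] at h3
    push_cast at h3 h8 ⊢
    linarith

/-- **The ranks of neighbouring powers**, uniformly in all fields, theories and varieties with
bounded Betti number. -/
theorem step_uniform (b j : ℕ) {ε : ℝ} (hε : 0 < ε) (hε1 : ε ≤ 1) : ∃ m₀ : ℕ, 1 ≤ m₀ ∧
    ∀ (k : Type u) [Field k] (K : Type t) [Field K] (Ω : Type v) [Field Ω] [Algebra K Ω]
      [CharZero Ω] (P : SPre.{u, v, w, t} k K Ω), (∀ Y, 1 ≤ nr P Y) → ∀ X : SmProjVar k,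
        Module.finrank Ω (P.H X) ≤ b → ∀ m ≥ m₀,
          ε * hr P (X.selfProd m) < nr P (X.selfProd m) →
            (1 - ε) * nr P (X.selfProd m) +
              ((Module.finrank Ω (P.H (X.selfProd (2 * j + 1))) : ℝ) - 1) * uni P X m ≤
                nr P ((X.selfProd (2 * j + 1)).prod (X.selfProd m)) := by
  obtain ⟨l0, hl0⟩ := exists_l0 b (b ^ (2 * j + 4) * (j + 2)) (2 * b ^ 2 + 1) hε
  refine ⟨2 * l0 + 3, by omega, ?_⟩
  intro k _ K _ Ω _ _ _ P hpt X hX m hm hlt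
  have hB : (1 : ℝ) ≤ Module.finrank Ω (P.H X) := by exact_mod_cast one_le_finrank hpt X
  have hb : (Module.finrank Ω (P.H X) : ℝ) ≤ b := by exact_mod_cast hX
  obtain ⟨l, hl, hml⟩ : ∃ l ≥ l0, m = 2 * l + 1 ∨ m = 2 * l + 2 := by
    rcases Nat.even_or_odd' m with ⟨l, rfl | rfl⟩
    · exact ⟨l - 1, by omega, by omega⟩
    · exact ⟨l, by omega, by omega⟩
  obtain ⟨h1, h2, h3, h4⟩ := hl0 l hl
  refine step_aux hpt X hX hε1 h1 h3 h4 ?_ hml
  have hN : (0 : ℝ) < nr P (X.selfProd (2 * l + 1)) := by exact_mod_cast hpt _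
  have h5 : (hr P (X.selfProd (2 * l + 1)) : ℝ) * ε < b * nr P (X.selfProd (2 * l + 1)) := by
    rcases hml with rfl | rfl
    · have : (nr P (X.selfProd (2 * l + 1)) : ℝ) ≤ b * nr P (X.selfProd (2 * l + 1)) := by
        nlinarith
      linarith
    · have h6 : (hr P (X.selfProd (2 * l + 1)) : ℝ) ≤ hr P (X.selfProd (2 * l + 2)) := by
        exact_mod_cast hr_le_succ (P := P) X (2 * l + 1)
      have h7 : (nr P (X.selfProd (2 * l + 2)) : ℝ) ≤
          Module.finrank Ω (P.H X) * nr P (X.selfProd (2 * l + 1)) := by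
        exact_mod_cast odd_le (P := P) X l
      nlinarith
  rw [div_lt_iff₀ hε] at h2
  have h6 : (b : ℝ) * nr P (X.selfProd (2 * l + 1)) <
      Real.log (l + 2) * ε * nr P (X.selfProd (2 * l + 1)) := mul_lt_mul_of_pos_right h2 hN
  by_contra hcon
  push Not at hcon
  have h7 := mul_le_mul_of_nonneg_right hcon hε.le
  nlinarith

end Pool.Agent.Helper34.ZP
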