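import Mathlib
import Pool.Agent.Helper34.ZP.StepU

/-!
# The half law on one power
-/

universe u v w t

open CategoryTheory TensorProduct Filter Topology

namespace Pool.Agent.Helper34.ZP

open Pool.Agent.Helper10 Pool.Agent.Helper11.Iso SmProjVar SPre Pool.Agent.Helper4.HL

variable {k : Type u} [Field k] {K : Type t} [Field K] {Ω : Type v} [Field Ω] [Algebra K Ω]
  {P : SPre.{u, v, w, t} k K Ω}

lemma D_of_le {X : SmProjVar k} {s r : ℕ} (h : s ≤ r) (hD : P.D (X.selfProd r)) :
    P.D (X.selfProd s) := by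
  obtain ⟨i, rfl⟩ := Nat.exists_eq_add_of_le h
  clear h
  induction i with
  | zero => exact hD
  | succ i ih => exact ih (hD.retract (G7_retract_succ X (s + i)))

lemma sys_of_le {X : SmProjVar k} {V : ∀ n, Submodule Ω (P.H (X.selfProd n))} (hV : IsSys V)
    (hA : ∀ n, P.alg (X.selfProd n) ≤ V n) {s r : ℕ} (h : s ≤ r)
    (hr : V r = P.alg (X.selfProd r)) : V s = P.alg (X.selfProd s) := by
  obtain ⟨i, rfl⟩ := Nat.exists_eq_add_of_le h
  clear h
  induction i with
  | zero => exact hr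
  | succ i ih =>
    refine ih ?_
    by_contra hcon
    exact ne_succ hA hV hcon hr

/-- twice the algebraic classes, on one power -/
lemma two_mul_hr_le_one {X : SmProjVar k} {V : Submodule Ω (P.H X)} (hA : P.alg X ≤ V)
    (hnd : ∀ x ∈ V, (∀ y ∈ V, P.tr _ (x * y) = 0) → x = 0) :
    2 * Pool.Agent.Helper34.ZP.hr P X ≤ Module.finrank Ω V + nr P X := by
  have := P.fin X
  have h1 := finrank_add_le_of_ortho (trB P X) hA (N := P.alg X ⊓ radS P X)
    (inf_le_left.trans hA) (fun x hx h => hnd x hx h) (fun x hx a ha => hx.2.2 a ha)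
  have h2 := rdim_add (radS P X) (P.alg X)
  unfold Pool.Agent.Helper34.ZP.hr nr
  omega

/-- **The half law on one power.** For all `b`, `r` and `ε > 0` there is `m₀` such that for all
fields, all theories, all `X` with `dim H(X) ≤ b` and all systems `V` of classes on the powers of
`X`: if for one `m ≥ m₀` the pairing on `V m` is non-degenerate and the proportion of the algebraic
classes in `V m` is at least `1 / 2 + ε`, then `D` holds for `X ^ (s + 1)` and `V s` consists of
algebraic classes for all `s ≤ r`. -/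
theorem uniform_half_law (b r : ℕ) {ε : ℝ} (hε : 0 < ε) : ∃ m₀ : ℕ,
    ∀ (k : Type u) [Field k] (K : Type t) [Field K] (Ω : Type v) [Field Ω] [Algebra K Ω]
      [CharZero Ω] (P : SPre.{u, v, w, t} k K Ω), (∀ Y, 1 ≤ nr P Y) → ∀ X : SmProjVar k,
        Module.finrank Ω (P.H X) ≤ b → ∀ V : ∀ n, Submodule Ω (P.H (X.selfProd n)), IsSys V →
          (∀ n, P.alg (X.selfProd n) ≤ V n) → ∀ m ≥ m₀,
            (∀ x ∈ V m, (∀ y ∈ V m, P.tr _ (x * y) = 0) → x = 0) →
              (1 / 2 + ε) * Module.finrank Ω (V m) ≤ hr P (X.selfProd m) →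
                ∀ s ≤ r, P.D (X.selfProd s) ∧ V s = P.alg (X.selfProd s) := by
  have hε' : 0 < min ε 1 := lt_min hε one_pos
  obtain ⟨m₁, hm₁⟩ := Pool.Agent.Helper13.ZP.one_power.{u, v, w, t} b (2 * (2 * r + 1) + 1) hε'
  obtain ⟨m₂, hm₂, hstep⟩ := step_uniform.{u, v, w, t} b r hε' (min_le_right _ _)
  refine ⟨max m₁ m₂, ?_⟩
  intro k _ K _ Ω _ _ _ P hpt X hX V hV hA m hm hnd hhalf
  have hmm₁ : m₁ ≤ m := (le_max_left _ _).trans hm
  have hmm₂ : m₂ ≤ m := (le_max_right _ _).trans hm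
  have h2 : 2 * (Pool.Agent.Helper34.ZP.hr P (X.selfProd m) : ℝ) ≤
      Module.finrank Ω (V m) + nr P (X.selfProd m) := by
    exact_mod_cast two_mul_hr_le_one (hA m) hnd
  have hN : (0 : ℝ) < nr P (X.selfProd m) := by exact_mod_cast hpt _
  have hnh : (nr P (X.selfProd m) : ℝ) ≤ Pool.Agent.Helper34.ZP.hr P (X.selfProd m) := by
    exact_mod_cast (rdim_le _ _ : nr P (X.selfProd m) ≤ _)
  -- the contradiction
  have hcon : ∀ t : ℝ, t = Module.finrank Ω (V m) →
      ¬ (2 - min ε 1) * (Pool.Agent.Helper34.ZP.hr P (X.selfProd m) : ℝ) ≤ t := by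
    intro t ht h3
    rw [← ht] at hhalf
    have h4 : (0 : ℝ) < Pool.Agent.Helper34.ZP.hr P (X.selfProd m) := hN.trans_le hnh
    have h5 : 0 < (1 : ℝ) / 2 + ε := by positivity
    have h6 : (1 / 2 + ε) * ((2 - min ε 1) *
        (Pool.Agent.Helper34.ZP.hr P (X.selfProd m) : ℝ)) ≤
          Pool.Agent.Helper34.ZP.hr P (X.selfProd m) :=
      (mul_le_mul_of_nonneg_left h3 h5.le).trans hhalf
    have h7 : 1 < (1 / 2 + ε) * (2 - min ε 1) := by
      have h8 := min_le_left ε 1
      have h9 := min_le_right ε 1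
      nlinarith
    nlinarith
  by_cases hlt : min ε 1 * Pool.Agent.Helper34.ZP.hr P (X.selfProd m) < nr P (X.selfProd m)
  · have hD := hm₁ k K Ω P hpt X hX m hmm₁ hlt.le
    have hVr : V (2 * r + 1) = P.alg (X.selfProd (2 * r + 1)) := by
      by_contra hne
      have h3 := perfect_one hV hA (r := 2 * r + 1) (m := m) (by omega) hnd hD hne
      have h4 := hstep k K Ω P hpt X hX m hmm₂ hlt
      have hb := one_le_finrank hpt (X.selfProd (2 * r + 1))
      have h5 : 2 * (Pool.Agent.Helper34.ZP.hr P (X.selfProd m) : ℝ) +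
          nr P ((X.selfProd (2 * r + 1)).prod (X.selfProd m)) ≤
            Module.finrank Ω (V m) + nr P (X.selfProd m) +
              ((Module.finrank Ω (P.H (X.selfProd (2 * r + 1))) : ℝ) - 1) * uni P X m := by
        have h6 : ((Module.finrank Ω (P.H (X.selfProd (2 * r + 1))) - 1 : ℕ) : ℝ) =
            (Module.finrank Ω (P.H (X.selfProd (2 * r + 1))) : ℝ) - 1 := by
          rw [Nat.cast_sub hb, Nat.cast_one]
        rw [← h6]
        exact_mod_cast h3
      refine hcon _ rfl ?_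
      have h6 : min ε 1 * (nr P (X.selfProd m) : ℝ) ≤
          min ε 1 * Pool.Agent.Helper34.ZP.hr P (X.selfProd m) :=
        mul_le_mul_of_nonneg_left hnh hε'.le
      linarith
    exact fun s hs => ⟨D_of_le (by omega) hD, sys_of_le hV hA (by omega) hVr⟩
  · exfalso
    push Not at hlt
    refine hcon _ rfl ?_
    linarith

/-- the same for systems whose pairings may be degenerate -/
theorem uniform_system_law (b r : ℕ) {ε : ℝ} (hε : 0 < ε) : ∃ m₀ : ℕ,
    ∀ (k : Type u) [Field k] (K : Type t) [Field K] (Ω : Type v) [Field Ω] [Algebra K Ω]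
      [CharZero Ω] (P : SPre.{u, v, w, t} k K Ω), (∀ Y, 1 ≤ nr P Y) → ∀ X : SmProjVar k,
        Module.finrank Ω (P.H X) ≤ b → ∀ V : ∀ n, Submodule Ω (P.H (X.selfProd n)), IsSys V →
          (∀ n, P.alg (X.selfProd n) ≤ V n) → ∀ m ≥ m₀,
            (1 / 2 + ε) * Module.finrank Ω (V m) ≤ nr P (X.selfProd m) →
              ∀ s ≤ r, P.D (X.selfProd s) ∧ V s = P.alg (X.selfProd s) := by
  have hε' : 0 < min ε (1 / 2) := lt_min hε (by norm_num)
  have hε1 : min ε (1 / 2) ≤ 1 := (min_le_right _ _).trans (by norm_num)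
  obtain ⟨m₁, hm₁⟩ := Pool.Agent.Helper13.ZP.one_power.{u, v, w, t} b (2 * (2 * r + 1) + 1) hε'
  obtain ⟨m₂, hm₂, hstep⟩ := step_uniform.{u, v, w, t} b r hε' hε1
  refine ⟨max m₁ m₂, ?_⟩
  intro k _ K _ Ω _ _ _ P hpt X hX V hV hA m hm hhalf
  have hmm₁ : m₁ ≤ m := (le_max_left _ _).trans hm
  have hmm₂ : m₂ ≤ m := (le_max_right _ _).trans hm
  have hN : (0 : ℝ) < nr P (X.selfProd m) := by exact_mod_cast hpt _
  have hnh : (nr P (X.selfProd m) : ℝ) ≤ Pool.Agent.Helper34.ZP.hr P (X.selfProd m) := by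
    exact_mod_cast (rdim_le _ _ : nr P (X.selfProd m) ≤ _)
  have hht : (Pool.Agent.Helper34.ZP.hr P (X.selfProd m) : ℝ) ≤ Module.finrank Ω (V m) := by
    have := P.fin (X.selfProd m)
    exact_mod_cast Submodule.finrank_mono (hA m)
  have h8 := min_le_left ε (1 / 2)
  have h9 := min_le_right ε (1 / 2)
  have hlt : min ε (1 / 2) * Pool.Agent.Helper34.ZP.hr P (X.selfProd m) <
      nr P (X.selfProd m) := by
    have h3 : min ε (1 / 2) * (Pool.Agent.Helper34.ZP.hr P (X.selfProd m) : ℝ) ≤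
        min ε (1 / 2) * Module.finrank Ω (V m) := mul_le_mul_of_nonneg_left hht hε'.le
    have h4 : (0 : ℝ) < Module.finrank Ω (V m) := hN.trans_le (hnh.trans hht)
    have h5 : min ε (1 / 2) * (Module.finrank Ω (V m) : ℝ) <
        (1 / 2 + ε) * Module.finrank Ω (V m) := mul_lt_mul_of_pos_right (by linarith) h4
    linarith
  have hD := hm₁ k K Ω P hpt X hX m hmm₁ hlt.le
  have hVr : V (2 * r + 1) = P.alg (X.selfProd (2 * r + 1)) := by
    by_contra hne
    have h3 := sys_one hV hA (r := 2 * r + 1) (m := m) (by omega) hD hne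
    have h4 := hstep k K Ω P hpt X hX m hmm₂ hlt
    have hb := one_le_finrank hpt (X.selfProd (2 * r + 1))
    have h5 : (Pool.Agent.Helper34.ZP.hr P (X.selfProd m) : ℝ) +
        nr P ((X.selfProd (2 * r + 1)).prod (X.selfProd m)) ≤
          Module.finrank Ω (V m) +
            ((Module.finrank Ω (P.H (X.selfProd (2 * r + 1))) : ℝ) - 1) * uni P X m := by
      have h6 : ((Module.finrank Ω (P.H (X.selfProd (2 * r + 1))) - 1 : ℕ) : ℝ) =
          (Module.finrank Ω (P.H (X.selfProd (2 * r + 1))) : ℝ) - 1 := by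
        rw [Nat.cast_sub hb, Nat.cast_one]
      rw [← h6]
      exact_mod_cast h3
    have h6 : (2 - min ε (1 / 2)) * (nr P (X.selfProd m) : ℝ) ≤ Module.finrank Ω (V m) := by
      linarith
    have h7 : (1 / 2 + ε) * ((2 - min ε (1 / 2)) * (nr P (X.selfProd m) : ℝ)) ≤
        nr P (X.selfProd m) :=
      (mul_le_mul_of_nonneg_left h6 (by positivity)).trans hhalf
    have h10 : 1 < (1 / 2 + ε) * (2 - min ε (1 / 2)) := by nlinarith
    nlinarith
  exact fun s hs => ⟨D_of_le (by omega) hD, sys_of_le hV hA (by omega) hVr⟩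

end Pool.Agent.Helper34.ZP
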