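import Mathlib
import Pool.Agent.Helper34.ZP.UHL

/-!
# The half law on one power, with a rate
-/

universe u v w t

open CategoryTheory TensorProduct Filter Topology

namespace Pool.Agent.Helper34.ZP

open Pool.Agent.Helper10 Pool.Agent.Helper11.Iso SmProjVar SPre Pool.Agent.Helper4.HL

/-- the size of `l` -/
lemma exists_l1 (A D : ℕ) : ∃ l0 : ℕ, ∀ l : ℕ, l0 ≤ l → ∀ m : ℕ, m ≤ 2 * l + 2 →
    1 ≤ l ∧ D * Real.log (l + 2) ≤ l ∧ A * (D * Real.log (l + 2) / l) * Real.log (m + 2) ≤ 1 := by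
  obtain ⟨L0, hL0⟩ := Pool.Agent.Helper47.ZP.log_small (2 * A * D + D)
  refine ⟨L0 + 1, fun l hl m hm => ⟨by omega, ?_⟩⟩
  have hl1 : (1 : ℝ) ≤ l := by
    have : 1 ≤ l := by omega
    exact_mod_cast this
  have hl0 : (0 : ℝ) < l := by linarith
  have h1 := hL0 l (by omega)
  have h2 : (1 : ℝ) ≤ Real.log (l + 2) := by
    rw [← Real.log_exp 1]
    refine Real.log_le_log (Real.exp_pos _) ?_
    have := Real.exp_one_lt_d9
    linarith
  have h3 : (1 : ℝ) ≤ √((l : ℝ) + 2) := by
    rw [Real.one_le_sqrt]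
    linarith
  have h0 : 0 ≤ Real.log ((l : ℝ) + 2) := by linarith
  have h4 : Real.log (l + 2) ^ 2 ≤ Real.log (l + 2) ^ 2 * √((l : ℝ) + 2) :=
    le_mul_of_one_le_right (by positivity) h3
  have h5 : Real.log (l + 2) ≤ Real.log (l + 2) ^ 2 := by nlinarith
  have hA : (0 : ℝ) ≤ A := Nat.cast_nonneg _
  have hD : (0 : ℝ) ≤ D := Nat.cast_nonneg _
  have h6 : (2 * A * D + D) * Real.log (l + 2) ^ 2 ≤ l := by
    refine le_trans ?_ h1
    have h9 := mul_le_mul_of_nonneg_left h4 (show (0 : ℝ) ≤ 2 * A * D + D by positivity)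
    rwa [← mul_assoc (2 * (A : ℝ) * D + D)] at h9
  have h7 : Real.log ((m : ℝ) + 2) ≤ 2 * Real.log (l + 2) := by
    have h8 : 2 * Real.log (l + 2 : ℝ) = Real.log ((l + 2) ^ 2) := by
      rw [Real.log_pow]; norm_num
    rw [h8]
    have hm' : (m : ℝ) ≤ 2 * l + 2 := by exact_mod_cast hm
    have hm0 : (0 : ℝ) ≤ m := Nat.cast_nonneg _
    refine Real.log_le_log (by positivity) ?_
    nlinarith
  constructor
  · refine le_trans ?_ h6
    have h8 : (D : ℝ) * Real.log (l + 2) ≤ D * Real.log (l + 2) ^ 2 :=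
      mul_le_mul_of_nonneg_left h5 hD
    have h9 : 0 ≤ 2 * (A : ℝ) * D * Real.log (l + 2) ^ 2 := by positivity
    linarith
  · have h8 : (A : ℝ) * (D * Real.log (l + 2) / l) * Real.log (m + 2) ≤
        A * (D * Real.log (l + 2) / l) * (2 * Real.log (l + 2)) :=
      mul_le_mul_of_nonneg_left h7 (by positivity)
    refine h8.trans ?_
    have h9 : (A : ℝ) * (D * Real.log (l + 2) / l) * (2 * Real.log (l + 2)) =
        (2 * A * D * Real.log (l + 2) ^ 2) / l := by ring
    rw [h9, div_le_one hl0]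
    have h10 : 0 ≤ (D : ℝ) * Real.log (l + 2) ^ 2 := by positivity
    linarith

/-- the numerical part of the contradiction -/
lemma half_contra {a t C C0 L : ℝ} (ha : 0 < a) (hC0 : 1 ≤ C0) (hC : C0 ≤ C) (hL : 0 < L)
    (hat : a ≤ t) (h1 : 2 * C < L → (2 - C0 / L) * a ≤ t) :
    ¬ (1 / 2 + C / L) * t < a := by
  intro h
  have hC1 : 0 < C := by linarith
  have ht : 0 < t := ha.trans_le hat
  by_cases hLC : 2 * C < L
  · have h2 := h1 hLC
    have h3 : 0 < 1 / 2 + C / L := by positivity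
    have h4 := mul_le_mul_of_nonneg_left h2 h3.le
    have h5 : (1 / 2 + C / L) * (2 - C0 / L) * a < 1 * a := by
      rw [one_mul]
      calc (1 / 2 + C / L) * (2 - C0 / L) * a = (1 / 2 + C / L) * ((2 - C0 / L) * a) := by ring
        _ ≤ (1 / 2 + C / L) * t := h4
        _ < a := h
    have h6 := lt_of_mul_lt_mul_right h5 ha.le
    have h7 : C0 / L ≤ C / L := by gcongr
    have h8 : C / L < 1 / 2 := by
      rw [div_lt_iff₀ hL]
      linarith
    have h9 : 0 < C / L := by positivity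
    have h10 : 0 < C0 / L := by positivity
    nlinarith
  · have h2 : 1 / 2 ≤ C / L := by
      rw [le_div_iff₀ hL]
      linarith
    nlinarith

/-- both cases together: twice the algebraic classes -/
theorem two_mul_rate (b r : ℕ) : ∃ C : ℝ, 1 ≤ C ∧
    ∀ (k : Type u) [Field k] (K : Type t) [Field K] (Ω : Type v) [Field Ω] [Algebra K Ω]
      [CharZero Ω] (P : SPre.{u, v, w, t} k K Ω), (∀ Y, 1 ≤ nr P Y) → ∀ X : SmProjVar k,
        Module.finrank Ω (P.H X) ≤ b → ∀ m : ℕ, 2 * C < Real.log (m + 2) →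
          (nr P (X.selfProd m) * Real.log (m + 2) ≤ C * hr P (X.selfProd m)) ∨
          (P.D (X.selfProd (2 * (2 * r + 1) + 1)) ∧
            (1 - 1 / Real.log (m + 2)) * nr P (X.selfProd m) +
              ((Module.finrank Ω (P.H (X.selfProd (2 * r + 1))) : ℝ) - 1) * uni P X m ≤
                nr P ((X.selfProd (2 * r + 1)).prod (X.selfProd m))) := by
  obtain ⟨C1, hC1, h1⟩ := Pool.Agent.Helper13.ZP.zop_uniform_le.{u, v, w, t} b
    (2 * (2 * r + 1) + 1)
  obtain ⟨l0, hl0⟩ := exists_l1 (b ^ (2 * r + 4) * (r + 2)) (2 * b ^ 2 + 1)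
  refine ⟨C1 + 2 * b + 2 + Real.log (2 * l0 + 5), ?_, ?_⟩
  · have h2 : (0 : ℝ) ≤ b := Nat.cast_nonneg _
    have h3 : 0 ≤ Real.log (2 * (l0 : ℝ) + 5) := Real.log_nonneg (by
      have : (0 : ℝ) ≤ l0 := Nat.cast_nonneg _
      linarith)
    linarith
  intro k _ K _ Ω _ _ _ P hpt X hX m hm
  set L : ℝ := Real.log (m + 2) with hLdef
  have hb0 : (0 : ℝ) ≤ b := Nat.cast_nonneg _
  have hlog0 : 0 ≤ Real.log (2 * (l0 : ℝ) + 5) := Real.log_nonneg (by
    have : (0 : ℝ) ≤ l0 := Nat.cast_nonneg _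
    linarith)
  have hL1 : 1 ≤ L := by linarith
  have hB : (1 : ℝ) ≤ Module.finrank Ω (P.H X) := by exact_mod_cast one_le_finrank hpt X
  have hBb : (Module.finrank Ω (P.H X) : ℝ) ≤ b := by exact_mod_cast hX
  have hh0 : (0 : ℝ) ≤ hr P (X.selfProd m) := Nat.cast_nonneg _
  by_cases hA : nr P (X.selfProd m) * L ≤
      (C1 + 2 * b + 2 + Real.log (2 * l0 + 5)) * hr P (X.selfProd m)
  · exact .inl hA
  right
  push Not at hA
  have hA1 : (C1 + 2 * b + 2) * (hr P (X.selfProd m) : ℝ) < nr P (X.selfProd m) * L := by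
    refine lt_of_le_of_lt (mul_le_mul_of_nonneg_right ?_ hh0) hA
    linarith
  refine ⟨?_, ?_⟩
  · by_contra hD
    have h2 := h1 k K Ω P hpt X hX hD m
    have h3 : C1 * (hr P (X.selfProd m) : ℝ) ≤ (C1 + 2 * b + 2) * hr P (X.selfProd m) :=
      mul_le_mul_of_nonneg_right (by linarith) hh0
    rw [← hLdef] at h2
    linarith
  -- `m` is large
  have hml : 2 * l0 + 3 ≤ m := by
    by_contra hcon
    push Not at hcon
    have h2 : L ≤ Real.log (2 * l0 + 5) := by
      have h3 : (m : ℝ) ≤ 2 * l0 + 3 := by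
        have : m ≤ 2 * l0 + 3 := hcon.le
        exact_mod_cast this
      have hm0 : (0 : ℝ) ≤ m := Nat.cast_nonneg _
      exact Real.log_le_log (by positivity) (by linarith)
    linarith
  obtain ⟨l, hl, hml⟩ : ∃ l ≥ l0, m = 2 * l + 1 ∨ m = 2 * l + 2 := by
    rcases Nat.even_or_odd' m with ⟨l, rfl | rfl⟩
    · exact ⟨l - 1, by omega, by omega⟩
    · exact ⟨l, by omega, by omega⟩
  obtain ⟨h2, h3, h4⟩ := hl0 l hl m (by omega)
  have hlr : (1 : ℝ) ≤ l := by exact_mod_cast h2
  have hlogl : 0 ≤ Real.log ((l : ℝ) + 2) := Real.log_nonneg (by linarith)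
  have hLl : L ≤ 2 * Real.log (l + 2) := by
    have h8 : 2 * Real.log (l + 2 : ℝ) = Real.log ((l + 2) ^ 2) := by
      rw [Real.log_pow]; norm_num
    rw [h8]
    have hm' : (m : ℝ) ≤ 2 * l + 2 := by
      have : m ≤ 2 * l + 2 := by omega
      exact_mod_cast this
    have hm0 : (0 : ℝ) ≤ m := Nat.cast_nonneg _
    exact Real.log_le_log (by positivity) (by nlinarith)
  refine step_aux hpt X hX (ε := 1 / L) ?_ h2 h3 ?_ ?_ hml
  · rw [div_le_one (by linarith)]
    exact hL1
  · rw [le_div_iff₀ (by linarith)]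
    exact h4
  · -- the homological rank is not too large
    have hn0 : (0 : ℝ) ≤ nr P (X.selfProd (2 * l + 1)) := Nat.cast_nonneg _
    have h5 : (2 * (b : ℝ) + 2) * hr P (X.selfProd m) ≤
        (C1 + 2 * b + 2) * hr P (X.selfProd m) :=
      mul_le_mul_of_nonneg_right (by linarith) hh0
    have hnpos : (0 : ℝ) < nr P (X.selfProd (2 * l + 1)) := by exact_mod_cast hpt _
    have h6 : (hr P (X.selfProd (2 * l + 1)) : ℝ) ≤ hr P (X.selfProd m) ∧
        (nr P (X.selfProd m) : ℝ) ≤ b * nr P (X.selfProd (2 * l + 1)) := by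
      rcases hml with rfl | rfl
      · exact ⟨le_rfl, by nlinarith⟩
      · constructor
        · exact_mod_cast hr_le_succ (P := P) X (2 * l + 1)
        · have h7 : (nr P (X.selfProd (2 * l + 2)) : ℝ) ≤
              Module.finrank Ω (P.H X) * nr P (X.selfProd (2 * l + 1)) := by
            exact_mod_cast odd_le (P := P) X l
          exact h7.trans (mul_le_mul_of_nonneg_right hBb hn0)
    have h7 : (nr P (X.selfProd m) : ℝ) * L ≤
        b * nr P (X.selfProd (2 * l + 1)) * (2 * Real.log (l + 2)) :=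
      mul_le_mul h6.2 hLl (by linarith) (by positivity)
    have h8 : (2 * (b : ℝ) + 2) * hr P (X.selfProd (2 * l + 1)) ≤
        (2 * (b : ℝ) + 2) * hr P (X.selfProd m) :=
      mul_le_mul_of_nonneg_left h6.1 (by positivity)
    have h9 : (2 * (b : ℝ) + 2) * hr P (X.selfProd (2 * l + 1)) <
        (2 * (b : ℝ) + 2) * (nr P (X.selfProd (2 * l + 1)) * Real.log (l + 2)) := by
      have h10 : 0 ≤ (nr P (X.selfProd (2 * l + 1)) : ℝ) * Real.log (l + 2) := by positivity
      nlinarith
    exact lt_of_mul_lt_mul_left h9 (by positivity)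

/-- **The half law on one power, with a rate.** For all `b` and `r` there is `C` such that for all
fields, all theories, all `X` with `dim H(X) ≤ b`, all systems `V` of classes on the powers of `X`
and all `m` for which the pairing on `V m` is non-degenerate: if the proportion of the algebraic
classes in `V m` is larger than `1 / 2 + C / log (m + 2)`, then `D` holds for `X ^ (s + 1)` and `V s`
consists of algebraic classes for all `s ≤ r`. -/
theorem uniform_half_rate (b r : ℕ) : ∃ C : ℝ, 0 < C ∧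
    ∀ (k : Type u) [Field k] (K : Type t) [Field K] (Ω : Type v) [Field Ω] [Algebra K Ω]
      [CharZero Ω] (P : SPre.{u, v, w, t} k K Ω), (∀ Y, 1 ≤ nr P Y) → ∀ X : SmProjVar k,
        Module.finrank Ω (P.H X) ≤ b → ∀ V : ∀ n, Submodule Ω (P.H (X.selfProd n)), IsSys V →
          (∀ n, P.alg (X.selfProd n) ≤ V n) → ∀ m : ℕ,
            (∀ x ∈ V m, (∀ y ∈ V m, P.tr _ (x * y) = 0) → x = 0) →
              (1 / 2 + C / Real.log (m + 2)) * Module.finrank Ω (V m) < hr P (X.selfProd m) →
                ∀ s ≤ r, P.D (X.selfProd s) ∧ V s = P.alg (X.selfProd s) := by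
  obtain ⟨C, hC, h⟩ := two_mul_rate.{u, v, w, t} b r
  refine ⟨C, by linarith, ?_⟩
  intro k _ K _ Ω _ _ _ P hpt X hX V hV hA m hnd hhalf
  have hN : (0 : ℝ) < nr P (X.selfProd m) := by exact_mod_cast hpt _
  have hnh : (nr P (X.selfProd m) : ℝ) ≤ Pool.Agent.Helper34.ZP.hr P (X.selfProd m) := by
    exact_mod_cast (rdim_le _ _ : nr P (X.selfProd m) ≤ _)
  have ha : (0 : ℝ) < Pool.Agent.Helper34.ZP.hr P (X.selfProd m) := hN.trans_le hnh
  have hat : (Pool.Agent.Helper34.ZP.hr P (X.selfProd m) : ℝ) ≤ Module.finrank Ω (V m) := by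
    have := P.fin (X.selfProd m)
    exact_mod_cast Submodule.finrank_mono (hA m)
  have hL : 0 < Real.log ((m : ℝ) + 2) := Real.log_pos (by
    have : (0 : ℝ) ≤ m := Nat.cast_nonneg _
    linarith)
  have h2 : 2 * (Pool.Agent.Helper34.ZP.hr P (X.selfProd m) : ℝ) ≤
      Module.finrank Ω (V m) + nr P (X.selfProd m) := by
    exact_mod_cast two_mul_hr_le_one (hA m) hnd
  -- if `D` holds and some class is not algebraic
  have hD : P.D (X.selfProd (2 * (2 * r + 1) + 1)) ∧
      V (2 * r + 1) = P.alg (X.selfProd (2 * r + 1)) := by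
    by_contra hcon
    refine half_contra ha hC le_rfl hL hat (fun hLC => ?_) hhalf
    rcases h k K Ω P hpt X hX m hLC with h3 | ⟨hD, h3⟩
    · have h4 : (nr P (X.selfProd m) : ℝ) ≤
          C / Real.log (m + 2) * Pool.Agent.Helper34.ZP.hr P (X.selfProd m) := by
        rw [div_mul_eq_mul_div, le_div_iff₀ hL]
        exact h3
      rw [sub_mul]
      linarith
    · have hne : V (2 * r + 1) ≠ P.alg (X.selfProd (2 * r + 1)) := fun h4 => hcon ⟨hD, h4⟩
      have hm : 1 ≤ m := by
        by_contra hm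
        have hm0 : m = 0 := by omega
        rw [hm0] at hLC
        have h5 : Real.log (((0 : ℕ) : ℝ) + 2) ≤ 1 := by
          rw [Nat.cast_zero, zero_add]
          have := Real.log_two_lt_d9
          linarith
        linarith
      have h5 := perfect_one hV hA (r := 2 * r + 1) (m := m) hm hnd hD hne
      have hb := one_le_finrank hpt (X.selfProd (2 * r + 1))
      have h6 : ((Module.finrank Ω (P.H (X.selfProd (2 * r + 1))) - 1 : ℕ) : ℝ) =
          (Module.finrank Ω (P.H (X.selfProd (2 * r + 1))) : ℝ) - 1 := by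
        rw [Nat.cast_sub hb, Nat.cast_one]
      have h7 : 2 * (Pool.Agent.Helper34.ZP.hr P (X.selfProd m) : ℝ) +
          nr P ((X.selfProd (2 * r + 1)).prod (X.selfProd m)) ≤
            Module.finrank Ω (V m) + nr P (X.selfProd m) +
              ((Module.finrank Ω (P.H (X.selfProd (2 * r + 1))) : ℝ) - 1) * uni P X m := by
        rw [← h6]
        exact_mod_cast h5
      have h8 : 1 / Real.log (m + 2) * (nr P (X.selfProd m) : ℝ) ≤
          C / Real.log (m + 2) * Pool.Agent.Helper34.ZP.hr P (X.selfProd m) := by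
        refine mul_le_mul ?_ hnh hN.le (by positivity)
        gcongr
      rw [sub_mul]
      linarith
  exact fun s hs => ⟨D_of_le (by omega) hD.1, sys_of_le hV hA (by omega) hD.2⟩

/-- the same for systems whose pairings may be degenerate -/
theorem uniform_system_rate (b r : ℕ) : ∃ C : ℝ, 0 < C ∧
    ∀ (k : Type u) [Field k] (K : Type t) [Field K] (Ω : Type v) [Field Ω] [Algebra K Ω]
      [CharZero Ω] (P : SPre.{u, v, w, t} k K Ω), (∀ Y, 1 ≤ nr P Y) → ∀ X : SmProjVar k,
        Module.finrank Ω (P.H X) ≤ b → ∀ V : ∀ n, Submodule Ω (P.H (X.selfProd n)), IsSys V →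
          (∀ n, P.alg (X.selfProd n) ≤ V n) → ∀ m : ℕ,
            (1 / 2 + C / Real.log (m + 2)) * Module.finrank Ω (V m) < nr P (X.selfProd m) →
              ∀ s ≤ r, P.D (X.selfProd s) ∧ V s = P.alg (X.selfProd s) := by
  obtain ⟨C, hC, h⟩ := two_mul_rate.{u, v, w, t} b r
  refine ⟨C, by linarith, ?_⟩
  intro k _ K _ Ω _ _ _ P hpt X hX V hV hA m hhalf
  have hN : (0 : ℝ) < nr P (X.selfProd m) := by exact_mod_cast hpt _
  have hnh : (nr P (X.selfProd m) : ℝ) ≤ Pool.Agent.Helper34.ZP.hr P (X.selfProd m) := by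
    exact_mod_cast (rdim_le _ _ : nr P (X.selfProd m) ≤ _)
  have hat : (Pool.Agent.Helper34.ZP.hr P (X.selfProd m) : ℝ) ≤ Module.finrank Ω (V m) := by
    have := P.fin (X.selfProd m)
    exact_mod_cast Submodule.finrank_mono (hA m)
  have hL : 0 < Real.log ((m : ℝ) + 2) := Real.log_pos (by
    have : (0 : ℝ) ≤ m := Nat.cast_nonneg _
    linarith)
  have hD : P.D (X.selfProd (2 * (2 * r + 1) + 1)) ∧
      V (2 * r + 1) = P.alg (X.selfProd (2 * r + 1)) := by
    by_contra hcon
    refine half_contra hN hC le_rfl hL (hnh.trans hat) (fun hLC => ?_) hhalf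
    rcases h k K Ω P hpt X hX m hLC with h3 | ⟨hD, h3⟩
    · -- impossible
      exfalso
      have h4 : (nr P (X.selfProd m) : ℝ) * Real.log (m + 2) ≤
          C * Module.finrank Ω (V m) := h3.trans (mul_le_mul_of_nonneg_left hat (by linarith))
      have h5 : (nr P (X.selfProd m) : ℝ) ≤ C / Real.log (m + 2) * Module.finrank Ω (V m) := by
        rw [div_mul_eq_mul_div, le_div_iff₀ hL]
        exact h4
      have h6 : (0 : ℝ) < Module.finrank Ω (V m) := hN.trans_le (hnh.trans hat)
      linarith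
    · have hne : V (2 * r + 1) ≠ P.alg (X.selfProd (2 * r + 1)) := fun h4 => hcon ⟨hD, h4⟩
      have hm : 1 ≤ m := by
        by_contra hm
        have hm0 : m = 0 := by omega
        rw [hm0] at hLC
        have h5 : Real.log (((0 : ℕ) : ℝ) + 2) ≤ 1 := by
          rw [Nat.cast_zero, zero_add]
          have := Real.log_two_lt_d9
          linarith
        linarith
      have h5 := sys_one hV hA (r := 2 * r + 1) (m := m) hm hD hne
      have hb := one_le_finrank hpt (X.selfProd (2 * r + 1))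
      have h6 : ((Module.finrank Ω (P.H (X.selfProd (2 * r + 1))) - 1 : ℕ) : ℝ) =
          (Module.finrank Ω (P.H (X.selfProd (2 * r + 1))) : ℝ) - 1 := by
        rw [Nat.cast_sub hb, Nat.cast_one]
      have h7 : (Pool.Agent.Helper34.ZP.hr P (X.selfProd m) : ℝ) +
          nr P ((X.selfProd (2 * r + 1)).prod (X.selfProd m)) ≤
            Module.finrank Ω (V m) +
              ((Module.finrank Ω (P.H (X.selfProd (2 * r + 1))) : ℝ) - 1) * uni P X m := by
        rw [← h6]
        exact_mod_cast h5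
      have h8 : 1 / Real.log (m + 2) * (nr P (X.selfProd m) : ℝ) ≤
          C / Real.log (m + 2) * nr P (X.selfProd m) := by
        refine mul_le_mul_of_nonneg_right ?_ hN.le
        gcongr
      rw [sub_mul]
      linarith
  exact fun s hs => ⟨D_of_le (by omega) hD.1, sys_of_le hV hA (by omega) hD.2⟩

end Pool.Agent.Helper34.ZP
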