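import Mathlib
import Pool.Agent.Helper34.ZP.UHL

/-!
# Chains of systems on one power
-/

universe u v w t

open CategoryTheory TensorProduct Filter Topology

namespace Pool.Agent.Helper34.ZP

open Pool.Agent.Helper10 Pool.Agent.Helper11.Iso SmProjVar SPre Pool.Agent.Helper4.HL

section

variable {k : Type u} [Field k] {K : Type t} [Field K] {Ω : Type v} [Field Ω] [Algebra K Ω]
  {P : SPre.{u, v, w, t} k K Ω} {X : SmProjVar k}

/-- two systems which are equal on a power are equal on the lower powers -/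
lemma sys_eq_of_le {V V' : ∀ n, Submodule Ω (P.H (X.selfProd n))} (hV : IsSys V) (hV' : IsSys V')
    {s r : ℕ} (h : s ≤ r) (hr : V r = V' r) : V s = V' s := by
  obtain ⟨i, rfl⟩ := Nat.exists_eq_add_of_le h
  clear h
  induction i with
  | zero => exact hr
  | succ i ih =>
    refine ih ?_
    have key : ∀ {U U' : ∀ n, Submodule Ω (P.H (X.selfProd n))}, IsSys U → IsSys U' →
        U (s + (i + 1)) = U' (s + (i + 1)) → U (s + i) ≤ U' (s + i) := by
      intro U U' hU hU' he x hx
      obtain ⟨f, p, hip⟩ := G7_retract_succ X (s + i)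
      have h2 : P.pull p x ∈ U (s + (i + 1)) :=
        hU (s + i) (s + (i + 1)) (P.pull p).toLinearMap (isMap_pull p) x hx
      rw [he] at h2
      have h3 : P.pull f (P.pull p x) ∈ U' (s + i) :=
        hU' (s + (i + 1)) (s + i) (P.pull f).toLinearMap (isMap_pull f) _ h2
      rw [pull_pull, hip, P.pull_id, AlgHom.id_apply] at h3
      exact h3
    exact le_antisymm (key hV hV' hr) (key hV' hV hr.symm)

/-- the relative step on one power, for two systems -/
theorem rel2_one [CharZero Ω] {V V' : ∀ n, Submodule Ω (P.H (X.selfProd n))} (hV : IsSys V)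
    (hV' : IsSys V') (hle : ∀ n, V n ≤ V' n) {r m : ℕ} (hm : 1 ≤ m)
    (hD : P.D (X.selfProd (2 * r + 1))) (hr : V r ≠ V' r) :
    Module.finrank Ω (V m) + nr P ((X.selfProd r).prod (X.selfProd m)) ≤
      Module.finrank Ω (V' m) + (Module.finrank Ω (P.H (X.selfProd r)) - 1) * uni P X m := by
  obtain ⟨τ, hτ, hτ'⟩ : ∃ τ ∈ V' r, τ ∉ V r := by
    by_contra hcon
    push Not at hcon
    exact hr (le_antisymm (hle r) hcon)
  have := P.fin (X.selfProd m)
  have := P.fin (X.selfProd r)
  let f : (P.H (X.selfProd r) →ₗ[Ω] P.H (X.selfProd m)) →ₗ[Ω] P.H (X.selfProd m) ⧸ V m :=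
    (V m).mkQ ∘ₗ (LinearMap.applyₗ τ)
  have h1 := finrank_map_add f (Mor P (X.selfProd r) (X.selfProd m))
  have h2 : (Mor P (X.selfProd r) (X.selfProd m)).map f ≤ (V' m).map (V m).mkQ := by
    rintro _ ⟨T, hT, rfl⟩
    exact ⟨T τ, hV' r m T hT τ hτ, rfl⟩
  have h3 := Submodule.finrank_mono h2
  have h4 := finrank_map_add (V m).mkQ (V' m)
  rw [Submodule.ker_mkQ, inf_eq_right.2 (hle m)] at h4
  have h5 := rel_one hm (Nul_self_eq_bot hD) (M := V r) (fun g hg t ht => hV r r g hg t ht) hτ'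
    (L := Mor P (X.selfProd r) (X.selfProd m) ⊓ LinearMap.ker f) inf_le_left
    (by
      rintro T ⟨hT, hTf⟩ g hg
      have h7 : (V m).mkQ (T τ) = 0 := LinearMap.mem_ker.1 hTf
      rw [Submodule.mkQ_apply, Submodule.Quotient.mk_eq_zero] at h7
      exact hV m r g hg _ h7)
  omega

end

/-- **A chain of systems on one power**: for all `b`, `j` and `ε > 0` there is `m₀` such that for
all fields, all theories and all `X` with `dim H(X) ≤ b`: if for one `m ≥ m₀` the numerical rank
of `X ^ (m + 1)` is larger than `ε` times the homological rank, and `S 0 ≤ S 1 ≤ ...` are systems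
whose members up to `S M` are different on `X ^ (2 j + 2)`, then the dimension of `S M m` is at
least `M (1 - ε)` times the numerical rank. -/
theorem chain_uniform (b j : ℕ) {ε : ℝ} (hε : 0 < ε) (hε1 : ε ≤ 1) : ∃ m₀ : ℕ,
    ∀ (k : Type u) [Field k] (K : Type t) [Field K] (Ω : Type v) [Field Ω] [Algebra K Ω]
      [CharZero Ω] (P : SPre.{u, v, w, t} k K Ω), (∀ Y, 1 ≤ nr P Y) → ∀ X : SmProjVar k,
        Module.finrank Ω (P.H X) ≤ b → ∀ m ≥ m₀,
          ε * hr P (X.selfProd m) < nr P (X.selfProd m) →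
            ∀ S : ℕ → ∀ n, Submodule Ω (P.H (X.selfProd n)), (∀ i, IsSys (S i)) →
              (∀ i n, S i n ≤ S (i + 1) n) → ∀ M : ℕ,
                (∀ i < M, S i (2 * j + 1) ≠ S (i + 1) (2 * j + 1)) →
                  M * (1 - ε) * nr P (X.selfProd m) ≤ Module.finrank Ω (S M m) := by
  obtain ⟨m₁, hm₁⟩ := Pool.Agent.Helper13.ZP.one_power.{u, v, w, t} b (2 * (2 * j + 1) + 1) hε
  obtain ⟨m₂, hm₂, hstep⟩ := step_uniform.{u, v, w, t} b j hε hε1
  refine ⟨max m₁ m₂, ?_⟩
  intro k _ K _ Ω _ _ _ P hpt X hX m hm hlt S hS hle M hne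
  have hmm₁ : m₁ ≤ m := (le_max_left _ _).trans hm
  have hmm₂ : m₂ ≤ m := (le_max_right _ _).trans hm
  have hD := hm₁ k K Ω P hpt X hX m hmm₁ hlt.le
  have h4 := hstep k K Ω P hpt X hX m hmm₂ hlt
  have hb := one_le_finrank hpt (X.selfProd (2 * j + 1))
  have h6 : ((Module.finrank Ω (P.H (X.selfProd (2 * j + 1))) - 1 : ℕ) : ℝ) =
      (Module.finrank Ω (P.H (X.selfProd (2 * j + 1))) : ℝ) - 1 := by
    rw [Nat.cast_sub hb, Nat.cast_one]
  induction M with
  | zero =>
    rw [Nat.cast_zero, zero_mul, zero_mul]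
    exact Nat.cast_nonneg _
  | succ M ih =>
    have ih := ih fun i hi => hne i (by omega)
    have h3 := rel2_one (hS M) (hS (M + 1)) (hle M) (r := 2 * j + 1) (m := m) (by omega) hD
      (hne M (Nat.lt_succ_self M))
    have h5 : (Module.finrank Ω (S M m) : ℝ) +
        nr P ((X.selfProd (2 * j + 1)).prod (X.selfProd m)) ≤
          Module.finrank Ω (S (M + 1) m) +
            ((Module.finrank Ω (P.H (X.selfProd (2 * j + 1))) : ℝ) - 1) * uni P X m := by
      rw [← h6]
      exact_mod_cast h3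
    push_cast
    linarith

end Pool.Agent.Helper34.ZP
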