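import Mathlib
import Pool.Agent.Helper59.ZP.TateIff

/-!
# The half law for all varieties
-/

universe u v w

open CategoryTheory Filter Topology

namespace Pool.Agent.Helper34.ZP

open Pool.Agent.Helper10 Pool.Agent.Helper11 SmProjVar Pool.Agent.Helper59.ZO
  Pool.Agent.Helper59.ZP

variable {k : Type u} [Field k] {K : Type v} [Field K] [CharZero K]

/-- For every smooth projective variety `Y` a space `V Y` of classes in `H(Y)` which contains the
classes of algebraic cycles, such that algebraic correspondences map the spaces `V Y` into each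
other and the Poincaré duality pairings on the `V Y` are non-degenerate. -/
structure IsPerfectGlobalSystem (W : CohomologyData.{u, v, w} k K)
    (V : ∀ Y : SmProjVar k, Submodule K (W.H Y)) : Prop where
  alg_le : ∀ Y, W.algClasses Y ≤ V Y
  map_mem : ∀ (Y Y' : SmProjVar k) (f : W.H Y → W.H Y'), W.IsAlgebraicMap Y Y' f →
    ∀ u ∈ V Y, f u ∈ V Y'
  nondegenerate : ∀ Y, ∀ u ∈ V Y, (∀ v ∈ V Y, W.pairing Y u v = 0) → u = 0

lemma IsPerfectGlobalSystem.powers {W : CohomologyData.{u, v, w} k K}
    {V : ∀ Y : SmProjVar k, Submodule K (W.H Y)} (hV : IsPerfectGlobalSystem W V)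
    (X : SmProjVar k) : IsPerfectSystem W X fun n => V (X.selfProd n) where
  alg_le n := hV.alg_le _
  map_mem m n f hf u hu := hV.map_mem _ _ f hf u hu
  nondegenerate n u hu h := hV.nondegenerate _ u hu h

/-- **The 51 percent law**: if for some `ε > 0` and all varieties `Y` at least `1 / 2 + ε` of the
classes in `V Y` are algebraic then all are, and `D` holds for all varieties. -/
theorem global_half {W : WeilCohomology.{u, v, w} k K}
    {V : ∀ Y : SmProjVar k, Submodule K (W.H Y)} (hV : IsPerfectGlobalSystem W.toCohomologyData V) :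
    (∀ Y, W.StandardD Y ∧ V Y ≤ W.algClasses Y) ↔ ∃ ε : ℝ, 0 < ε ∧ ∀ Y,
      (1 / 2 + ε) * Module.finrank K (V Y) ≤ cycRank W.toCohomologyData Y := by
  constructor
  · intro h
    refine ⟨1 / 2, by norm_num, fun Y => ?_⟩
    have h1 : V Y = W.algClasses Y := le_antisymm (h Y).2 (hV.alg_le Y)
    have h2 : (cycRank W.toCohomologyData Y : ℝ) = Module.finrank K (V Y) := by
      rw [h1]
      rfl
    rw [h2]
    linarith
  · rintro ⟨ε, hε, h⟩ Y
    have hY := hV.powers Y
    have h1 : IsMostlyAlgebraic W.toCohomologyData Y fun n => V (Y.selfProd n) := by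
      refine ⟨ε / 2, by positivity, fun N => ⟨N, le_rfl, lt_of_lt_of_le ?_ (h _)⟩⟩
      exact mul_lt_mul_of_pos_right (by linarith) (sys_pos hY.toIsSystem N)
    obtain ⟨h2, h3⟩ := (half_iff hY).2 h1
    exact ⟨h2 0, h3 0⟩

/-- the Tate classes over a finite field -/
theorem isPerfectGlobalSystem_tate [Finite k] (W : WeilCohomology.{u, v, w} k K) :
    IsPerfectGlobalSystem W.toCohomologyData fun Y => tateClasses W.toCohomologyData Y where
  alg_le Y := Pool.Agent.Helper10.ZP.alg_le_tateV W Y
  map_mem Y Y' f hf u hu := by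
    obtain ⟨g, hg⟩ := W.exists_linear hf
    have h1 : (g : W.H Y → W.H Y') = f := funext hg
    subst h1
    exact Pool.Agent.Helper10.ZP.mor_tateV W (f := g) (isMap_of hf) hu
  nondegenerate Y u hu h :=
    Pool.Agent.Helper10.ZP.tateV_nondeg W Y hu fun y hy => h y hy

/-- **The 51 percent Tate conjecture implies the Tate conjecture**, over a finite field. -/
theorem tate_global [Finite k] (W : WeilCohomology.{u, v, w} k K) :
    (∀ Y, W.StandardD Y ∧ tateClasses W.toCohomologyData Y ≤ W.algClasses Y) ↔
      ∃ ε : ℝ, 0 < ε ∧ ∀ Y, (1 / 2 + ε) * Module.finrank K (tateClasses W.toCohomologyData Y) ≤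
        cycRank W.toCohomologyData Y :=
  global_half (isPerfectGlobalSystem_tate W)

/-- if a positive proportion of the Tate classes of every variety is accounted for by numerically
non-trivial algebraic classes, then Frobenius is semisimple -/
theorem semisimple_global [Finite k] (W : WeilCohomology.{u, v, w} k K)
    (h : ∃ ε : ℝ, 0 < ε ∧ ∀ Y, ε * Module.finrank K (tateClasses W.toCohomologyData Y) ≤
      numCycRank W.toCohomologyData Y) (Y : SmProjVar k) :
    W.StandardD Y ∧ IsFrobeniusSemisimple W.toCohomologyData Y := by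
  obtain ⟨ε, hε, h⟩ := h
  have hV := (isPerfectSystem_tate W Y).toIsSystem
  have hne : ¬ Tendsto (density W.toCohomologyData Y (tateSystem W.toCohomologyData Y)) atTop
      (𝓝 0) := by
    intro h0
    obtain ⟨N, hN⟩ := eventually_atTop.1 (h0.eventually_lt_const hε)
    have h1 := hN N le_rfl
    have h2 := h (Y.selfProd N)
    have h3 := sys_pos hV N
    unfold density tateSystem at h1
    rw [div_lt_iff₀ h3] at h1
    exact absurd h1 (not_lt.2 h2)
  refine ⟨?_, (tate_law W Y).2 hne 0⟩
  rcases quantization_law (isPerfectSystem_tate W Y).toIsSystem with h1 | ⟨h1, -⟩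
  · exact absurd h1 hne
  · exact h1 0

end Pool.Agent.Helper34.ZP
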