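import Mathlib
import Pool.Agent.Helper34.ZP.UHR

/-!
# The half law on one power, with a power saving
-/

universe u v w t

open CategoryTheory TensorProduct Filter Topology

namespace Pool.Agent.Helper34.ZP

open Pool.Agent.Helper10 Pool.Agent.Helper11.Iso SmProjVar SPre Pool.Agent.Helper4.HL

/-- the ratio lemma, with `l + 2` in place of the logarithm -/
theorem ratio_pow {a c : ℕ → ℕ} {b d : ℕ} (hb : 1 ≤ b) (hc : ∀ l, 1 ≤ c l)
    (hconv : ∀ l, c (l + 1) ^ 2 ≤ c l * c (l + 2)) (hgr : ∀ l, b ^ (2 * l) ≤ a l * (l + 2) ^ d)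
    {D : ℕ} (hD0 : d + 2 + c 0 ≤ D) {l : ℕ} (hl : 1 ≤ l)
    (hal : (a l : ℝ) < c l * ((l : ℝ) + 2)) (hDl : D * Real.log (l + 2) ≤ l) (j : ℕ) :
    (b : ℝ) ^ (2 * j) * (1 - j * (D * Real.log (l + 2) / l)) * c l ≤ c (l + j) := by
  have key : ∀ i, a i ≤ (a i + (i + 1)) / (i + 2) * (i + 2) := by
    intro i
    have h1 := Nat.div_add_mod (a i + (i + 1)) (i + 2)
    have h2 := Nat.mod_lt (a i + (i + 1)) (show 0 < i + 2 by omega)
    have h3 : (a i + (i + 1)) / (i + 2) * (i + 2) = (i + 2) * ((a i + (i + 1)) / (i + 2)) :=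
      mul_comm _ _
    omega
  have hal' : a l < c l * (l + 2) := by exact_mod_cast hal
  refine Pool.Agent.Helper47.ZP.ratio_explicit (a := fun i => (a i + (i + 1)) / (i + 2))
    (d := d + 1) hb hc hconv (fun i => ?_) (by omega) hl ?_ hDl j
  · refine (hgr i).trans ((Nat.mul_le_mul_right _ (key i)).trans_eq ?_)
    ring
  · have h1 : (a l + (l + 1)) / (l + 2) ≤ c l := by
      rw [← Nat.lt_succ_iff, Nat.div_lt_iff_lt_mul (by omega), Nat.succ_mul]
      omega
    have h2 : (((a l + (l + 1)) / (l + 2) : ℕ) : ℝ) ≤ c l := by exact_mod_cast h1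
    have h3 : (1 : ℝ) ≤ c l := by exact_mod_cast hc l
    have h4 : 1 < Real.log ((l : ℝ) + 2) := by
      rw [← Real.log_exp 1]
      refine Real.log_lt_log (Real.exp_pos _) ?_
      have := Real.exp_one_lt_d9
      have h5 : (1 : ℝ) ≤ l := by exact_mod_cast hl
      linarith
    refine lt_of_le_of_lt h2 ?_
    nlinarith

variable {k : Type u} [Field k] {K : Type t} [Field K] {Ω : Type v} [Field Ω] [Algebra K Ω]
  {P : SPre.{u, v, w, t} k K Ω}

/-- the ranks of neighbouring powers, if the numerical rank is not too small -/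
theorem step_aux_pow [CharZero Ω] (hpt : ∀ Y, 1 ≤ nr P Y) (X : SmProjVar k) {b j : ℕ}
    (hX : Module.finrank Ω (P.H X) ≤ b) {ε : ℝ} (hε1 : ε ≤ 1) {l : ℕ} (hl : 1 ≤ l)
    (hDl : ((2 * b ^ 2 + 2 : ℕ) : ℝ) * Real.log (l + 2) ≤ l)
    (hδ : ((b ^ (2 * j + 4) * (j + 2) : ℕ) : ℝ) *
      (((2 * b ^ 2 + 2 : ℕ) : ℝ) * Real.log (l + 2) / l) ≤ ε)
    (hal : (hr P (X.selfProd (2 * l + 1)) : ℝ) <
      nr P (X.selfProd (2 * l + 1)) * ((l : ℝ) + 2)) {m : ℕ}
    (hm : m = 2 * l + 1 ∨ m = 2 * l + 2) :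
    (1 - ε) * nr P (X.selfProd m) +
      ((Module.finrank Ω (P.H (X.selfProd (2 * j + 1))) : ℝ) - 1) * uni P X m ≤
        nr P ((X.selfProd (2 * j + 1)).prod (X.selfProd m)) := by
  have hb1 := one_le_finrank hpt X
  have hN : ∀ m, (0 : ℝ) < nr P (X.selfProd m) := fun m => by exact_mod_cast hpt _
  have h2 := ratio_pow
    (a := fun l => hr P (X.selfProd (2 * l + 1))) (c := fun l => nr P (X.selfProd (2 * l + 1)))
    (D := 2 * b ^ 2 + 2) hb1 (fun l => hpt _) (even_conv X) (even_growth hpt X)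
    (by
      have h3 := nr_le_pow (P := P) X (2 * 0 + 1)
      have h4 : Module.finrank Ω (P.H X) ^ 2 ≤ b ^ 2 := Nat.pow_le_pow_left hX 2
      have h5 : Module.finrank Ω (P.H X) ^ (2 * 0 + 1 + 1) = Module.finrank Ω (P.H X) ^ 2 := rfl
      rw [h5] at h3
      change _ + 2 + nr P (X.selfProd (2 * 0 + 1)) ≤ _
      omega) hl hal hDl
  rw [finrank_selfProd]
  set B := Module.finrank Ω (P.H X) with hB
  set δ : ℝ := ((2 * b ^ 2 + 2 : ℕ) : ℝ) * Real.log (l + 2) / l with hδdef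
  have hδ0 : 0 ≤ δ := by
    have : 0 ≤ Real.log ((l : ℝ) + 2) := Real.log_nonneg (by
      have : (0 : ℝ) ≤ l := Nat.cast_nonneg l
      linarith)
    positivity
  set N : ℝ := (nr P (X.selfProd (2 * l + 1)) : ℝ) with hNdef
  have hN0 : 0 < N := hN _
  have hBr : (1 : ℝ) ≤ B := by exact_mod_cast hb1
  have hBb : (B : ℝ) ≤ b := by exact_mod_cast hX
  have hbr : (1 : ℝ) ≤ b := hBr.trans hBb
  push_cast at hδ
  rcases hm with rfl | rfl
  · -- even powers
    rw [uni_odd, nr_pow_prod_pow]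
    have e1 : 2 * j + 1 + (2 * l + 1) + 1 = 2 * (l + (j + 1)) + 1 := by ring
    rw [e1]
    have h3 := h2 (j + 1)
    rw [← hNdef]
    refine le_trans ?_ h3
    have h4 : (B : ℝ) ^ (2 * (j + 1)) * ((j + 1 : ℕ) : ℝ) * δ ≤ ε := by
      refine le_trans ?_ hδ
      push_cast
      have h5 : (B : ℝ) ^ (2 * (j + 1)) ≤ (b : ℝ) ^ (2 * j + 4) :=
        (pow_le_pow_left₀ (by linarith) hBb _).trans (pow_le_pow_right₀ hbr (by omega))
      gcongr
      linarith
    have h6 : (B : ℝ) ^ (2 * (j + 1)) * (1 - ((j + 1 : ℕ) : ℝ) * δ) * N =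
        (B : ℝ) ^ (2 * (j + 1)) * N - (B : ℝ) ^ (2 * (j + 1)) * ((j + 1 : ℕ) : ℝ) * δ * N := by
      ring
    rw [h6]
    have h7 := mul_le_mul_of_nonneg_right h4 hN0.le
    have e2 : 2 * j + 1 + 1 = 2 * (j + 1) := by ring
    rw [e2]
    push_cast at h7 ⊢
    linarith
  · -- odd powers
    rw [uni_even, nr_pow_prod_pow]
    have e1 : 2 * j + 1 + (2 * l + 2) + 1 = 2 * (l + (j + 1)) + 2 := by ring
    rw [e1]
    have h3 := h2 (j + 2)
    have h4 : (nr P (X.selfProd (2 * (l + (j + 2)) + 1)) : ℝ) ≤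
        nr P (X.selfProd (2 * (l + (j + 1)) + 2)) + ((B : ℝ) ^ 2 - B) *
          ((B : ℝ) ^ (2 * (j + 1)) * N) := by
      have h5 := odd_step (P := P) X (l + (j + 1))
      have h6 : B ≤ B ^ 2 := by nlinarith
      have h7 := even_up_iter (P := P) X l (j + 1)
      rw [← hB] at h5 h7
      have h8 : (nr P (X.selfProd (2 * (l + (j + 1) + 1) + 1)) : ℝ) ≤
          nr P (X.selfProd (2 * (l + (j + 1)) + 2)) + ((B ^ 2 - B : ℕ) : ℝ) *
            nr P (X.selfProd (2 * (l + (j + 1)) + 1)) := by exact_mod_cast h5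
      rw [Nat.cast_sub h6, Nat.cast_pow] at h8
      have h9 : (nr P (X.selfProd (2 * (l + (j + 1)) + 1)) : ℝ) ≤
          (B : ℝ) ^ (2 * (j + 1)) * N := by
        rw [hNdef]
        exact_mod_cast h7
      have h10 : (0 : ℝ) ≤ (B : ℝ) ^ 2 - B := by nlinarith
      have e2 : 2 * (l + (j + 1) + 1) + 1 = 2 * (l + (j + 2)) + 1 := by ring
      rw [e2] at h8
      refine h8.trans ?_
      have h11 := mul_le_mul_of_nonneg_left h9 h10
      linarith
    have h5 : (nr P (X.selfProd (2 * l + 2)) : ℝ) ≤ B * N := by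
      have h6 := odd_le (P := P) X l
      rw [← hB] at h6
      rw [hNdef]
      exact_mod_cast h6
    have h6 : (1 - ε) * (nr P (X.selfProd (2 * l + 2)) : ℝ) ≤ (1 - ε) * (B * N) :=
      mul_le_mul_of_nonneg_left h5 (by linarith)
    have h7 : (B : ℝ) ^ (2 * (j + 2)) * ((j + 2 : ℕ) : ℝ) * δ ≤ ε * B := by
      have h8 : (B : ℝ) ^ (2 * (j + 2)) * ((j + 2 : ℕ) : ℝ) * δ ≤ ε := by
        refine le_trans ?_ hδ
        push_cast
        have h9 : (B : ℝ) ^ (2 * (j + 2)) ≤ (b : ℝ) ^ (2 * j + 4) := by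
          have e2 : 2 * (j + 2) = 2 * j + 4 := by ring
          rw [e2]
          exact pow_le_pow_left₀ (by linarith) hBb _
        gcongr
      have h9 : 0 ≤ ε := le_trans (by positivity) h8
      nlinarith
    have h8 := mul_le_mul_of_nonneg_right h7 hN0.le
    have h9 : (B : ℝ) ^ (2 * (j + 2)) * (1 - ((j + 2 : ℕ) : ℝ) * δ) * N =
        (B : ℝ) ^ (2 * (j + 2)) * N - (B : ℝ) ^ (2 * (j + 2)) * ((j + 2 : ℕ) : ℝ) * δ * N := by
      ring
    rw [h9] at h3
    have h10 : (B : ℝ) ^ (2 * (j + 2)) * N = ((B : ℝ) ^ 2 - B) * ((B : ℝ) ^ (2 * (j + 1)) * N) +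
        (B : ℝ) ^ (2 * j + 1 + 1) * (B * N) := by ring
    rw [h10] at h3
    push_cast at h3 h8 ⊢
    linarith

/-- the size of `l` -/
lemma exists_l2 (A D : ℕ) : ∃ l0 : ℕ, ∀ l : ℕ, l0 ≤ l → ∀ m : ℕ, m ≤ 2 * l + 2 →
    1 ≤ l ∧ D * Real.log (l + 2) ≤ l ∧ A * (D * Real.log (l + 2) / l) * √((m : ℝ) + 2) ≤ 1 := by
  obtain ⟨L0, hL0⟩ := Pool.Agent.Helper47.ZP.log_small (2 * A * D + D)
  refine ⟨L0 + 1, fun l hl m hm => ⟨by omega, ?_⟩⟩
  have hl1 : (1 : ℝ) ≤ l := by
    have : 1 ≤ l := by omega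
    exact_mod_cast this
  have hl0 : (0 : ℝ) < l := by linarith
  have h1 := hL0 l (by omega)
  have h2 : (1 : ℝ) ≤ Real.log (l + 2) := by
    rw [← Real.log_exp 1]
    refine Real.log_le_log (Real.exp_pos _) ?_
    have := Real.exp_one_lt_d9
    linarith
  have h3 : (1 : ℝ) ≤ √((l : ℝ) + 2) := by
    rw [Real.one_le_sqrt]
    linarith
  have h0 : 0 ≤ Real.log ((l : ℝ) + 2) := by linarith
  have h5 : Real.log (l + 2) ≤ Real.log (l + 2) ^ 2 := by nlinarith
  have hA : (0 : ℝ) ≤ A := Nat.cast_nonneg _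
  have hD : (0 : ℝ) ≤ D := Nat.cast_nonneg _
  have h7 : √((m : ℝ) + 2) ≤ 2 * √((l : ℝ) + 2) := by
    have hm' : (m : ℝ) ≤ 2 * l + 2 := by exact_mod_cast hm
    have h8 : 2 * √((l : ℝ) + 2) = √(4 * ((l : ℝ) + 2)) := by
      rw [Real.sqrt_mul (by norm_num)]
      have : √(4 : ℝ) = 2 := by
        rw [show (4 : ℝ) = 2 ^ 2 by norm_num, Real.sqrt_sq (by norm_num)]
      rw [this]
    rw [h8]
    exact Real.sqrt_le_sqrt (by linarith)
  constructor
  · refine le_trans ?_ h1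
    calc (D : ℝ) * Real.log (l + 2) ≤ D * Real.log (l + 2) ^ 2 :=
          mul_le_mul_of_nonneg_left h5 hD
      _ ≤ (2 * A * D + D) * Real.log (l + 2) ^ 2 := by
          refine mul_le_mul_of_nonneg_right ?_ (by positivity)
          have : 0 ≤ 2 * (A : ℝ) * D := by positivity
          linarith
      _ ≤ (2 * A * D + D) * Real.log (l + 2) ^ 2 * √((l : ℝ) + 2) :=
          le_mul_of_one_le_right (by positivity) h3
  · have h8 : (A : ℝ) * (D * Real.log (l + 2) / l) * √((m : ℝ) + 2) ≤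
        A * (D * Real.log (l + 2) / l) * (2 * √((l : ℝ) + 2)) :=
      mul_le_mul_of_nonneg_left h7 (by positivity)
    refine h8.trans ?_
    have h9 : (A : ℝ) * (D * Real.log (l + 2) / l) * (2 * √((l : ℝ) + 2)) =
        (2 * A * D * Real.log (l + 2) * √((l : ℝ) + 2)) / l := by ring
    rw [h9, div_le_one hl0]
    refine le_trans ?_ h1
    refine mul_le_mul_of_nonneg_right ?_ (by positivity)
    calc 2 * (A : ℝ) * D * Real.log (l + 2) ≤ 2 * A * D * Real.log (l + 2) ^ 2 :=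
          mul_le_mul_of_nonneg_left h5 (by positivity)
      _ ≤ _ := by
          refine mul_le_mul_of_nonneg_right ?_ (by positivity)
          linarith

/-- the rate of the powers, in the form of a power of `n + 2` -/
def PolyRate (b r : ℕ) : Prop := ∃ C α : ℝ, 0 < C ∧ 0 < α ∧
    ∀ (k : Type u) [Field k] (K : Type t) [Field K] (Ω : Type v) [Field Ω] [Algebra K Ω]
      [CharZero Ω] (P : SPre.{u, v, w, t} k K Ω), (∀ Y, 1 ≤ nr P Y) → ∀ X : SmProjVar k,
        Module.finrank Ω (P.H X) ≤ b → par P X ∈ Mor P X X → ¬ P.D (X.selfProd r) → ∀ n : ℕ,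
          (nr P (X.selfProd n) : ℝ) * ((n : ℝ) + 2) ^ α ≤ C * hr P (X.selfProd n)

/-- both cases together: twice the algebraic classes -/
theorem two_mul_poly (b r : ℕ) (hpoly : PolyRate.{u, v, w, t} b (2 * (2 * r + 1) + 1)) :
    ∃ C α : ℝ, 1 ≤ C ∧ 0 < α ∧ α ≤ 1 / 2 ∧
    ∀ (k : Type u) [Field k] (K : Type t) [Field K] (Ω : Type v) [Field Ω] [Algebra K Ω]
      [CharZero Ω] (P : SPre.{u, v, w, t} k K Ω), (∀ Y, 1 ≤ nr P Y) → ∀ X : SmProjVar k,
        Module.finrank Ω (P.H X) ≤ b → par P X ∈ Mor P X X → ∀ m : ℕ,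
          2 * C < ((m : ℝ) + 2) ^ α →
          (nr P (X.selfProd m) * ((m : ℝ) + 2) ^ α ≤ C * hr P (X.selfProd m)) ∨
          (P.D (X.selfProd (2 * (2 * r + 1) + 1)) ∧
            (1 - 1 / ((m : ℝ) + 2) ^ α) * nr P (X.selfProd m) +
              ((Module.finrank Ω (P.H (X.selfProd (2 * r + 1))) : ℝ) - 1) * uni P X m ≤
                nr P ((X.selfProd (2 * r + 1)).prod (X.selfProd m))) := by
  obtain ⟨C1, α1, hC1, hα1, h1⟩ := hpoly
  obtain ⟨l0, hl0⟩ := exists_l2 (b ^ (2 * r + 4) * (r + 2)) (2 * b ^ 2 + 2)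
  refine ⟨C1 + 2 * b + 2 + (2 * l0 + 5), min α1 (1 / 2), ?_, lt_min hα1 (by norm_num),
    min_le_right _ _, ?_⟩
  · have h2 : (0 : ℝ) ≤ b := Nat.cast_nonneg _
    have h3 : (0 : ℝ) ≤ l0 := Nat.cast_nonneg _
    linarith
  intro k _ K _ Ω _ _ _ P hpt X hX hpar m hm
  set α : ℝ := min α1 (1 / 2) with hαdef
  have hα0 : 0 < α := lt_min hα1 (by norm_num)
  have hα2 : α ≤ 1 / 2 := min_le_right _ _
  have hm0 : (0 : ℝ) ≤ m := Nat.cast_nonneg _
  have hm1 : (1 : ℝ) ≤ (m : ℝ) + 2 := by linarith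
  set L : ℝ := ((m : ℝ) + 2) ^ α with hLdef
  have hb0 : (0 : ℝ) ≤ b := Nat.cast_nonneg _
  have hl00 : (0 : ℝ) ≤ l0 := Nat.cast_nonneg _
  have hL1 : 1 ≤ L := by linarith
  have hLm : L ≤ √((m : ℝ) + 2) := by
    rw [Real.sqrt_eq_rpow]
    exact Real.rpow_le_rpow_of_exponent_le hm1 hα2
  have hLα : L ≤ ((m : ℝ) + 2) ^ α1 := Real.rpow_le_rpow_of_exponent_le hm1 (min_le_left _ _)
  have hB : (1 : ℝ) ≤ Module.finrank Ω (P.H X) := by exact_mod_cast one_le_finrank hpt X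
  have hBb : (Module.finrank Ω (P.H X) : ℝ) ≤ b := by exact_mod_cast hX
  have hh0 : (0 : ℝ) ≤ hr P (X.selfProd m) := Nat.cast_nonneg _
  have hnm0 : (0 : ℝ) ≤ nr P (X.selfProd m) := Nat.cast_nonneg _
  by_cases hA : nr P (X.selfProd m) * L ≤
      (C1 + 2 * b + 2 + (2 * l0 + 5)) * hr P (X.selfProd m)
  · exact .inl hA
  right
  push Not at hA
  have hA1 : (C1 + 2 * b + 2) * (hr P (X.selfProd m) : ℝ) < nr P (X.selfProd m) * L := by
    refine lt_of_le_of_lt (mul_le_mul_of_nonneg_right ?_ hh0) hA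
    linarith
  refine ⟨?_, ?_⟩
  · by_contra hD
    have h2 := h1 k K Ω P hpt X hX hpar hD m
    have h3 : C1 * (hr P (X.selfProd m) : ℝ) ≤ (C1 + 2 * b + 2) * hr P (X.selfProd m) :=
      mul_le_mul_of_nonneg_right (by linarith) hh0
    have h4 : (nr P (X.selfProd m) : ℝ) * L ≤ nr P (X.selfProd m) * ((m : ℝ) + 2) ^ α1 :=
      mul_le_mul_of_nonneg_left hLα hnm0
    linarith
  -- `m` is large
  have hml : 2 * l0 + 3 ≤ m := by
    by_contra hcon
    push Not at hcon
    have h2 : L ≤ 2 * l0 + 5 := by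
      have h3 : (m : ℝ) ≤ 2 * l0 + 3 := by
        have : m ≤ 2 * l0 + 3 := hcon.le
        exact_mod_cast this
      have h4 : L ≤ ((m : ℝ) + 2) ^ (1 : ℝ) :=
        Real.rpow_le_rpow_of_exponent_le hm1 (by linarith)
      rw [Real.rpow_one] at h4
      linarith
    linarith
  obtain ⟨l, hl, hml⟩ : ∃ l ≥ l0, m = 2 * l + 1 ∨ m = 2 * l + 2 := by
    rcases Nat.even_or_odd' m with ⟨l, rfl | rfl⟩
    · exact ⟨l - 1, by omega, by omega⟩
    · exact ⟨l, by omega, by omega⟩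
  obtain ⟨h2, h3, h4⟩ := hl0 l hl m (by omega)
  have hlr : (1 : ℝ) ≤ l := by exact_mod_cast h2
  have hlogl : 0 ≤ Real.log ((l : ℝ) + 2) := Real.log_nonneg (by linarith)
  have hLl : L ≤ 2 * ((l : ℝ) + 2) := by
    have hm' : (m : ℝ) ≤ 2 * l + 2 := by
      have : m ≤ 2 * l + 2 := by omega
      exact_mod_cast this
    have h4 : L ≤ ((m : ℝ) + 2) ^ (1 : ℝ) :=
      Real.rpow_le_rpow_of_exponent_le hm1 (by linarith)
    rw [Real.rpow_one] at h4
    linarith
  refine step_aux_pow hpt X hX (ε := 1 / L) ?_ h2 h3 ?_ ?_ hml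
  · rw [div_le_one (by linarith)]
    exact hL1
  · rw [le_div_iff₀ (by linarith)]
    refine le_trans (mul_le_mul_of_nonneg_left hLm ?_) h4
    positivity
  · -- the homological rank is not too large
    have hn0 : (0 : ℝ) ≤ nr P (X.selfProd (2 * l + 1)) := Nat.cast_nonneg _
    have h5 : (2 * (b : ℝ) + 2) * hr P (X.selfProd m) ≤
        (C1 + 2 * b + 2) * hr P (X.selfProd m) :=
      mul_le_mul_of_nonneg_right (by linarith) hh0
    have hnpos : (0 : ℝ) < nr P (X.selfProd (2 * l + 1)) := by exact_mod_cast hpt _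
    have h6 : (hr P (X.selfProd (2 * l + 1)) : ℝ) ≤ hr P (X.selfProd m) ∧
        (nr P (X.selfProd m) : ℝ) ≤ b * nr P (X.selfProd (2 * l + 1)) := by
      rcases hml with rfl | rfl
      · exact ⟨le_rfl, by nlinarith⟩
      · constructor
        · exact_mod_cast hr_le_succ (P := P) X (2 * l + 1)
        · have h7 : (nr P (X.selfProd (2 * l + 2)) : ℝ) ≤
              Module.finrank Ω (P.H X) * nr P (X.selfProd (2 * l + 1)) := by
            exact_mod_cast odd_le (P := P) X l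
          exact h7.trans (mul_le_mul_of_nonneg_right hBb hn0)
    have h7 : (nr P (X.selfProd m) : ℝ) * L ≤
        b * nr P (X.selfProd (2 * l + 1)) * (2 * ((l : ℝ) + 2)) :=
      mul_le_mul h6.2 hLl (by linarith) (by positivity)
    have h8 : (2 * (b : ℝ) + 2) * hr P (X.selfProd (2 * l + 1)) ≤
        (2 * (b : ℝ) + 2) * hr P (X.selfProd m) :=
      mul_le_mul_of_nonneg_left h6.1 (by positivity)
    have h9 : (2 * (b : ℝ) + 2) * hr P (X.selfProd (2 * l + 1)) <
        (2 * (b : ℝ) + 2) * (nr P (X.selfProd (2 * l + 1)) * ((l : ℝ) + 2)) := by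
      have h10 : 0 ≤ (nr P (X.selfProd (2 * l + 1)) : ℝ) * ((l : ℝ) + 2) := by positivity
      nlinarith
    exact lt_of_mul_lt_mul_left h9 (by positivity)

/-- **The half law on one power, with a power saving.** -/
theorem poly_half_rate (b r : ℕ) (hpoly : PolyRate.{u, v, w, t} b (2 * (2 * r + 1) + 1)) :
    ∃ C α : ℝ, 0 < C ∧ 0 < α ∧
    ∀ (k : Type u) [Field k] (K : Type t) [Field K] (Ω : Type v) [Field Ω] [Algebra K Ω]
      [CharZero Ω] (P : SPre.{u, v, w, t} k K Ω), (∀ Y, 1 ≤ nr P Y) → ∀ X : SmProjVar k,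
        Module.finrank Ω (P.H X) ≤ b → par P X ∈ Mor P X X →
          ∀ V : ∀ n, Submodule Ω (P.H (X.selfProd n)), IsSys V →
          (∀ n, P.alg (X.selfProd n) ≤ V n) → ∀ m : ℕ,
            (∀ x ∈ V m, (∀ y ∈ V m, P.tr _ (x * y) = 0) → x = 0) →
              (1 / 2 + C / ((m : ℝ) + 2) ^ α) * Module.finrank Ω (V m) < hr P (X.selfProd m) →
                ∀ s ≤ r, P.D (X.selfProd s) ∧ V s = P.alg (X.selfProd s) := by
  obtain ⟨C, α, hC, hα, hα2, h⟩ := two_mul_poly.{u, v, w, t} b r hpoly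
  refine ⟨C, α, by linarith, hα, ?_⟩
  intro k _ K _ Ω _ _ _ P hpt X hX hpar V hV hA m hnd hhalf
  have hN : (0 : ℝ) < nr P (X.selfProd m) := by exact_mod_cast hpt _
  have hnh : (nr P (X.selfProd m) : ℝ) ≤ Pool.Agent.Helper34.ZP.hr P (X.selfProd m) := by
    exact_mod_cast (rdim_le _ _ : nr P (X.selfProd m) ≤ _)
  have ha : (0 : ℝ) < Pool.Agent.Helper34.ZP.hr P (X.selfProd m) := hN.trans_le hnh
  have hat : (Pool.Agent.Helper34.ZP.hr P (X.selfProd m) : ℝ) ≤ Module.finrank Ω (V m) := by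
    have := P.fin (X.selfProd m)
    exact_mod_cast Submodule.finrank_mono (hA m)
  have hm0 : (0 : ℝ) ≤ m := Nat.cast_nonneg _
  have hL : 0 < ((m : ℝ) + 2) ^ α := Real.rpow_pos_of_pos (by linarith) _
  have h2 : 2 * (Pool.Agent.Helper34.ZP.hr P (X.selfProd m) : ℝ) ≤
      Module.finrank Ω (V m) + nr P (X.selfProd m) := by
    exact_mod_cast two_mul_hr_le_one (hA m) hnd
  -- if `D` holds and some class is not algebraic
  have hD : P.D (X.selfProd (2 * (2 * r + 1) + 1)) ∧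
      V (2 * r + 1) = P.alg (X.selfProd (2 * r + 1)) := by
    by_contra hcon
    refine half_contra ha hC le_rfl hL hat (fun hLC => ?_) hhalf
    rcases h k K Ω P hpt X hX hpar m hLC with h3 | ⟨hD, h3⟩
    · have h4 : (nr P (X.selfProd m) : ℝ) ≤
          C / ((m : ℝ) + 2) ^ α * Pool.Agent.Helper34.ZP.hr P (X.selfProd m) := by
        rw [div_mul_eq_mul_div, le_div_iff₀ hL]
        exact h3
      rw [sub_mul]
      linarith
    · have hne : V (2 * r + 1) ≠ P.alg (X.selfProd (2 * r + 1)) := fun h4 => hcon ⟨hD, h4⟩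
      have hm : 1 ≤ m := by
        by_contra hm
        have hm0 : m = 0 := by omega
        rw [hm0] at hLC
        have h5 : (((0 : ℕ) : ℝ) + 2) ^ α < 2 := by
          rw [Nat.cast_zero, zero_add]
          calc (2 : ℝ) ^ α < 2 ^ (1 : ℝ) :=
                Real.rpow_lt_rpow_of_exponent_lt (by norm_num) (by linarith)
            _ = 2 := Real.rpow_one 2
        linarith
      have h5 := perfect_one hV hA (r := 2 * r + 1) (m := m) hm hnd hD hne
      have hb := one_le_finrank hpt (X.selfProd (2 * r + 1))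
      have h6 : ((Module.finrank Ω (P.H (X.selfProd (2 * r + 1))) - 1 : ℕ) : ℝ) =
          (Module.finrank Ω (P.H (X.selfProd (2 * r + 1))) : ℝ) - 1 := by
        rw [Nat.cast_sub hb, Nat.cast_one]
      have h7 : 2 * (Pool.Agent.Helper34.ZP.hr P (X.selfProd m) : ℝ) +
          nr P ((X.selfProd (2 * r + 1)).prod (X.selfProd m)) ≤
            Module.finrank Ω (V m) + nr P (X.selfProd m) +
              ((Module.finrank Ω (P.H (X.selfProd (2 * r + 1))) : ℝ) - 1) * uni P X m := by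
        rw [← h6]
        exact_mod_cast h5
      have h8 : 1 / ((m : ℝ) + 2) ^ α * (nr P (X.selfProd m) : ℝ) ≤
          C / ((m : ℝ) + 2) ^ α * Pool.Agent.Helper34.ZP.hr P (X.selfProd m) := by
        refine mul_le_mul ?_ hnh hN.le (by positivity)
        gcongr
      rw [sub_mul]
      linarith
  exact fun s hs => ⟨D_of_le (by omega) hD.1, sys_of_le hV hA (by omega) hD.2⟩

/-- the same for systems whose pairings may be degenerate -/
theorem poly_system_rate (b r : ℕ) (hpoly : PolyRate.{u, v, w, t} b (2 * (2 * r + 1) + 1)) :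
    ∃ C α : ℝ, 0 < C ∧ 0 < α ∧
    ∀ (k : Type u) [Field k] (K : Type t) [Field K] (Ω : Type v) [Field Ω] [Algebra K Ω]
      [CharZero Ω] (P : SPre.{u, v, w, t} k K Ω), (∀ Y, 1 ≤ nr P Y) → ∀ X : SmProjVar k,
        Module.finrank Ω (P.H X) ≤ b → par P X ∈ Mor P X X →
          ∀ V : ∀ n, Submodule Ω (P.H (X.selfProd n)), IsSys V →
          (∀ n, P.alg (X.selfProd n) ≤ V n) → ∀ m : ℕ,
            (1 / 2 + C / ((m : ℝ) + 2) ^ α) * Module.finrank Ω (V m) < nr P (X.selfProd m) →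
              ∀ s ≤ r, P.D (X.selfProd s) ∧ V s = P.alg (X.selfProd s) := by
  obtain ⟨C, α, hC, hα, hα2, h⟩ := two_mul_poly.{u, v, w, t} b r hpoly
  refine ⟨C, α, by linarith, hα, ?_⟩
  intro k _ K _ Ω _ _ _ P hpt X hX hpar V hV hA m hhalf
  have hN : (0 : ℝ) < nr P (X.selfProd m) := by exact_mod_cast hpt _
  have hnh : (nr P (X.selfProd m) : ℝ) ≤ Pool.Agent.Helper34.ZP.hr P (X.selfProd m) := by
    exact_mod_cast (rdim_le _ _ : nr P (X.selfProd m) ≤ _)
  have hat : (Pool.Agent.Helper34.ZP.hr P (X.selfProd m) : ℝ) ≤ Module.finrank Ω (V m) := by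
    have := P.fin (X.selfProd m)
    exact_mod_cast Submodule.finrank_mono (hA m)
  have hm0 : (0 : ℝ) ≤ m := Nat.cast_nonneg _
  have hL : 0 < ((m : ℝ) + 2) ^ α := Real.rpow_pos_of_pos (by linarith) _
  have hD : P.D (X.selfProd (2 * (2 * r + 1) + 1)) ∧
      V (2 * r + 1) = P.alg (X.selfProd (2 * r + 1)) := by
    by_contra hcon
    refine half_contra hN hC le_rfl hL (hnh.trans hat) (fun hLC => ?_) hhalf
    rcases h k K Ω P hpt X hX hpar m hLC with h3 | ⟨hD, h3⟩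
    · -- impossible
      exfalso
      have h4 : (nr P (X.selfProd m) : ℝ) * ((m : ℝ) + 2) ^ α ≤
          C * Module.finrank Ω (V m) := h3.trans (mul_le_mul_of_nonneg_left hat (by linarith))
      have h5 : (nr P (X.selfProd m) : ℝ) ≤
          C / ((m : ℝ) + 2) ^ α * Module.finrank Ω (V m) := by
        rw [div_mul_eq_mul_div, le_div_iff₀ hL]
        exact h4
      have h6 : (0 : ℝ) < Module.finrank Ω (V m) := hN.trans_le (hnh.trans hat)
      linarith
    · have hne : V (2 * r + 1) ≠ P.alg (X.selfProd (2 * r + 1)) := fun h4 => hcon ⟨hD, h4⟩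
      have hm : 1 ≤ m := by
        by_contra hm
        have hm0 : m = 0 := by omega
        rw [hm0] at hLC
        have h5 : (((0 : ℕ) : ℝ) + 2) ^ α < 2 := by
          rw [Nat.cast_zero, zero_add]
          calc (2 : ℝ) ^ α < 2 ^ (1 : ℝ) :=
                Real.rpow_lt_rpow_of_exponent_lt (by norm_num) (by linarith)
            _ = 2 := Real.rpow_one 2
        linarith
      have h5 := sys_one hV hA (r := 2 * r + 1) (m := m) hm hD hne
      have hb := one_le_finrank hpt (X.selfProd (2 * r + 1))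
      have h6 : ((Module.finrank Ω (P.H (X.selfProd (2 * r + 1))) - 1 : ℕ) : ℝ) =
          (Module.finrank Ω (P.H (X.selfProd (2 * r + 1))) : ℝ) - 1 := by
        rw [Nat.cast_sub hb, Nat.cast_one]
      have h7 : (Pool.Agent.Helper34.ZP.hr P (X.selfProd m) : ℝ) +
          nr P ((X.selfProd (2 * r + 1)).prod (X.selfProd m)) ≤
            Module.finrank Ω (V m) +
              ((Module.finrank Ω (P.H (X.selfProd (2 * r + 1))) : ℝ) - 1) * uni P X m := by
        rw [← h6]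
        exact_mod_cast h5
      have h8 : 1 / ((m : ℝ) + 2) ^ α * (nr P (X.selfProd m) : ℝ) ≤
          C / ((m : ℝ) + 2) ^ α * nr P (X.selfProd m) := by
        refine mul_le_mul_of_nonneg_right ?_ hN.le
        gcongr
      rw [sub_mul]
      linarith
  exact fun s hs => ⟨D_of_le (by omega) hD.1, sys_of_le hV hA (by omega) hD.2⟩

end Pool.Agent.Helper34.ZP
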