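import Mathlib
import Pool.Agent.Helper34.ZP.PolyHalf
import Pool.Agent.Helper13.PR.Poly
import Pool.Agent.Helper10.ZP.UhrW
import Pool.Agent.Helper59.ZP.ZFinal

/-!
# The half law on one power with a power saving, under the sign conjecture
-/

universe u v w t

open CategoryTheory Filter Topology

namespace Pool.Agent.Helper34.ZP

open Pool.Agent.Helper10 Pool.Agent.Helper11 SmProjVar Pool.Agent.Helper59.ZO
  Pool.Agent.Helper11.Iso Pool.Agent.Helper59.ZP

theorem polyRate (b r : ℕ) : PolyRate.{u, v, w, t} b r :=
  Pool.Agent.Helper13.PR.poly_rate.{u, v, w, t} b r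

/-- **The half law on one power with a power saving**, under the sign conjecture. -/
theorem poly_half_rateW (b r : ℕ) : ∃ C α : ℝ, 0 < C ∧ 0 < α ∧
    ∀ (k : Type u) [Field k] (K : Type v) [Field K] [CharZero K]
      (W : WeilCohomology.{u, v, w} k K) (X : SmProjVar k), betti W.toCohomologyData X ≤ b →
        SignConjecture W.toCohomologyData X →
        ∀ V, IsSystem W.toCohomologyData X V → ∀ m : ℕ,
          NondegenerateAt W.toCohomologyData X V m →
          (1 / 2 + C / ((m : ℝ) + 2) ^ α) * Module.finrank K (V m) <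
            cycRank W.toCohomologyData (X.selfProd m) →
          AlgebraicUpTo W.toCohomologyData X V r := by
  obtain ⟨C, α, hC, hα, h⟩ := poly_half_rate.{u, v, w, v} b r (polyRate b _)
  refine ⟨C, α, hC, hα, ?_⟩
  intro k _ K _ _ W X hX hS V hV m hnd ha s hs
  have h1 := h k K K (base W) (nr_base_pos W) X hX (par_mem hS) V 
    (sys_mor hV) (sys_alg hV) m
    (fun x hx hy => hnd x hx hy) (by rw [hr_base]; exact ha) s hs
  exact ⟨(d_base W _).mp h1.1, h1.2.le⟩

/-- the same with the numerically non-trivial classes, without non-degeneracy -/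
theorem poly_system_rateW (b r : ℕ) : ∃ C α : ℝ, 0 < C ∧ 0 < α ∧
    ∀ (k : Type u) [Field k] (K : Type v) [Field K] [CharZero K]
      (W : WeilCohomology.{u, v, w} k K) (X : SmProjVar k), betti W.toCohomologyData X ≤ b →
        SignConjecture W.toCohomologyData X →
        ∀ V, IsSystem W.toCohomologyData X V → ∀ m : ℕ,
          1 / 2 + C / ((m : ℝ) + 2) ^ α < density W.toCohomologyData X V m →
          AlgebraicUpTo W.toCohomologyData X V r := by
  obtain ⟨C, α, hC, hα, h⟩ := poly_system_rate.{u, v, w, v} b r (polyRate b _)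
  refine ⟨C, α, hC, hα, ?_⟩
  intro k _ K _ _ W X hX hS V hV m ha s hs
  have h2 := sys_pos hV m
  have h1 := h k K K (base W) (nr_base_pos W) X hX (par_mem hS) V 
    (sys_mor hV) (sys_alg hV) m
    (by
      rw [nr_base]
      unfold density at ha
      rw [lt_div_iff₀ h2] at ha
      exact ha) s hs
  exact ⟨(d_base W _).mp h1.1, h1.2.le⟩

end Pool.Agent.Helper34.ZP
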