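import Mathlib
import Pool.Agent.Helper34.ZP.PolyHalfW
import Pool.Agent.Helper59.ZP.QRate

/-!
# The half law on one power: both rates together
-/

universe u v w

open CategoryTheory Filter Topology

namespace Pool.Agent.Helper34.ZP

open Pool.Agent.Helper10 Pool.Agent.Helper11 SmProjVar Pool.Agent.Helper59.ZO
  Pool.Agent.Helper11.Iso Pool.Agent.Helper59.ZP

/-- **One power is enough**: with the rate `1 / log m`, and with a power saving under the sign
conjecture. -/
theorem half_or_poly (b r : ℕ) : ∃ C α : ℝ, 0 < C ∧ 0 < α ∧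
    ∀ (k : Type u) [Field k] (K : Type v) [Field K] [CharZero K]
      (W : WeilCohomology.{u, v, w} k K) (X : SmProjVar k), betti W.toCohomologyData X ≤ b →
        ∀ V, IsSystem W.toCohomologyData X V → ∀ m : ℕ,
          NondegenerateAt W.toCohomologyData X V m →
          (MoreThan W.toCohomologyData X V m (1 / 2 + C / Real.log (m + 2)) ∨
            SignConjecture W.toCohomologyData X ∧
              MoreThan W.toCohomologyData X V m (1 / 2 + C / ((m : ℝ) + 2) ^ α)) →
          AlgebraicUpTo W.toCohomologyData X V r := by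
  obtain ⟨C, hC, h⟩ := Pool.Agent.Helper10.ZP.uniform_half_rateW.{u, v, w} b r
  obtain ⟨C', α, hC', hα, h'⟩ := poly_half_rateW.{u, v, w} b r
  refine ⟨max C C', α, lt_max_of_lt_left hC, hα, fun k _ K _ _ W X hX V hV m hnd hm => ?_⟩
  have hm0 : (0 : ℝ) ≤ m := Nat.cast_nonneg m
  have h0 : (0 : ℝ) ≤ Module.finrank K (V m) := Nat.cast_nonneg _
  have hL : 0 < Real.log ((m : ℝ) + 2) := Real.log_pos (by linarith)
  have hL' : 0 < ((m : ℝ) + 2) ^ α := Real.rpow_pos_of_pos (by linarith) _
  rcases hm with hm | ⟨hS, hm⟩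
  · refine h k K W X hX V hV m hnd (lt_of_le_of_lt (mul_le_mul_of_nonneg_right ?_ h0) hm)
    have := div_le_div_of_nonneg_right (le_max_left C C') hL.le
    linarith
  · refine h' k K W X hX hS V hV m hnd (lt_of_le_of_lt (mul_le_mul_of_nonneg_right ?_ h0) hm)
    have := div_le_div_of_nonneg_right (le_max_right C C') hL'.le
    linarith

end Pool.Agent.Helper34.ZP
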