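import Mathlib
import Pool.Agent.Helper34.ZP.PolyHalfQ
import Pool.Agent.Helper10.PR.Glob

/-!
# The half law for all varieties, with a power saving
-/

universe u v w

open CategoryTheory Filter Topology

namespace Pool.Agent.Helper34.ZP

open Pool.Agent.Helper10 Pool.Agent.Helper11 SmProjVar Pool.Agent.Helper59.ZO
  Pool.Agent.Helper59.ZP Pool.Agent.Helper11.ZQ Pool.Agent.Helper10.PR

variable {k : Type u} [Field k] {K : Type v} [Field K] [CharZero K]
  {W : WeilCohomology.{u, v, w} k K}

/-- The half law for all varieties, under the sign conjecture, with a proportion which may tend to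
`1 / 2`, more slowly than all negative powers of the dimension. -/
theorem global_law_pow (hS : ∀ Y, SignConjecture W.toCohomologyData Y)
    {V : ∀ Y : SmProjVar k, Submodule K (W.H Y)}
    (hV : IsPerfectGlobalSystem W.toCohomologyData V) :
    GloballyAlgebraic W.toCohomologyData V ↔ ∃ e : ℕ → ℝ, SlowerThanPowers e ∧
      HalfAndMore W.toCohomologyData V e := by
  constructor
  · intro h
    refine ⟨fun _ => 1 / 2, slowerThanPowers_const one_half_pos, fun Y => ?_⟩
    have h1 : V Y = W.algClasses Y := le_antisymm (h Y).2 (hV.alg_le Y)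
    have h2 : (cycRank W.toCohomologyData Y : ℝ) = Module.finrank K (V Y) := by
      rw [h1]
      rfl
    rw [h2]
    linarith
  · rintro ⟨e, he, h⟩ X
    rcases Nat.eq_zero_or_pos X.dim with h0 | h0
    · exact ⟨standardD_of_dim_eq_zero W X h0, fun x _ => algClasses_of_dim_eq_zero h0 x⟩
    obtain ⟨C, α, hC0, hα, hC⟩ := half_or_poly.{u, v, w} (betti W.toCohomologyData X) 0
    obtain ⟨n, hn⟩ := exists_large_pow he h0 hα C
    have hsys : IsSystem W.toCohomologyData X fun n => V (X.selfProd n) :=
      { alg_le := fun n => hV.alg_le _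
        map_mem := fun m n f hf u hu => hV.map_mem _ _ f hf u hu }
    refine hC k K W X le_rfl (fun n => V (X.selfProd n)) hsys n
      (fun u hu hv => hV.nondegenerate _ u hu hv) (.inr ⟨hS X, ?_⟩) 0 le_rfl
    have h2 := h (X.selfProd n)
    rw [dim_selfProd] at h2
    have hl : 0 < ((n : ℝ) + 2) ^ α := Real.rpow_pos_of_pos (by positivity) α
    have hv := sys_pos hsys n
    have h3 : C / ((n : ℝ) + 2) ^ α < e ((n + 1) * X.dim) := (div_lt_iff₀ hl).mpr hn
    refine lt_of_lt_of_le ?_ h2
    exact mul_lt_mul_of_pos_right (by linarith) hv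

end Pool.Agent.Helper34.ZP
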