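import Mathlib
import Pool.Agent.Helper34.ZP.Lin0
import Pool.Agent.Helper30.ZP.CS

/-!
# The zero-one law for all powers: Cauchy-Schwarz for semisimple algebras
-/

namespace Pool.Agent.Helper34.ZP

open Pool.Agent.Helper30.ZP

lemma P1_finrank_congr {F R : Type*} [Field F] [Ring R] [Algebra F R]
    {M N M' N' : Type*} [AddCommGroup M] [Module F M] [Module R M]
    [IsScalarTower F R M] [AddCommGroup N] [Module F N] [Module R N]
    [IsScalarTower F R N] [AddCommGroup M'] [Module F M'] [Module R M']
    [IsScalarTower F R M'] [AddCommGroup N'] [Module F N'] [Module R N']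
    [IsScalarTower F R N'] (e : M ≃ₗ[R] M') (e' : N ≃ₗ[R] N') :
    Module.finrank F (M →ₗ[R] N) = Module.finrank F (M' →ₗ[R] N') := by
  refine LinearEquiv.finrank_eq ?_
  exact
    { toFun := fun f => e'.toLinearMap ∘ₗ f ∘ₗ e.symm.toLinearMap
      invFun := fun f => e'.symm.toLinearMap ∘ₗ f ∘ₗ e.toLinearMap
      map_add' := fun f g => by
        refine LinearMap.ext fun x => ?_
        simp
      map_smul' := fun c f => by
        refine LinearMap.ext fun x => ?_
        exact LinearMap.map_smul_of_tower e'.toLinearMap c _
      left_inv := fun f => by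
        refine LinearMap.ext fun x => ?_
        simp
      right_inv := fun f => by
        refine LinearMap.ext fun x => ?_
        simp }

/-- P1a -/
theorem cs_module {F R : Type*} [Field F] [Ring R] [Algebra F R] [Module.Finite F R]
    [IsSemisimpleRing R] (M N : Type*) [AddCommGroup M] [Module F M] [Module R M]
    [IsScalarTower F R M] [Module.Finite F M] [AddCommGroup N] [Module F N] [Module R N]
    [IsScalarTower F R N] [Module.Finite F N] :
    (Module.finrank F (M →ₗ[R] N)) ^ 2 ≤
      Module.finrank F (M →ₗ[R] M) * Module.finrank F (N →ₗ[R] N) := by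
  haveI : Module.Finite R M := Module.Finite.of_restrictScalars_finite F R M
  haveI : Module.Finite R N := Module.Finite.of_restrictScalars_finite F R N
  let P : Submodule R (M × N) := LinearMap.range (LinearMap.inl R M N)
  let Q : Submodule R (M × N) := LinearMap.range (LinearMap.inr R M N)
  have eP : M ≃ₗ[R] P := LinearEquiv.ofInjective (LinearMap.inl R M N) LinearMap.inl_injective
  have eQ : N ≃ₗ[R] Q := LinearEquiv.ofInjective (LinearMap.inr R M N) LinearMap.inr_injective
  haveI : Module.Finite R P := Module.Finite.equiv eP
  haveI : Module.Finite R Q := Module.Finite.equiv eQ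
  have h := hd_sq_le F P Q
  unfold hd at h
  rw [P1_finrank_congr (F := F) eP eQ, P1_finrank_congr (F := F) eP eP,
    P1_finrank_congr (F := F) eQ eQ]
  exact h

/-- the map `x ↦ p x q` -/
def corner {F C : Type*} [Field F] [Ring C] [Algebra F C] (p q : C) : C →ₗ[F] C :=
  (LinearMap.mulRight F q) ∘ₗ (LinearMap.mulLeft F p)

/-- P1b -/
theorem cs_idem {F C : Type*} [Field F] [Ring C] [Algebra F C] [Module.Finite F C]
    [IsSemisimpleRing C] {p q : C} (hp : p * p = p) (hq : q * q = q) :
    (Module.finrank F (LinearMap.range (corner (F := F) p q))) ^ 2 ≤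
      Module.finrank F (LinearMap.range (corner (F := F) p p)) *
        Module.finrank F (LinearMap.range (corner (F := F) q q)) :=
  corner_sq_le hp hq

end Pool.Agent.Helper34.ZP
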