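import Mathlib
import Pool.Agent.Helper34.ZP.RelSys
import Pool.Agent.Helper36.ZP.Words2
import Pool.Agent.Helper59.ZP.SysFinal

/-!
# Tate classes of positive proportion: the eigenvalues of Frobenius
-/

universe u v w

open CategoryTheory Filter Topology

namespace Pool.Agent.Helper34.ZP

open Pool.Agent.Helper10 Pool.Agent.Helper11 SmProjVar SPre Pool.Agent.Helper59.ZO
  Pool.Agent.Helper10.ZP Pool.Agent.Helper59.ZP

variable {k : Type u} [Field k] [Finite k] {K : Type v} [Field K] [CharZero K]
  (W : WeilCohomology.{u, v, w} k K)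

/-- **(SS3)** over a finite field: the proportion of the numerically non-trivial algebraic classes
among the Tate classes of the powers of `X` tends to zero, or D holds for all powers and
`q ^ j` is a semisimple eigenvalue of Frobenius on the `H^{2j}` of all powers. -/
theorem tendsto_or_no_block (X : SmProjVar k) :
    Tendsto (fun n => (numCycRank W.toCohomologyData (X.selfProd n) : ℝ) /
      Module.finrank K (tateClasses W.toCohomologyData (X.selfProd n))) atTop (𝓝 0) ∨
    ((∀ n, W.StandardD (X.selfProd n)) ∧
      ∀ s j, ∀ x ∈ W.gr (X.selfProd s) (2 * j),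
        (frS W (X.selfProd s) ((Nat.card k : K) ^ j) ^ 2) x = 0 →
          frS W (X.selfProd s) ((Nat.card k : K) ^ j) x = 0) := by
  have hT := (isPerfectSystem_tate W X).toIsSystem
  rcases quantization hT with h | ⟨hD, d, hd, -, hlim⟩
  · exact .inl h
  refine .inr ⟨hD, fun s j x h0 h2 => ?_⟩
  by_contra h1
  have hS : ∀ i, IsSys (P := base W) (X := X) fun n => tateI W (i + 1) (X.selfProd n) :=
    fun i m n f hf u hu => mor_tateI W (i + 1) hf hu
  obtain ⟨L, hL⟩ := chain_unbounded (P := base W) (X := X) (nr_base_pos W) ((dp_base W X).mpr hD)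
    (S := fun i n => tateI W (i + 1) (X.selfProd n)) hS
    (fun i n => tateI_mono W (Nat.le_succ _) (X.selfProd n))
    (fun i => Pool.Agent.Helper36.ZPW.tateI_ne W h0 h2 h1 (i + 1) (Nat.le_add_left 1 i))
    (V := fun n => tateClasses W.toCohomologyData (X.selfProd n))
    (fun i n => tateI_le_tateV W (i + 1) (X.selfProd n)) (d + 1)
  have hd0 : (0 : ℝ) < d := by exact_mod_cast hd
  have h3 : (1 : ℝ) / (d + 1) < 1 / d := one_div_lt_one_div_of_lt hd0 (by linarith)
  obtain ⟨L', hL'⟩ := eventually_atTop.1 (hlim.eventually_const_lt h3)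
  have h4 := hL (max L L') (le_max_left _ _)
  have h5 := hL' (max L L') (le_max_right _ _)
  rw [nr_base] at h4
  have h6 := sys_pos hT (max L L')
  rw [lt_div_iff₀ h6, one_div, inv_mul_lt_iff₀ (by positivity)] at h5
  have h7 : ((d : ℝ) + 1) * numCycRank W.toCohomologyData (X.selfProd (max L L')) ≤
      Module.finrank K (tateClasses W.toCohomologyData (X.selfProd (max L L'))) := by
    exact_mod_cast h4
  linarith

end Pool.Agent.Helper34.ZP
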