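import Mathlib
import Pool.Agent.Helper34.ZP.G8
import Pool.Agent.Helper4.HL.Uni

/-!
# The zero-one law with a further factor
-/

universe u v w t

open CategoryTheory TensorProduct Filter Topology

namespace Pool.Agent.Helper34.ZP

open Pool.Agent.Helper10 Pool.Agent.Helper11.Iso SmProjVar SPre Pool.Agent.Helper4.HL

variable {k : Type u} [Field k] {K : Type t} [Field K] {Ω : Type v} [Field Ω] [Algebra K Ω]
  {P : SPre.{u, v, w, t} k K Ω}

/-- numerical ranks of products with a power -/
theorem nr_prod_selfProd_le [CharZero Ω] (X Y : SmProjVar k) {m : ℕ} (hm : 1 ≤ m) :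
    nr P (Y.prod (X.selfProd m)) ≤
      Module.finrank Ω (P.H Y) * (Module.finrank Ω (P.H X) * nr P (X.selfProd m)) := by
  have h := rho_le_uni (P := P) X hm (Z := Y) (e := LinearMap.id) (isMap_id Y)
    (LinearMap.comp_id _)
  rw [tmap_id, rho_id, LinearMap.range_id, finrank_top] at h
  refine h.trans (Nat.mul_le_mul_left _ ?_)
  rcases Nat.even_or_odd' m with ⟨l, rfl | rfl⟩
  · obtain ⟨l, rfl⟩ : ∃ l', l = l' + 1 := ⟨l - 1, by omega⟩
    have e1 : 2 * (l + 1) = 2 * l + 2 := by ring
    rw [e1, uni_even]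
    exact Nat.mul_le_mul_left _ (nr_le_succ X (2 * l + 1))
  · rw [uni_odd]
    rcases Nat.eq_zero_or_pos (nr P (X.selfProd (2 * l + 1))) with h0 | h0
    · rw [h0, mul_zero]
    · have h1 : nr P (X.selfProd (2 * l + 1)) ≤ Module.finrank Ω (P.H (X.selfProd (2 * l + 1))) :=
        (rdim_le _ _).trans (Submodule.finrank_le _)
      rw [finrank_selfProd] at h1
      have h2 : 1 ≤ Module.finrank Ω (P.H X) := by
        by_contra hcon
        have h3 : Module.finrank Ω (P.H X) = 0 := by omega
        rw [h3, zero_pow (by omega)] at h1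
        omega
      exact Nat.le_mul_of_pos_left _ h2

/-- a further factor does not decrease the space of algebraic classes -/
theorem hr_le_prod (X Y : SmProjVar k) (hY : 1 ≤ nr P Y) :
    hr P X ≤ hr P (Y.prod X) := by
  have hinj : Function.Injective (P.pull (snd Y X)).toLinearMap := by
    intro a b hab
    have h1 : P.pull (snd Y X) a = P.pull (snd Y X) b := hab
    obtain ⟨x, hx⟩ : ∃ x : P.H Y, P.tr Y x ≠ 0 := by
      by_contra hcon
      push Not at hcon
      have h2 : P.alg Y ≤ radS P Y := fun x hx => ⟨hx, fun y _ => hcon _⟩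
      have h3 : nr P Y = 0 := by
        unfold nr rdim
        rw [inf_eq_left.2 h2, Nat.sub_self]
      omega
    have h2 : ∀ c : P.H X, P.pushF (snd Y X) (P.ext Y X x c) = P.tr Y x • c :=
      fun c => pushF_snd_ext x c
    have h3 : P.ext Y X x a = P.ext Y X x b := by
      unfold SPre.ext
      rw [h1]
    have h4 := h2 a
    rw [h3, h2 b] at h4
    have h5 := congrArg (fun z => (P.tr Y x)⁻¹ • z) h4
    simp only [smul_smul, inv_mul_cancel₀ hx, one_smul] at h5
    exact h5.symm
  have h1 : (P.alg X).map (P.pull (snd Y X)).toLinearMap ≤ P.alg (Y.prod X) := by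
    rintro _ ⟨x, hx, rfl⟩
    exact P.pull_mem _ _ hx
  have := P.fin (Y.prod X)
  have h2 := Submodule.finrank_mono h1
  rwa [LinearEquiv.finrank_eq (Submodule.equivMapOfInjective _ hinj (P.alg X)).symm] at h2

/-- **the zero-one law with a further factor**: if D fails for a power of `X`, the classes of
cycles on `Y × X ^ m` are numerically trivial up to a proportion which tends to zero, for every
variety `Y` -/
theorem zop_prod [CharZero Ω] (hpt : ∀ Y, 1 ≤ nr P Y) (X : SmProjVar k) (hD : ¬ P.DP X) :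
    ∃ C : ℝ, 0 < C ∧ ∀ (Y : SmProjVar k) (n : ℕ),
      (nr P (Y.prod (X.selfProd (n + 1))) : ℝ) * Real.log (n + 3) ≤
        C * Module.finrank Ω (P.H Y) * hr P (Y.prod (X.selfProd (n + 1))) := by
  obtain ⟨C, hC, h⟩ := zop_rate hpt X hD
  have hb : (1 : ℝ) ≤ Module.finrank Ω (P.H X) := by exact_mod_cast one_le_finrank hpt X
  refine ⟨C * Module.finrank Ω (P.H X), by positivity, fun Y n => ?_⟩
  have h1 : (nr P (Y.prod (X.selfProd (n + 1))) : ℝ) ≤ Module.finrank Ω (P.H Y) *
      (Module.finrank Ω (P.H X) * nr P (X.selfProd (n + 1))) := by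
    exact_mod_cast nr_prod_selfProd_le X Y (Nat.le_add_left 1 n)
  have h2 : (hr P (X.selfProd (n + 1)) : ℝ) ≤ hr P (Y.prod (X.selfProd (n + 1))) := by
    exact_mod_cast hr_le_prod _ Y (hpt Y)
  have h3 := h (n + 1)
  have e1 : ((n + 1 : ℕ) : ℝ) + 2 = (n : ℝ) + 3 := by push_cast; ring
  rw [e1] at h3
  have h4 : 0 ≤ Real.log ((n : ℝ) + 3) := Real.log_nonneg (by
    have : (0 : ℝ) ≤ n := Nat.cast_nonneg n
    linarith)
  have h5 : (0 : ℝ) ≤ Module.finrank Ω (P.H Y) := Nat.cast_nonneg _
  have h6 : (0 : ℝ) ≤ Module.finrank Ω (P.H X) := Nat.cast_nonneg _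
  calc (nr P (Y.prod (X.selfProd (n + 1))) : ℝ) * Real.log (n + 3)
      ≤ (Module.finrank Ω (P.H Y) * (Module.finrank Ω (P.H X) * nr P (X.selfProd (n + 1)))) *
        Real.log (n + 3) := mul_le_mul_of_nonneg_right h1 h4
    _ = Module.finrank Ω (P.H Y) * Module.finrank Ω (P.H X) *
        (nr P (X.selfProd (n + 1)) * Real.log (n + 3)) := by ring
    _ ≤ Module.finrank Ω (P.H Y) * Module.finrank Ω (P.H X) *
        (C * hr P (X.selfProd (n + 1))) := by
        exact mul_le_mul_of_nonneg_left h3 (mul_nonneg h5 h6)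
    _ ≤ Module.finrank Ω (P.H Y) * Module.finrank Ω (P.H X) *
        (C * hr P (Y.prod (X.selfProd (n + 1)))) := by
        refine mul_le_mul_of_nonneg_left ?_ (mul_nonneg h5 h6)
        exact mul_le_mul_of_nonneg_left h2 hC.le
    _ = _ := by ring

end Pool.Agent.Helper34.ZP
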